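import Mathlib

/-!
# LGO/PS, archimedean part: the 12th root near `1`

PROOF.  `h = exp (log (1 + x) / 12)` (principal branch; `1 + x` is in the slit plane).  `h ^ 12 = 1 + x`.  `y = log (1 + x) / 12`:
`‖log (1 + x)‖ ≤ 3/2 ‖x‖`-type bound (`Complex.norm_log_one_add_half_le_self` or `Complex.norm_log_one_add_le`), and
`‖log (1 + x) - x‖ ≤ ‖x‖²` (`Complex.norm_log_one_add_sub_self_le`), `‖exp y - 1 - y‖ ≤ ‖y‖²` for `‖y‖ ≤ 1` (`Complex.norm_exp_sub_one_sub_id_le`),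
`‖exp y - 1‖ ≤ 2 ‖y‖` (`Complex.norm_exp_sub_one_le`); the same for `exp (-y) = h⁻¹`.
-/

namespace Pool.Agent.LGO.PS

/-- a 12th root of `1 + x` near `1`, with constant `C` -/
structure Rt (C : ℝ) (x h : ℂ) : Prop where
  pow : h ^ 12 = 1 + x
  lo : 1 / 2 ≤ ‖h‖
  hi : ‖h‖ ≤ 2
  a1 : ‖h - 1‖ ≤ C * ‖x‖
  a2 : ‖h - 1 - x / 12‖ ≤ C * ‖x‖ ^ 2
  b1 : ‖h⁻¹ - 1‖ ≤ C * ‖x‖
  b2 : ‖h⁻¹ - 1 + x / 12‖ ≤ C * ‖x‖ ^ 2

theorem exists_rt : ∃ C : ℝ, 1 ≤ C ∧ ∀ x : ℂ, ‖x‖ ≤ 1 / 2 → ∃ h : ℂ, Rt C x h := by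
  refine ⟨1, le_rfl, fun x hx => ⟨Complex.exp (Complex.log (1 + x) / 12), ?_⟩⟩
  have hx0 := norm_nonneg x
  have hne : 1 + x ≠ 0 := by
    intro h0
    have h1 : x = -1 := by linear_combination h0
    rw [h1, norm_neg, norm_one] at hx
    norm_num at hx
  set L := Complex.log (1 + x) with hL
  have hL1 : ‖L‖ ≤ 3 / 2 * ‖x‖ := Complex.norm_log_one_add_half_le_self hx
  have hL2 : ‖L - x‖ ≤ ‖x‖ ^ 2 := by
    have h1 := Complex.norm_log_one_add_sub_self_le (z := x) (by linarith)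
    have h2 : (1 - ‖x‖)⁻¹ ≤ 2 := by
      rw [inv_le_comm₀ (by linarith) (by norm_num)]
      linarith
    have h3 : ‖x‖ ^ 2 * (1 - ‖x‖)⁻¹ / 2 ≤ ‖x‖ ^ 2 := by
      have := mul_le_mul_of_nonneg_left h2 (sq_nonneg ‖x‖)
      linarith
    exact h1.trans h3
  set y := L / 12 with hy
  have hy1 : ‖y‖ ≤ ‖x‖ / 8 := by
    rw [hy, norm_div]
    have : ‖(12 : ℂ)‖ = 12 := by norm_num
    rw [this]
    linarith
  have hy0 := norm_nonneg y
  have hy2 : ‖y - x / 12‖ ≤ ‖x‖ ^ 2 / 12 := by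
    have h1 : y - x / 12 = (L - x) / 12 := by rw [hy]; ring
    have : ‖(12 : ℂ)‖ = 12 := by norm_num
    rw [h1, norm_div, this]
    linarith
  have hyle : ‖y‖ ≤ 1 := by linarith
  have hysq : ‖y‖ ^ 2 ≤ ‖x‖ ^ 2 / 64 := by nlinarith
  have e1 : ‖Complex.exp y - 1‖ ≤ 2 * ‖y‖ := Complex.norm_exp_sub_one_le hyle
  have e2 : ‖Complex.exp y - 1 - y‖ ≤ ‖y‖ ^ 2 := Complex.norm_exp_sub_one_sub_id_le hyle
  have hyle' : ‖-y‖ ≤ 1 := by rw [norm_neg]; exact hyle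
  have f1 : ‖Complex.exp (-y) - 1‖ ≤ 2 * ‖y‖ := by
    have := Complex.norm_exp_sub_one_le hyle'
    rwa [norm_neg] at this
  have f2 : ‖Complex.exp (-y) - 1 + y‖ ≤ ‖y‖ ^ 2 := by
    have := Complex.norm_exp_sub_one_sub_id_le hyle'
    rwa [norm_neg, sub_neg_eq_add] at this
  have hinv : (Complex.exp y)⁻¹ = Complex.exp (-y) := (Complex.exp_neg y).symm
  refine ⟨?_, ?_, ?_, ?_, ?_, ?_, ?_⟩
  · rw [← Complex.exp_nat_mul, hy, hL]
    have : ((12 : ℕ) : ℂ) * (Complex.log (1 + x) / 12) = Complex.log (1 + x) := by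
      push_cast
      ring
    rw [this, Complex.exp_log hne]
  · have h1 : ‖(1 : ℂ)‖ ≤ ‖Complex.exp y‖ + ‖Complex.exp y - 1‖ := by
      have h2 : (1 : ℂ) = Complex.exp y - (Complex.exp y - 1) := by ring
      conv_lhs => rw [h2]
      exact norm_sub_le _ _
    rw [norm_one] at h1
    linarith
  · have h1 : ‖Complex.exp y‖ ≤ ‖Complex.exp y - 1‖ + ‖(1 : ℂ)‖ := by
      have h2 : Complex.exp y = (Complex.exp y - 1) + 1 := by ring
      conv_lhs => rw [h2]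
      exact norm_add_le _ _
    rw [norm_one] at h1
    linarith
  · linarith
  · have h1 : Complex.exp y - 1 - x / 12 = (Complex.exp y - 1 - y) + (y - x / 12) := by ring
    rw [h1]
    refine (norm_add_le _ _).trans ?_
    nlinarith [sq_nonneg ‖x‖]
  · rw [hinv]
    linarith
  · have h1 : Complex.exp (-y) - 1 + x / 12 = (Complex.exp (-y) - 1 + y) - (y - x / 12) := by ring
    rw [hinv, h1]
    refine (norm_sub_le _ _).trans ?_
    nlinarith [sq_nonneg ‖x‖]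

end Pool.Agent.LGO.PS
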