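import Mathlib
import Pool.Agent.LGO.AX.Defs
import Pool.Agent.LGO.U.BDef
import Pool.Agent.LGO.Mul.Ht

/-!
# LGO/PS (note 3101, Theorem S), archimedean part: definitions

`u = Aa(t) / Ba(t)`, `v = Ab(t) / Bb(t)` have a common pole at `t = ∞`; `s = 1 / t = exp w`.  `LD` = local data: lifts
`zz m ψa w = m w / (2 π i) + ψa(exp w)` of `u` and `zz l ψb w` of `v`, and the function `G` with
`Δ(τ_b) Ba(t) = κ (1 + G(s)) Δ(τ_a) Bb(t)`, `κ = lc Aa / lc Ab`.  Note that `m τ_b - l τ_a = m ψb(s) - l ψa(s)`.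

`PD` = a point: `τ_a = g τ_b` and `Ξ = (C τ_b + D) ^ 12 κ (1 + G(s))` is a number of small height.
-/

namespace Pool.Agent.LGO.PS

open Polynomial Metric UpperHalfPlane Pool.Agent.Hhelper14.ZP Pool.Agent.LGO Pool.Agent.LGO.AX

/-- local data at infinity -/
structure LD (Aa Ba Ab Bb : ℂ[X]) (m l : ℕ) (r : ℝ) (ψa ψb G : ℂ → ℂ) : Prop where
  m0 : 0 < m
  l0 : 0 < l
  r0 : 0 < r
  da : DifferentiableOn ℂ ψa (ball 0 r)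
  db : DifferentiableOn ℂ ψb (ball 0 r)
  dG : DifferentiableOn ℂ G (ball 0 r)
  G0 : G 0 = 0
  ne : ∀ w : ℂ, Real.exp w.re < r → Ba.eval (Complex.exp (-w)) ≠ 0 ∧ Bb.eval (Complex.exp (-w)) ≠ 0
  za : ∀ w : ℂ, Real.exp w.re < r → 0 < (zz m ψa w).im ∧
    jF (zz m ψa w) = Aa.eval (Complex.exp (-w)) / Ba.eval (Complex.exp (-w))
  zb : ∀ w : ℂ, Real.exp w.re < r → 0 < (zz l ψb w).im ∧
    jF (zz l ψb w) = Ab.eval (Complex.exp (-w)) / Bb.eval (Complex.exp (-w))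
  cal : ∀ (w : ℂ) (τa τb : ℍ), Real.exp w.re < r → (τa : ℂ) = zz m ψa w → (τb : ℂ) = zz l ψb w →
    ModularForm.discriminant τb * Ba.eval (Complex.exp (-w)) =
      Aa.leadingCoeff / Ab.leadingCoeff * (1 + G (Complex.exp w)) *
        (ModularForm.discriminant τa * Bb.eval (Complex.exp (-w)))
  ea : Complex.exp (2 * Real.pi * Complex.I * ψa 0) = Ba.leadingCoeff / Aa.leadingCoeff
  eb : Complex.exp (2 * Real.pi * Complex.I * ψb 0) = Bb.leadingCoeff / Ab.leadingCoeff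

/-- bounds on the disc, the radius is small -/
structure LB (m l : ℕ) (r : ℝ) (ψa ψb G : ℂ → ℂ) (B : ℝ) : Prop where
  B1 : 1 ≤ B
  rB : r ≤ Real.exp (-(8 * Real.pi * B))
  ba : ∀ s ∈ ball (0 : ℂ) r, ‖ψa s‖ ≤ B
  bb : ∀ s ∈ ball (0 : ℂ) r, ‖ψb s‖ ≤ B
  bG : ∀ s ∈ ball (0 : ℂ) r, ‖G s‖ ≤ 1 / 2 ∧ ‖G s‖ ≤ B * ‖s‖
  bm : (m : ℝ) ≤ B ∧ (l : ℝ) ≤ B
  bΦ : ∀ s ∈ ball (0 : ℂ) r, ‖(m * ψb s - l * ψa s) - (m * ψb 0 - l * ψa 0)‖ ≤ B * ‖s‖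

/-- the function `G` is not identically `0`, for all local data -/
def GN (Aa Ba Ab Bb : ℂ[X]) : Prop := ∀ (m l : ℕ) (r : ℝ) (ψa ψb G : ℂ → ℂ),
  LD Aa Ba Ab Bb m l r ψa ψb G → ∃ s ∈ ball (0 : ℂ) r, G s ≠ 0

/-- no modular relation between `Aa / Ba` and `Ab / Bb` -/
def NoMd (Aa Ba Ab Bb : ℂ[X]) : Prop := ∀ N : ℕ, 0 < N → ∀ E : Finset ℂ, ∃ t : ℂ, t ∉ E ∧
  Ba.eval t ≠ 0 ∧ Bb.eval t ≠ 0 ∧ ¬ IsogDeg N (Ab.eval t / Bb.eval t) (Aa.eval t / Ba.eval t)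

/-- a point near infinity -/
structure PD (κ : ℂ) (m l : ℕ) (r : ℝ) (ψa ψb G : ℂ → ℂ) (K : IntermediateField ℚ ℂ) (M : ℝ)
    (w : ℂ) (τa τb : ℍ) (g : Matrix (Fin 2) (Fin 2) ℤ) (Ξ : ℂ) : Prop where
  hw : Real.exp w.re < r
  im : |w.im| ≤ Real.pi
  ta : (τa : ℂ) = zz m ψa w
  tb : (τb : ℂ) = zz l ψb w
  det : 0 < g.det
  detM : (g.det : ℝ) ≤ Real.exp M
  maps : Maps g (τb : ℂ) (τa : ℂ)
  xi : Ξ = ((g 1 0 : ℂ) * (τb : ℂ) + (g 1 1 : ℂ)) ^ 12 * κ * (1 + G (Complex.exp w))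
  bd : Bd K M Ξ
  two : 2 ≤ M
  fin : (Module.finrank ℚ K : ℝ) ≤ M

/-- the measure for two logarithms (engine 6) for `λ` -/
def E6 (lam : ℂ) : Prop := ∃ C : ℕ, 1 ≤ C ∧
  ∀ (K : IntermediateField ℚ ℂ) [FiniteDimensional ℚ K] (M : ℝ) (c : ℤ) (th : ℂ), 2 ≤ M →
    (Module.finrank ℚ K : ℝ) ≤ M → c ≠ 0 → |(c : ℝ)| ≤ Real.exp M → Bd K M th →
      Real.exp (-((C * M) ^ C)) ≤ ‖(c : ℂ) * lam - 2 * Real.pi * Complex.I * th‖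

end Pool.Agent.LGO.PS
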