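import Mathlib
import Pool.Agent.LGO.PS.ArDefs

/-!
# LGO/PS, archimedean part: sizes

Notation: `T = - Re w / (2 π)`, `z = C τ_b + D`, `(A, B'; C, D) = g`, `N = det g`.

PROOF.  `exp (Re w) < r ≤ exp (-(8 π B))`: `T > 4 B ≥ 4`.  `zz m ψa w = m w / (2 π i) + ψa(exp w)`: `Im τ_a = m T + Im ψa(s)`, `Re τ_a = m Im w / (2 π) + Re ψa(s)`
(`‖exp w‖ = exp (Re w)`, `s ∈ ball 0 r`), so `T / 2 ≤ T - B ≤ Im τ_a ≤ B T + B ≤ 2 B T`, `|Re τ_a| ≤ B / 2 + B ≤ 2 B`; the same for `b`.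
`Maps`: `τ_a z = A τ_b + B'`, `det = A D - B' C`; taking imaginary parts `|z|² Im τ_a = N Im τ_b` (multiply by `conj z`), so `N ≤ 4 B |z|²`, `|z|² ≤ 4 B N`.
`Im z = C Im τ_b`: `|C| T / 2 ≤ ‖z‖`.  `D = Re z - C Re τ_b`: `|D| ≤ ‖z‖ + |C| 2 B ≤ 2 ‖z‖` (`|C| ≤ 2 ‖z‖ / T ≤ ‖z‖ / (2 B)`).
`A - C τ_a = N / z` (`z (A - C τ_a) = A z - C (A τ_b + B') = A D - B' C`), so `|A| ≤ N / ‖z‖ + |C| (2 B + 2 B T) ≤ 4 B ‖z‖ + 8 B ‖z‖`.
`star`: `m τ_b - l τ_a = m ψb(s) - l ψa(s)` (the terms with `w` cancel), `C τ_b = z - D`, `C τ_a = A - N / z`.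
-/

namespace Pool.Agent.LGO.PS

open Polynomial Metric UpperHalfPlane Pool.Agent.Hhelper14.ZP Pool.Agent.LGO Pool.Agent.LGO.AX

variable {κ : ℂ} {m l : ℕ} {r : ℝ} {ψa ψb G : ℂ → ℂ} {K : IntermediateField ℚ ℂ} {M B : ℝ} {w : ℂ}
  {τa τb : ℍ} {g : Matrix (Fin 2) (Fin 2) ℤ} {Ξ : ℂ}

/-- the multiplier -/
noncomputable def mu (g : Matrix (Fin 2) (Fin 2) ℤ) (τb : ℍ) : ℂ := (g 1 0 : ℂ) * (τb : ℂ) + (g 1 1 : ℂ)

theorem PD.memb (h : PD κ m l r ψa ψb G K M w τa τb g Ξ) : Complex.exp w ∈ ball (0 : ℂ) r := by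
  rw [mem_ball_zero_iff, Complex.norm_exp]
  exact h.hw

theorem ArSz_zz (m : ℕ) (ψ : ℂ → ℂ) (w : ℂ) :
    (zz m ψ w).re = m * w.im / (2 * Real.pi) + (ψ (Complex.exp w)).re ∧
    (zz m ψ w).im = m * -w.re / (2 * Real.pi) + (ψ (Complex.exp w)).im := by
  have hpi : (Real.pi : ℂ) ≠ 0 := Complex.ofReal_ne_zero.2 Real.pi_ne_zero
  have e : (m : ℂ) * w / (2 * Real.pi * Complex.I) =
      ((m * w.im / (2 * Real.pi) : ℝ) : ℂ) + ((m * -w.re / (2 * Real.pi) : ℝ) : ℂ) * Complex.I := by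
    rw [div_eq_iff Complex.two_pi_I_ne_zero]
    conv_lhs => rw [← Complex.re_add_im w]
    push_cast
    field_simp
    linear_combination ((m : ℂ) * w.re) * Complex.I_sq
  unfold zz
  rw [e]
  generalize m * w.im / (2 * Real.pi) = X
  generalize m * -w.re / (2 * Real.pi) = Y
  constructor
  · simp
  · simp

theorem ArSz_im {m : ℕ} {ψ : ℂ → ℂ} {w : ℂ} {B : ℝ} (hm : 0 < m) (hB : 1 ≤ B) (hmB : (m : ℝ) ≤ B)
    (hψ : ‖ψ (Complex.exp w)‖ ≤ B) (hw : 8 * Real.pi * B < -w.re) :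
    -w.re ≤ 4 * Real.pi * (zz m ψ w).im ∧ Real.pi * (zz m ψ w).im ≤ B * -w.re := by
  have hpi := Real.pi_pos
  set x : ℝ := -w.re with hx
  have h1 : |(ψ (Complex.exp w)).im| ≤ B := (Complex.abs_im_le_norm _).trans hψ
  have h2 := abs_le.1 h1
  have hm1 : (1 : ℝ) ≤ m := by exact_mod_cast hm
  have hpB : Real.pi ≤ Real.pi * B := by nlinarith only [hpi, hB]
  have hx0 : 0 < x := by linarith only [hw, hpB, hpi]
  have e : Real.pi * (zz m ψ w).im = m * x / 2 + Real.pi * (ψ (Complex.exp w)).im := by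
    rw [(ArSz_zz m ψ w).2, hx, mul_add]
    congr 1
    field_simp
  have h3 : Real.pi * (ψ (Complex.exp w)).im ≤ Real.pi * B := mul_le_mul_of_nonneg_left h2.2 hpi.le
  have h4 : -(Real.pi * B) ≤ Real.pi * (ψ (Complex.exp w)).im := by
    nlinarith only [mul_le_mul_of_nonneg_left h2.1 hpi.le]
  have h5 : x ≤ m * x := le_mul_of_one_le_left hx0.le hm1
  have h6 : m * x ≤ B * x := mul_le_mul_of_nonneg_right hmB hx0.le
  have h7 : x ≤ B * x := le_mul_of_one_le_left hx0.le hB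
  constructor
  · linarith only [e, h4, h5, hw, hx0]
  · linarith only [e, h3, h6, hw, hx0, h7]

theorem ArSz_re {m : ℕ} {ψ : ℂ → ℂ} {w : ℂ} {B : ℝ} (hB : 1 ≤ B) (hmB : (m : ℝ) ≤ B)
    (hψ : ‖ψ (Complex.exp w)‖ ≤ B) (hw : |w.im| ≤ Real.pi) : |(zz m ψ w).re| ≤ 3 / 2 * B := by
  have hpi := Real.pi_pos
  rw [(ArSz_zz m ψ w).1]
  refine (abs_add_le _ _).trans ?_
  have h1 : |(ψ (Complex.exp w)).re| ≤ B := (Complex.abs_re_le_norm _).trans hψ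
  have h2 : |(m : ℝ) * w.im / (2 * Real.pi)| ≤ B / 2 := by
    rw [abs_div, abs_mul, abs_of_pos (by positivity : 0 < 2 * Real.pi), Nat.abs_cast,
      div_le_iff₀ (by positivity)]
    calc (m : ℝ) * |w.im| ≤ B * Real.pi := mul_le_mul hmB hw (abs_nonneg _) (by linarith)
      _ = B / 2 * (2 * Real.pi) := by ring
  linarith

theorem PD.T_ge (hb : LB m l r ψa ψb G B) (h : PD κ m l r ψa ψb G K M w τa τb g Ξ) :
    8 * Real.pi * B < -w.re := by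
  have h1 : Real.exp w.re < Real.exp (-(8 * Real.pi * B)) := h.hw.trans_le hb.rB
  have h2 := Real.exp_lt_exp.1 h1
  linarith

theorem PD.im_b (hl : 0 < l) (hb : LB m l r ψa ψb G B) (h : PD κ m l r ψa ψb G K M w τa τb g Ξ) :
    -w.re ≤ 4 * Real.pi * (τb : ℂ).im ∧ Real.pi * (τb : ℂ).im ≤ B * -w.re := by
  rw [h.tb]
  exact ArSz_im hl hb.B1 hb.bm.2 (hb.bb _ h.memb) (h.T_ge hb)

theorem PD.im_a (hm : 0 < m) (hb : LB m l r ψa ψb G B) (h : PD κ m l r ψa ψb G K M w τa τb g Ξ) :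
    -w.re ≤ 4 * Real.pi * (τa : ℂ).im ∧ Real.pi * (τa : ℂ).im ≤ B * -w.re := by
  rw [h.ta]
  exact ArSz_im hm hb.B1 hb.bm.1 (hb.ba _ h.memb) (h.T_ge hb)

theorem PD.ArSz_A (h : PD κ m l r ψa ψb G K M w τa τb g Ξ) :
    mu g τb * ((g 0 0 : ℂ) - (g 1 0 : ℂ) * (τa : ℂ)) = (g.det : ℂ) := by
  have h1 := h.maps
  unfold Maps at h1
  rw [Matrix.det_fin_two]
  push_cast
  unfold mu
  linear_combination (-(g 1 0 : ℂ)) * h1

theorem PD.ArSz_ne (h : PD κ m l r ψa ψb G K M w τa τb g Ξ) : mu g τb ≠ 0 := by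
  intro h0
  have h1 := h.ArSz_A
  rw [h0, zero_mul] at h1
  have h2 : (g.det : ℂ) ≠ 0 := Int.cast_ne_zero.2 h.det.ne'
  exact h2 h1.symm

theorem PD.ArSz_im' (h : PD κ m l r ψa ψb G K M w τa τb g Ξ) :
    ‖mu g τb‖ ^ 2 * (τa : ℂ).im = g.det * (τb : ℂ).im := by
  have h1 := h.maps
  unfold Maps at h1
  have e1 := congrArg Complex.re h1
  have e2 := congrArg Complex.im h1
  simp only [Complex.mul_re, Complex.mul_im, Complex.add_re, Complex.add_im, Complex.intCast_re,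
    Complex.intCast_im, zero_mul, sub_zero, add_zero] at e1 e2
  rw [Matrix.det_fin_two, Complex.sq_norm, Complex.normSq_apply]
  unfold mu
  simp only [Complex.mul_re, Complex.mul_im, Complex.add_re, Complex.add_im, Complex.intCast_re,
    Complex.intCast_im, zero_mul, sub_zero, add_zero]
  push_cast
  linear_combination ((g 1 0 : ℝ) * (τb : ℂ).re + (g 1 1 : ℝ)) * e2 - ((g 1 0 : ℝ) * (τb : ℂ).im) * e1

theorem PD.size (hm : 0 < m) (hl : 0 < l) (hb : LB m l r ψa ψb G B)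
    (h : PD κ m l r ψa ψb G K M w τa τb g Ξ) :
    mu g τb ≠ 0 ∧ (g.det : ℝ) ≤ 4 * B * ‖mu g τb‖ ^ 2 ∧ ‖mu g τb‖ ^ 2 ≤ 4 * B * g.det ∧
    |(g 1 0 : ℝ)| * -w.re ≤ 4 * Real.pi * ‖mu g τb‖ ∧ |(g 1 0 : ℝ)| ≤ ‖mu g τb‖ ∧
    |(g 1 1 : ℝ)| ≤ 2 * ‖mu g τb‖ ∧ |(g 0 0 : ℝ)| ≤ 12 * B * ‖mu g τb‖ := by
  have hpi := Real.pi_pos
  have hB := hb.B1
  have hT := h.T_ge hb
  obtain ⟨b1, b2⟩ := h.im_b hl hb
  obtain ⟨a1, a2⟩ := h.im_a hm hb
  have hz := h.ArSz_ne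
  have hA := h.ArSz_A
  have hI := h.ArSz_im'
  have hbp : 0 < (τb : ℂ).im := τb.im_pos
  have hap : 0 < (τa : ℂ).im := τa.im_pos
  have hN : (0 : ℝ) < g.det := by exact_mod_cast h.det
  have hrb : |(τb : ℂ).re| ≤ 3 / 2 * B := by
    rw [h.tb]
    exact ArSz_re hB hb.bm.2 (hb.bb _ h.memb) h.im
  have hra : |(τa : ℂ).re| ≤ 3 / 2 * B := by
    rw [h.ta]
    exact ArSz_re hB hb.bm.1 (hb.ba _ h.memb) h.im
  set x : ℝ := -w.re with hx
  set Z : ℝ := ‖mu g τb‖ with hZ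
  have hZ0 : 0 < Z := norm_pos_iff.2 hz
  have hpB : Real.pi ≤ Real.pi * B := le_mul_of_one_le_right hpi.le hB
  have hx0 : 0 < x := by linarith only [hT, hpB, hpi]
  -- sizes of the determinant
  have s1 : (g.det : ℝ) ≤ 4 * B * Z ^ 2 := by
    have h1 : (g.det : ℝ) * x ≤ 4 * B * Z ^ 2 * x := by
      calc (g.det : ℝ) * x ≤ g.det * (4 * Real.pi * (τb : ℂ).im) := mul_le_mul_of_nonneg_left b1 hN.le
        _ = 4 * (Z ^ 2 * (Real.pi * (τa : ℂ).im)) := by linear_combination (-(4 * Real.pi)) * hI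
        _ ≤ 4 * (Z ^ 2 * (B * x)) := by gcongr
        _ = 4 * B * Z ^ 2 * x := by ring
    exact le_of_mul_le_mul_right h1 hx0
  have s2 : Z ^ 2 ≤ 4 * B * g.det := by
    have h1 : Z ^ 2 * x ≤ 4 * B * g.det * x := by
      calc Z ^ 2 * x ≤ Z ^ 2 * (4 * Real.pi * (τa : ℂ).im) := mul_le_mul_of_nonneg_left a1 (sq_nonneg _)
        _ = 4 * (g.det * (Real.pi * (τb : ℂ).im)) := by linear_combination (4 * Real.pi) * hI
        _ ≤ 4 * (g.det * (B * x)) := by gcongr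
        _ = 4 * B * g.det * x := by ring
    exact le_of_mul_le_mul_right h1 hx0
  -- the entry `C`
  have s3 : |(g 1 0 : ℝ)| * x ≤ 4 * Real.pi * Z := by
    have h1 : (mu g τb).im = (g 1 0 : ℝ) * (τb : ℂ).im := by
      unfold mu
      simp
    have h2 : |(g 1 0 : ℝ)| * (τb : ℂ).im ≤ Z := by
      have h3 := Complex.abs_im_le_norm (mu g τb)
      rw [h1, abs_mul, abs_of_pos hbp] at h3
      exact h3
    calc |(g 1 0 : ℝ)| * x ≤ |(g 1 0 : ℝ)| * (4 * Real.pi * (τb : ℂ).im) :=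
          mul_le_mul_of_nonneg_left b1 (abs_nonneg _)
      _ = 4 * Real.pi * (|(g 1 0 : ℝ)| * (τb : ℂ).im) := by ring
      _ ≤ 4 * Real.pi * Z := by gcongr
  have hC0 : 0 ≤ |(g 1 0 : ℝ)| := abs_nonneg _
  have s4' : |(g 1 0 : ℝ)| * (2 * B) ≤ Z := by
    have h1 : 4 * Real.pi * (|(g 1 0 : ℝ)| * (2 * B)) ≤ 4 * Real.pi * Z := by
      calc 4 * Real.pi * (|(g 1 0 : ℝ)| * (2 * B)) = |(g 1 0 : ℝ)| * (8 * Real.pi * B) := by ring
        _ ≤ |(g 1 0 : ℝ)| * x := mul_le_mul_of_nonneg_left hT.le hC0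
        _ ≤ _ := s3
    exact le_of_mul_le_mul_left h1 (by positivity)
  have s4 : |(g 1 0 : ℝ)| ≤ Z := by
    have h1 : |(g 1 0 : ℝ)| * 1 ≤ |(g 1 0 : ℝ)| * (2 * B) :=
      mul_le_mul_of_nonneg_left (by linarith only [hB]) hC0
    linarith only [h1, s4']
  -- the entry `D`
  have s5 : |(g 1 1 : ℝ)| ≤ 2 * Z := by
    have h1 : (mu g τb).re = (g 1 0 : ℝ) * (τb : ℂ).re + (g 1 1 : ℝ) := by
      unfold mu
      simp
    have h2 : |(mu g τb).re| ≤ Z := Complex.abs_re_le_norm _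
    have h3 : |(g 1 0 : ℝ) * (τb : ℂ).re| ≤ 3 / 4 * Z := by
      rw [abs_mul]
      calc |(g 1 0 : ℝ)| * |(τb : ℂ).re| ≤ |(g 1 0 : ℝ)| * (3 / 2 * B) :=
            mul_le_mul_of_nonneg_left hrb hC0
        _ ≤ 3 / 4 * Z := by linarith only [s4']
    have h4 : (g 1 1 : ℝ) = (mu g τb).re - (g 1 0 : ℝ) * (τb : ℂ).re := by rw [h1]; ring
    rw [h4]
    refine (abs_sub _ _).trans ?_
    linarith only [h2, h3, hZ0]
  -- the entry `A`
  have s6 : |(g 0 0 : ℝ)| ≤ 12 * B * Z := by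
    have h1 : (g 0 0 : ℂ) = (g 1 0 : ℂ) * (τa : ℂ) + (g.det : ℂ) / mu g τb := by
      rw [← hA]
      field_simp
      ring
    have h2 : ‖(g 0 0 : ℂ)‖ = |(g 0 0 : ℝ)| := by
      rw [Complex.norm_intCast]
    rw [← h2, h1]
    refine (norm_add_le _ _).trans ?_
    have h3 : ‖(g.det : ℂ) / mu g τb‖ ≤ 4 * B * Z := by
      rw [norm_div, Complex.norm_intCast, abs_of_pos hN, div_le_iff₀ hZ0]
      calc (g.det : ℝ) ≤ 4 * B * Z ^ 2 := s1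
        _ = 4 * B * Z * Z := by ring
    have h4 : ‖(τa : ℂ)‖ ≤ 3 / 2 * B + (τa : ℂ).im := by
      refine (Complex.norm_le_abs_re_add_abs_im _).trans ?_
      rw [abs_of_pos hap]
      linarith only [hra]
    have h5 : ‖(g 1 0 : ℂ) * (τa : ℂ)‖ ≤ 3 / 4 * Z + 4 * B * Z := by
      rw [norm_mul, Complex.norm_intCast]
      have h6 : |(g 1 0 : ℝ)| * (τa : ℂ).im ≤ 4 * B * Z := by
        have h7 : Real.pi * (|(g 1 0 : ℝ)| * (τa : ℂ).im) ≤ Real.pi * (4 * B * Z) := by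
          calc Real.pi * (|(g 1 0 : ℝ)| * (τa : ℂ).im) = |(g 1 0 : ℝ)| * (Real.pi * (τa : ℂ).im) := by ring
            _ ≤ |(g 1 0 : ℝ)| * (B * x) := mul_le_mul_of_nonneg_left a2 hC0
            _ = B * (|(g 1 0 : ℝ)| * x) := by ring
            _ ≤ B * (4 * Real.pi * Z) := mul_le_mul_of_nonneg_left s3 (by linarith only [hB])
            _ = Real.pi * (4 * B * Z) := by ring
        exact le_of_mul_le_mul_left h7 hpi
      calc |(g 1 0 : ℝ)| * ‖(τa : ℂ)‖ ≤ |(g 1 0 : ℝ)| * (3 / 2 * B + (τa : ℂ).im) :=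
            mul_le_mul_of_nonneg_left h4 hC0
        _ ≤ 3 / 4 * Z + 4 * B * Z := by linarith only [s4', h6]
    have h8 : Z ≤ B * Z := le_mul_of_one_le_left hZ0.le hB
    linarith only [h3, h5, h8, hZ0]
  exact ⟨hz, s1, s2, s3, s4, s5, s6⟩

theorem PD.star (h : PD κ m l r ψa ψb G K M w τa τb g Ξ) (h0 : mu g τb ≠ 0) :
    (g 1 0 : ℂ) * (m * ψb (Complex.exp w) - l * ψa (Complex.exp w)) =
      m * mu g τb + l * g.det / mu g τb - m * g 1 1 - l * g 0 0 := by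
  have hA := h.ArSz_A
  have e1 : (m : ℂ) * (τb : ℂ) - l * (τa : ℂ) = m * ψb (Complex.exp w) - l * ψa (Complex.exp w) := by
    rw [h.ta, h.tb]
    unfold zz
    ring
  rw [← e1, ← hA]
  have e2 : (l : ℂ) * (mu g τb * ((g 0 0 : ℂ) - (g 1 0 : ℂ) * (τa : ℂ))) / mu g τb =
      l * ((g 0 0 : ℂ) - (g 1 0 : ℂ) * (τa : ℂ)) := by
    field_simp
  rw [e2]
  unfold mu
  ring

end Pool.Agent.LGO.PS
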