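import Mathlib
import Pool.Agent.LGO.PS.ArSz
import Pool.Agent.LGO.PS.ArRt
import Pool.Agent.LGO.PA.QInt
import Pool.Agent.LGO.Q.Quad
import Pool.Agent.LGO.U.RFld

/-!
# LGO/PS, archimedean part: the numbers `ρ` and `θ`

`TD` : `ρ = z h`, `h ^ 12 = 1 + G(s)`, `z = C τ_b + D`, `θ = m ρ + l N / ρ - m D - l A`, `λ = m ψb(0) - l ψa(0)`,
`θ - C λ = C Φ(s) + m ρ (1 - 1/h) + (l N / ρ) (1 - h)`, `Φ(s) = (m ψb(s) - l ψa(s)) - λ`.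

PROOF of `exists_TD`.  `h` from `exists_rt` for `x = G(exp w)` (`LB.bG`: `‖x‖ ≤ 1/2`).  The identity: `PD.star` with `z = ρ / h`, `N / z = N h / ρ`.
Heights: `ρ ^ 12 = z ^ 12 (1 + G) = Ξ / κ` (`PD.xi`).  `Ξ ≠ 0`.  `K₀ = ℚ(κ)`, `K₁ = K ⊔ K₀` (`[K₁ : ℚ] ≤ d₀ M`, `IntermediateField.finrank_sup_le`), `Bd K₁ B₀ κ` (`Quad_bd_alg`),
`bd_div` (LGO/PA/QInt): `Bd K₁ (C₁ M²) (Ξ / κ)` and `Bd K₁ (C₁ M²) (κ / Ξ)`.  `fld_root` for `X ^ 12 - C (Ξ / κ)`: `K₂ ∋ ρ`, `[K₂ : ℚ] ≤ 12 d₀ M`; `bd_root`: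
`Bd K₂ (C₁ M²) ρ`, and `Bd K₂ (C₁ M²) ρ⁻¹` (`ρ⁻¹ ^ 12 = κ / Ξ`).  `N = det ≤ exp M`; `|D|, |A| ≤ 12 B ‖z‖ ≤ 12 B (4 B exp M)^(1/2)`-type bounds (`PD.size`,
`‖z‖² ≤ 4 B det`), so `Bd.intCast`; sum up with `Bd.add`, `Bd.mul`, `Bd.neg`.  All bounds are at most `(C M) ^ C` because `M ≥ 2`.
`small`: `‖ρ‖ ≤ 2 ‖z‖`, `N / ‖ρ‖ ≤ 2 N / ‖z‖ ≤ 8 B ‖z‖`, `‖z‖ ≤ 4 B exp M`, `|C| ≤ ‖z‖`; `LB.bΦ`, `Rt.a1`, `Rt.b1`, `LB.bG`.
-/

namespace Pool.Agent.LGO.PS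

open Polynomial Metric UpperHalfPlane Pool.Agent.Hhelper14.ZP Pool.Agent.LGO Pool.Agent.LGO.AX Pool.Agent.LGO.U

/-- `λ / (2 π i)` -/
noncomputable def la (m l : ℕ) (ψa ψb : ℂ → ℂ) : ℂ := m * ψb 0 - l * ψa 0

/-- `Φ` -/
noncomputable def Ph (m l : ℕ) (ψa ψb : ℂ → ℂ) (s : ℂ) : ℂ := (m * ψb s - l * ψa s) - la m l ψa ψb

structure TD (m l : ℕ) (ψa ψb G : ℂ → ℂ) (C₀ : ℝ) (w : ℂ) (τb : ℍ) (g : Matrix (Fin 2) (Fin 2) ℤ)
    (h ρ θ : ℂ) : Prop where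
  rt : Rt C₀ (G (Complex.exp w)) h
  ρ0 : ρ ≠ 0
  ρe : ρ = mu g τb * h
  θe : θ = m * ρ + l * g.det / ρ - m * g 1 1 - l * g 0 0
  id : θ - g 1 0 * la m l ψa ψb =
    g 1 0 * Ph m l ψa ψb (Complex.exp w) + m * ρ * (1 - h⁻¹) + l * g.det / ρ * (1 - h)

private theorem ArTh_z {B M N Z : ℝ} (hB : 1 ≤ B) (hM : 0 ≤ M) (hN : N ≤ Real.exp M) (hZ : 0 ≤ Z)
    (h : Z ^ 2 ≤ 4 * B * N) : Z ≤ 4 * B * Real.exp M := by
  have h1 : 1 ≤ Real.exp M := Real.one_le_exp hM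
  have h2 : 1 ≤ 4 * B * Real.exp M := by nlinarith
  have h3 : Z ^ 2 ≤ 4 * B * Real.exp M := h.trans (mul_le_mul_of_nonneg_left hN (by linarith))
  by_contra hcon
  push Not at hcon
  nlinarith

private theorem ArTh_exp {c M : ℝ} : c * Real.exp M ≤ Real.exp (c + M) := by
  rw [Real.exp_add]
  have h1 := Real.add_one_le_exp c
  exact mul_le_mul_of_nonneg_right (by linarith) (Real.exp_pos _).le

private theorem ArTh_pow {C : ℕ} {c M : ℝ} (hc : c ≤ C) (hC : 2 ≤ C) (hM : 2 ≤ M) :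
    c * M ^ 2 ≤ (C * M) ^ C := by
  have hC' : (2 : ℝ) ≤ C := by exact_mod_cast hC
  have h1 : (1 : ℝ) ≤ C * M := by nlinarith
  calc c * M ^ 2 ≤ C * M ^ 2 := mul_le_mul_of_nonneg_right hc (by positivity)
    _ ≤ (C * M) ^ 2 := by
      rw [mul_pow]
      refine mul_le_mul_of_nonneg_right ?_ (by positivity)
      nlinarith
    _ ≤ (C * M) ^ C := pow_le_pow_right₀ h1 hC

theorem exists_TD {κ : ℂ} (hκ : IsAlgebraic ℚ κ) (hκ0 : κ ≠ 0) {m l : ℕ} {r B : ℝ}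
    {ψa ψb G : ℂ → ℂ} (hm : 0 < m) (hl : 0 < l) (hr : 0 < r) (hb : LB m l r ψa ψb G B) :
    ∃ (C₀ : ℝ) (C : ℕ), 1 ≤ C₀ ∧ 1 ≤ C ∧ ∀ (K : IntermediateField ℚ ℂ) [FiniteDimensional ℚ K] (M : ℝ)
      (w : ℂ) (τa τb : ℍ) (g : Matrix (Fin 2) (Fin 2) ℤ) (Ξ : ℂ),
      PD κ m l r ψa ψb G K M w τa τb g Ξ →
      ∃ (K₂ : IntermediateField ℚ ℂ) (h ρ θ : ℂ), FiniteDimensional ℚ K₂ ∧
        TD m l ψa ψb G C₀ w τb g h ρ θ ∧ (Module.finrank ℚ K₂ : ℝ) ≤ (C * M) ^ C ∧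
        Bd K₂ ((C * M) ^ C) θ ∧
        ‖θ - g 1 0 * la m l ψa ψb‖ ≤ Real.exp (C * M) * Real.exp w.re ∧
        ‖mu g τb‖ ≤ Real.exp (C * M) := by
  classical
  obtain ⟨C₀, hC₀, hrt⟩ := exists_rt
  obtain ⟨B₀, hB₀, hBκ⟩ := Quad_bd_alg hκ
  have hfin₀ : FiniteDimensional ℚ (IntermediateField.adjoin ℚ {κ}) :=
    IntermediateField.adjoin.finiteDimensional hκ.isIntegral
  obtain ⟨d₀, hd₀⟩ : ∃ d₀ : ℕ, d₀ = Module.finrank ℚ (IntermediateField.adjoin ℚ {κ}) := ⟨_, rfl⟩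
  have hB1 := hb.B1
  have hd0 : (0 : ℝ) ≤ d₀ := Nat.cast_nonneg _
  obtain ⟨c₂, hc₂⟩ : ∃ c : ℝ, c = 4 * B + 6 * d₀ * (B₀ + 1) + 96 * B ^ 2 + 6 := ⟨_, rfl⟩
  obtain ⟨c₃, hc₃⟩ : ∃ c : ℝ, c = 4 * B * (B + 2 * B ^ 2 * C₀ + 8 * B ^ 3 * C₀) := ⟨_, rfl⟩
  have hc₂0 : 0 ≤ c₂ := by rw [hc₂]; positivity
  have hc₃0 : 0 ≤ c₃ := by rw [hc₃]; positivity
  obtain ⟨C, hC⟩ := exists_nat_ge (12 * d₀ + c₂ + c₃ + 4 * B + 2)
  have hC2 : 2 ≤ C := by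
    have : (2 : ℝ) ≤ C := by linarith
    exact_mod_cast this
  refine ⟨C₀, C, hC₀, by omega, ?_⟩
  intro K hK M w τa τb g Ξ hP
  have hM2 := hP.two
  have hs : ‖Complex.exp w‖ = Real.exp w.re := Complex.norm_exp w
  obtain ⟨hG1, hG2⟩ := hb.bG _ hP.memb
  obtain ⟨h, hh⟩ := hrt _ hG1
  obtain ⟨hz0, hz1, hz2, -, hz4, hz5, hz6⟩ := PD.size hm hl hb hP
  have hstar := PD.star hP hz0
  obtain ⟨z, hz⟩ : ∃ z, z = mu g τb := ⟨_, rfl⟩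
  rw [← hz] at hz0 hz1 hz2 hz4 hz5 hz6 hstar
  have hh0 : h ≠ 0 := by
    rintro rfl
    have := hh.lo
    rw [norm_zero] at this
    norm_num at this
  have hx1 : (1 : ℂ) + G (Complex.exp w) ≠ 0 := by
    rw [← hh.pow]
    exact pow_ne_zero _ hh0
  obtain ⟨ρ, hρ⟩ : ∃ ρ, ρ = z * h := ⟨_, rfl⟩
  have hρ0 : ρ ≠ 0 := by
    rw [hρ]
    exact mul_ne_zero hz0 hh0
  have hΞ : Ξ = z ^ 12 * κ * (1 + G (Complex.exp w)) := by
    rw [hP.xi, hz]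
    rfl
  have hΞ0 : Ξ ≠ 0 := by
    rw [hΞ]
    exact mul_ne_zero (mul_ne_zero (pow_ne_zero _ hz0) hκ0) hx1
  have hρ12 : ρ ^ 12 = Ξ / κ := by
    rw [hρ, mul_pow, hh.pow, hΞ]
    field_simp
  -- the fields
  obtain ⟨K₁, hK₁⟩ : ∃ K₁ : IntermediateField ℚ ℂ, K₁ = K ⊔ IntermediateField.adjoin ℚ {κ} := ⟨_, rfl⟩
  have hfin₁ : FiniteDimensional ℚ K₁ := by
    rw [hK₁]
    exact IntermediateField.finiteDimensional_sup K _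
  have hκ₁ : κ ∈ K₁ := by
    rw [hK₁]
    exact (le_sup_right : IntermediateField.adjoin ℚ {κ} ≤ K ⊔ IntermediateField.adjoin ℚ {κ})
      (IntermediateField.mem_adjoin_simple_self ℚ κ)
  have hKK₁ : K ≤ K₁ := by
    rw [hK₁]
    exact le_sup_left
  have hdeg₁ : (Module.finrank ℚ K₁ : ℝ) ≤ d₀ * M := by
    have h5 : Module.finrank ℚ K₁ ≤ Module.finrank ℚ K * d₀ := by
      rw [hK₁, hd₀]
      exact IntermediateField.finrank_sup_le K _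
    have h6 : (Module.finrank ℚ K₁ : ℝ) ≤ (Module.finrank ℚ K : ℝ) * d₀ := by exact_mod_cast h5
    refine h6.trans ?_
    rw [mul_comm]
    exact mul_le_mul_of_nonneg_left hP.fin hd0
  have bκ : Bd K₁ (B₀ + M) κ := (hBκ K₁ hκ₁).mono (by linarith)
  have bΞ : Bd K₁ (B₀ + M) Ξ := (hP.bd.le hKK₁).mono (by linarith)
  obtain ⟨H, hH⟩ : ∃ H : ℝ, H = 3 * (d₀ * M) * (B₀ + M) := ⟨_, rfl⟩
  have b1 : Bd K₁ H (Ξ / κ) := by
    rw [hH]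
    exact PA.bd_div hdeg₁ bκ bΞ hκ0
  have b2 : Bd K₁ H (κ / Ξ) := by
    rw [hH]
    exact PA.bd_div hdeg₁ bΞ bκ hΞ0
  obtain ⟨K₂, hK₁₂, hfin₂, hdeg₂, hρ₂⟩ := fld_root 12 K₁ (X ^ 12 - Polynomial.C (Ξ / κ))
    (X_pow_sub_C_ne_zero (by norm_num) _) (by rw [natDegree_X_pow_sub_C])
    (by
      intro i
      rw [coeff_sub, coeff_X_pow, coeff_C]
      refine K₁.sub_mem ?_ ?_
      · split_ifs
        · exact K₁.one_mem
        · exact K₁.zero_mem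
      · split_ifs
        · exact b1.mem
        · exact K₁.zero_mem) ρ (by rw [eval_sub, eval_pow, eval_X, eval_C, hρ12, sub_self])
  have bρ : Bd K₂ H ρ := by
    refine bd_root 12 (by norm_num) hρ₂ ?_
    rw [hρ12]
    exact b1.le hK₁₂
  have bρi : Bd K₂ H ρ⁻¹ := by
    refine bd_root 12 (by norm_num) (K₂.inv_mem hρ₂) ?_
    rw [inv_pow, hρ12, inv_div]
    exact b2.le hK₁₂
  have hdegM : (Module.finrank ℚ K₂ : ℝ) ≤ 12 * d₀ * M := by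
    have h5 : (Module.finrank ℚ K₂ : ℝ) ≤ 12 * (Module.finrank ℚ K₁ : ℝ) := by exact_mod_cast hdeg₂
    linarith
  -- sizes
  have hdet0 : (0 : ℝ) < g.det := by exact_mod_cast hP.det
  have hzM : ‖z‖ ≤ 4 * B * Real.exp M :=
    ArTh_z hB1 (by linarith) hP.detM (norm_nonneg _) hz2
  have hM0 : 0 ≤ M := by linarith
  have hexpM := Real.exp_pos M
  have bm : Bd K₂ B ((m : ℤ) : ℂ) := by
    refine Bd.intCast _ ?_ (by linarith)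
    have h5 := Real.add_one_le_exp B
    have h6 := hb.bm.1
    rw [Int.cast_natCast, Nat.abs_cast]
    linarith
  have bl : Bd K₂ B ((l : ℤ) : ℂ) := by
    refine Bd.intCast _ ?_ (by linarith)
    have h5 := Real.add_one_le_exp B
    have h6 := hb.bm.2
    rw [Int.cast_natCast, Nat.abs_cast]
    linarith
  have bdet : Bd K₂ M ((g.det : ℤ) : ℂ) := by
    refine Bd.intCast _ ?_ hM0
    rw [abs_of_pos hdet0]
    exact hP.detM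
  have hE0 : (0 : ℝ) ≤ 48 * B ^ 2 + M := by positivity
  have bD : Bd K₂ (48 * B ^ 2 + M) ((g 1 1 : ℤ) : ℂ) := by
    refine Bd.intCast _ (hz5.trans ?_) hE0
    refine le_trans ?_ ArTh_exp
    have h5 : 8 * B ≤ 48 * B ^ 2 := by nlinarith
    have h6 := mul_le_mul_of_nonneg_right h5 hexpM.le
    linarith
  have bA : Bd K₂ (48 * B ^ 2 + M) ((g 0 0 : ℤ) : ℂ) := by
    refine Bd.intCast _ (hz6.trans ?_) hE0
    refine le_trans ?_ ArTh_exp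
    have h5 : 12 * B * ‖z‖ ≤ 12 * B * (4 * B * Real.exp M) := mul_le_mul_of_nonneg_left hzM (by positivity)
    refine h5.trans (le_of_eq ?_)
    ring
  rw [Int.cast_natCast] at bm bl
  obtain ⟨θ, hθ⟩ : ∃ θ : ℂ, θ = m * ρ + l * g.det / ρ - m * g 1 1 - l * g 0 0 := ⟨_, rfl⟩
  have bθ : Bd K₂ (c₂ * M ^ 2) θ := by
    have h5 := (((bm.mul bρ).add ((bl.mul bdet).mul bρi)).add (bm.mul bD).neg).add (bl.mul bA).neg
    have h6 : θ = (m : ℂ) * ρ + (l : ℂ) * (g.det : ℂ) * ρ⁻¹ + -((m : ℂ) * (g 1 1 : ℂ)) + -((l : ℂ) * (g 0 0 : ℂ)) := by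
      rw [hθ, div_eq_mul_inv]
      ring
    rw [h6]
    refine h5.mono ?_
    rw [hH, hc₂]
    have e1 : 0 ≤ (d₀ : ℝ) * B₀ := mul_nonneg hd0 hB₀
    have hMM : M ≤ M ^ 2 := by nlinarith
    have hM1 : 1 ≤ M ^ 2 := by nlinarith
    have e2 : (d₀ : ℝ) * B₀ * M ≤ d₀ * B₀ * M ^ 2 := mul_le_mul_of_nonneg_left hMM e1
    have e3 : B ≤ B * M ^ 2 := le_mul_of_one_le_right (by linarith) hM1
    have e4 : B ^ 2 ≤ B ^ 2 * M ^ 2 := le_mul_of_one_le_right (by positivity) hM1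
    nlinarith
  have hid : θ - g 1 0 * la m l ψa ψb =
      g 1 0 * Ph m l ψa ψb (Complex.exp w) + m * ρ * (1 - h⁻¹) + l * g.det / ρ * (1 - h) := by
    have h5 : (g 1 0 : ℂ) * Ph m l ψa ψb (Complex.exp w) + g 1 0 * la m l ψa ψb =
        m * z + l * g.det / z - m * g 1 1 - l * g 0 0 := by
      rw [← hstar]
      unfold Ph
      ring
    have h6 : (m : ℂ) * ρ * (1 - h⁻¹) = m * ρ - m * z := by
      rw [hρ]
      field_simp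
    have h7 : (l : ℂ) * g.det / ρ * (1 - h) = l * g.det / ρ - l * g.det / z := by
      rw [hρ]
      field_simp
    rw [h6, h7, hθ]
    linear_combination (-1) * h5
  have hρn : ‖ρ‖ ≤ 2 * ‖z‖ := by
    rw [hρ, norm_mul]
    have := hh.hi
    nlinarith [norm_nonneg z]
  have hρn' : ‖z‖ ≤ 2 * ‖ρ‖ := by
    rw [hρ, norm_mul]
    have := hh.lo
    nlinarith [norm_nonneg z]
  have hzp : 0 < ‖z‖ := norm_pos_iff.2 hz0
  have hρp : 0 < ‖ρ‖ := norm_pos_iff.2 hρ0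
  have hsmall : ‖θ - g 1 0 * la m l ψa ψb‖ ≤ c₃ * Real.exp M * Real.exp w.re := by
    obtain ⟨q, hq⟩ : ∃ q, q = Real.exp w.re := ⟨_, rfl⟩
    have hq0 : 0 < q := by rw [hq]; exact Real.exp_pos _
    rw [hs, ← hq] at hG2
    have t1 : ‖(g 1 0 : ℂ) * Ph m l ψa ψb (Complex.exp w)‖ ≤ ‖z‖ * (B * q) := by
      rw [norm_mul, Complex.norm_intCast]
      refine mul_le_mul hz4 ?_ (norm_nonneg _) (norm_nonneg _)
      have := hb.bΦ _ hP.memb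
      rw [hs, ← hq] at this
      exact this
    have hm0 : (0 : ℝ) ≤ m := Nat.cast_nonneg m
    have hl0 : (0 : ℝ) ≤ l := Nat.cast_nonneg l
    have u1 : ‖(1 : ℂ) - h⁻¹‖ ≤ C₀ * (B * q) := by
      rw [norm_sub_rev]
      exact hh.b1.trans (mul_le_mul_of_nonneg_left hG2 (by linarith))
    have u2 : ‖(1 : ℂ) - h‖ ≤ C₀ * (B * q) := by
      rw [norm_sub_rev]
      exact hh.a1.trans (mul_le_mul_of_nonneg_left hG2 (by linarith))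
    have t2 : ‖(m : ℂ) * ρ * (1 - h⁻¹)‖ ≤ B * (2 * ‖z‖) * (C₀ * (B * q)) := by
      rw [norm_mul, norm_mul, Complex.norm_natCast]
      refine mul_le_mul (mul_le_mul hb.bm.1 hρn (norm_nonneg _) (by linarith)) u1 (norm_nonneg _) (by positivity)
    have t3 : ‖(l : ℂ) * g.det / ρ * (1 - h)‖ ≤ B * (8 * B * ‖z‖) * (C₀ * (B * q)) := by
      rw [norm_mul, norm_div, norm_mul, Complex.norm_natCast, Complex.norm_intCast, abs_of_pos hdet0]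
      refine mul_le_mul ?_ u2 (norm_nonneg _) (by positivity)
      rw [div_le_iff₀ hρp]
      have v1 : (l : ℝ) * g.det ≤ B * (4 * B * ‖z‖ ^ 2) := mul_le_mul hb.bm.2 hz1 hdet0.le (by linarith)
      refine v1.trans ?_
      have v2 : 4 * B ^ 2 * ‖z‖ * ‖z‖ ≤ 4 * B ^ 2 * ‖z‖ * (2 * ‖ρ‖) := mul_le_mul_of_nonneg_left hρn' (by positivity)
      nlinarith
    rw [hid]
    refine (norm_add₃_le).trans ?_
    have t4 : ‖z‖ * (B * q) + B * (2 * ‖z‖) * (C₀ * (B * q)) + B * (8 * B * ‖z‖) * (C₀ * (B * q)) =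
        ‖z‖ * ((B + 2 * B ^ 2 * C₀ + 8 * B ^ 3 * C₀) * q) := by ring
    have t5 : ‖z‖ * ((B + 2 * B ^ 2 * C₀ + 8 * B ^ 3 * C₀) * q) ≤
        4 * B * Real.exp M * ((B + 2 * B ^ 2 * C₀ + 8 * B ^ 3 * C₀) * q) :=
      mul_le_mul_of_nonneg_right hzM (by positivity)
    rw [← hq, hc₃]
    linarith
  refine ⟨K₂, h, ρ, θ, hfin₂, ⟨hh, hρ0, by rw [hρ, hz], hθ, hid⟩, ?_, ?_, ?_, ?_⟩
  · have h5 := ArTh_pow (c := 12 * d₀) (by linarith) hC2 hM2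
    refine hdegM.trans (le_trans ?_ h5)
    refine mul_le_mul_of_nonneg_left ?_ (by positivity)
    nlinarith
  · exact bθ.mono (ArTh_pow (by linarith) hC2 hM2)
  · refine hsmall.trans (mul_le_mul_of_nonneg_right (ArTh_exp.trans (Real.exp_le_exp.2 ?_)) (Real.exp_pos _).le)
    nlinarith
  · rw [← hz]
    refine hzM.trans (ArTh_exp.trans (Real.exp_le_exp.2 ?_))
    nlinarith

end Pool.Agent.LGO.PS
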