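import Mathlib
import Pool.Agent.LGO.PS.ArTh

/-!
# LGO/PS, archimedean part: the case `C ≠ 0`, `λ` with a measure (4a)

PROOF.  `exists_TD`: `K₂`, `θ`, `M' = (C₁ M) ^ C₁ + 2 ≥ [K₂ : ℚ]`, `Bd K₂ M' θ`; `|C| = |g 1 0| ≤ ‖mu g τb‖ ≤ exp (C₁ M) ≤ exp M'` (`PD.size`).  `E6` for `lam = 2 π i λ`, `c = g 1 0`, `th = θ`:
`exp (-((C₆ M') ^ C₆)) ≤ ‖C 2 π i λ - 2 π i θ‖ = 2 π ‖θ - C λ‖ ≤ 2 π exp (C₁ M) exp (Re w)`.  Logarithm: `- Re w ≤ (C₆ M') ^ C₆ + C₁ M + log (2 π) ≤ (C M) ^ C`.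
-/

namespace Pool.Agent.LGO.PS

open Polynomial Metric UpperHalfPlane Pool.Agent.Hhelper14.ZP Pool.Agent.LGO Pool.Agent.LGO.AX

private theorem Ar4a_fin (C₁ C₆ : ℕ) : ∃ C : ℕ, 1 ≤ C ∧ ∀ M : ℝ, 2 ≤ M →
    (C₆ * (C₁ * M) ^ C₁) ^ C₆ + C₁ * M + 3 ≤ (C * M) ^ C := by
  set a : ℕ := C₁ + C₆ + 3 with ha
  set E : ℕ := (C₁ + 1) * C₆ + 1 with hE
  refine ⟨a + E + 1, by omega, fun M hM => ?_⟩
  have h1 : (C₁ : ℝ) ≤ a := by rw [ha]; push_cast; linarith [Nat.cast_nonneg (α := ℝ) C₆]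
  have h6 : (C₆ : ℝ) ≤ a := by rw [ha]; push_cast; linarith [Nat.cast_nonneg (α := ℝ) C₁]
  have h3 : (C₁ : ℝ) + 3 ≤ a := by rw [ha]; push_cast; linarith [Nat.cast_nonneg (α := ℝ) C₆]
  have ha0 : (0 : ℝ) ≤ a := Nat.cast_nonneg _
  have hC10 : (0 : ℝ) ≤ C₁ := Nat.cast_nonneg _
  have hX : 2 ≤ (a : ℝ) * M := by nlinarith
  have hX1 : 1 ≤ (a : ℝ) * M := by linarith
  have hX0 : 0 ≤ (a : ℝ) * M := by linarith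
  have hM0 : 0 ≤ M := by linarith
  have k1 : (C₆ * (C₁ * M) ^ C₁) ^ C₆ ≤ ((a : ℝ) * M) ^ E := by
    calc ((C₆ : ℝ) * (C₁ * M) ^ C₁) ^ C₆ ≤ (((a : ℝ) * M) * ((a : ℝ) * M) ^ C₁) ^ C₆ := by
          refine pow_le_pow_left₀ (by positivity) (mul_le_mul ?_ ?_ (by positivity) hX0) _
          · exact h6.trans (le_mul_of_one_le_right ha0 (by linarith))
          · exact pow_le_pow_left₀ (by positivity) (mul_le_mul_of_nonneg_right h1 hM0) _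
      _ = ((a : ℝ) * M) ^ ((C₁ + 1) * C₆) := by rw [← pow_succ', ← pow_mul]
      _ ≤ ((a : ℝ) * M) ^ E := pow_le_pow_right₀ hX1 (by omega)
  have k2 : (C₁ : ℝ) * M + 3 ≤ ((a : ℝ) * M) ^ E := by
    calc (C₁ : ℝ) * M + 3 ≤ (C₁ + 3) * M := by nlinarith
      _ ≤ (a : ℝ) * M := mul_le_mul_of_nonneg_right h3 hM0
      _ = ((a : ℝ) * M) ^ 1 := (pow_one _).symm
      _ ≤ ((a : ℝ) * M) ^ E := pow_le_pow_right₀ hX1 (by omega)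
  have k3 : ((a : ℝ) * M) ^ E + ((a : ℝ) * M) ^ E ≤ ((a : ℝ) * M) ^ (E + 1) := by
    rw [pow_succ ((a : ℝ) * M) E]
    have h0 : 0 ≤ ((a : ℝ) * M) ^ E := by positivity
    have h2 := mul_le_mul_of_nonneg_left hX h0
    linarith
  calc (C₆ * (C₁ * M) ^ C₁) ^ C₆ + C₁ * M + 3 ≤ ((a : ℝ) * M) ^ E + ((a : ℝ) * M) ^ E := by linarith
    _ ≤ ((a : ℝ) * M) ^ (E + 1) := k3
    _ ≤ ((a : ℝ) * M) ^ (a + E + 1) := pow_le_pow_right₀ hX1 (by omega)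
    _ ≤ (((a + E + 1 : ℕ) : ℝ) * M) ^ (a + E + 1) := by
        refine pow_le_pow_left₀ hX0 (mul_le_mul_of_nonneg_right ?_ hM0) _
        exact_mod_cast (by omega : a ≤ a + E + 1)

private theorem Ar4a_pi : 2 * Real.pi ≤ Real.exp 3 := by
  have h1 : (2 : ℝ) ≤ Real.exp 1 := by
    have := Real.add_one_le_exp (1 : ℝ)
    linarith
  have h2 : Real.exp 3 = Real.exp 1 ^ 3 := by
    rw [← Real.exp_nat_mul]; norm_num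
  have h3 : (2 : ℝ) ^ 3 ≤ Real.exp 1 ^ 3 := pow_le_pow_left₀ (by norm_num) h1 3
  have h4 := Real.pi_le_four
  rw [h2]
  linarith

theorem ar4a {κ : ℂ} (hκ : IsAlgebraic ℚ κ) (hκ0 : κ ≠ 0) {m l : ℕ} {r B : ℝ}
    {ψa ψb G : ℂ → ℂ} (hm : 0 < m) (hl : 0 < l) (hr : 0 < r) (hb : LB m l r ψa ψb G B)
    (hE : E6 (2 * Real.pi * Complex.I * la m l ψa ψb)) :
    ∃ C : ℕ, 1 ≤ C ∧ ∀ (K : IntermediateField ℚ ℂ) [FiniteDimensional ℚ K] (M : ℝ) (w : ℂ)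
      (τa τb : ℍ) (g : Matrix (Fin 2) (Fin 2) ℤ) (Ξ : ℂ), PD κ m l r ψa ψb G K M w τa τb g Ξ →
      g 1 0 ≠ 0 → -w.re ≤ (C * M) ^ C := by
  obtain ⟨C₀, C₁, -, hC₁, hTD⟩ := exists_TD hκ hκ0 hm hl hr hb
  obtain ⟨C₆, -, h6⟩ := hE
  obtain ⟨C, hC, hfin⟩ := Ar4a_fin C₁ C₆
  refine ⟨C, hC, fun K _ M w τa τb g Ξ hP hg => ?_⟩
  obtain ⟨K₂, h, ρ, θ, hfd, -, hdeg, hbd, hsm, hmu⟩ := hTD K M w τa τb g Ξ hP
  have hM := hP.two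
  have hC₁' : (1 : ℝ) ≤ C₁ := by exact_mod_cast hC₁
  have hX : 2 ≤ (C₁ : ℝ) * M := by nlinarith
  have hXX : (C₁ : ℝ) * M ≤ (C₁ * M) ^ C₁ := le_self_pow₀ (by linarith) (by omega)
  have hsz := (PD.size hm hl hb hP).2.2.2.2.1
  have h1 := h6 K₂ ((C₁ * M) ^ C₁) (g 1 0) θ (by linarith) hdeg hg
    ((hsz.trans hmu).trans (Real.exp_le_exp.2 hXX)) hbd
  have e : ((g 1 0 : ℤ) : ℂ) * (2 * Real.pi * Complex.I * la m l ψa ψb) -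
      2 * Real.pi * Complex.I * θ = -(2 * Real.pi * Complex.I) * (θ - g 1 0 * la m l ψa ψb) := by
    ring
  have en : ‖-(2 * (Real.pi : ℂ) * Complex.I)‖ = 2 * Real.pi := by
    rw [norm_neg]
    simp [abs_of_pos Real.pi_pos]
  rw [e, norm_mul, en] at h1
  have h2 : Real.exp (-((C₆ * (C₁ * M) ^ C₁) ^ C₆)) ≤ Real.exp (3 + (C₁ * M + w.re)) := by
    rw [Real.exp_add 3, Real.exp_add]
    exact h1.trans (mul_le_mul Ar4a_pi hsm (norm_nonneg _) (Real.exp_pos _).le)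
  rw [Real.exp_le_exp] at h2
  have h3 := hfin M hM
  linarith

end Pool.Agent.LGO.PS
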