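import Mathlib

/-!
# LGO/PS, archimedean part: no logarithms

PROOF.  `G` is analytic at `0` and not identically `0` on the ball: `G s = s^e G₁ s` near `0`, `G₁` analytic, `G₁ 0 ≠ 0`
(`AnalyticAt.exists_eventuallyEq_pow_smul_nonzero_iff` and the identity theorem `AnalyticOnNhd.eqOn_of_preconnected_of_eventuallyEq`),
so `c₁ ‖s‖^e ≤ ‖G s‖ ≤ C₁ ‖s‖^e` near `0`.  If `F` vanishes identically near `0`: the first inequality would give `‖G s‖ ≤ 0` (for `‖s‖ < 1`), but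
`G s ≠ 0`.  Otherwise `c₂ ‖s‖^f ≤ ‖F s‖ ≤ C₂ ‖s‖^f`.  If `e ≤ f`: `c (- log ‖s‖) c₁ ‖s‖^e ≤ C₂ ‖s‖^f ≤ C₂ ‖s‖^e`, so `- log ‖s‖ ≤ C₂ / (c c₁)`.  If `f < e`:
`c₂ ‖s‖^f ≤ c⁻¹ (- log ‖s‖) C₁ ‖s‖^e ≤ c⁻¹ C₁ (- log ‖s‖) ‖s‖ ‖s‖^f`, so `c c₂ / C₁ ≤ (- log ‖s‖) ‖s‖ → 0` (`tendsto_log_mul_self_nhds_zero..`).
Both are false for small `‖s‖`.
-/

namespace Pool.Agent.LGO.PS

open Metric Filter Topology

/-- An analytic function with an isolated zero has a definite order. -/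
theorem ArAn_order {H : ℂ → ℂ} (hH : AnalyticAt ℂ H 0) (hnz : ¬ ∀ᶠ z in 𝓝 (0 : ℂ), H z = 0) :
    ∃ (n : ℕ) (a b : ℝ), 0 < a ∧ 0 < b ∧ ∀ᶠ s in 𝓝 (0 : ℂ), a * ‖s‖ ^ n ≤ ‖H s‖ ∧ ‖H s‖ ≤ b * ‖s‖ ^ n := by
  obtain ⟨n, g, hg, hg0, he⟩ := hH.exists_eventuallyEq_pow_smul_nonzero_iff.2 hnz
  have hpos : 0 < ‖g 0‖ := norm_pos_iff.2 hg0
  have h1 : ∀ᶠ s in 𝓝 (0 : ℂ), ‖g 0‖ / 2 < ‖g s‖ :=
    hg.continuousAt.norm.eventually_const_lt (by linarith)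
  have h2 : ∀ᶠ s in 𝓝 (0 : ℂ), ‖g s‖ < 2 * ‖g 0‖ :=
    hg.continuousAt.norm.eventually_lt_const (by linarith)
  refine ⟨n, ‖g 0‖ / 2, 2 * ‖g 0‖, by positivity, by positivity, ?_⟩
  filter_upwards [he, h1, h2] with s hs k1 k2
  have hn : ‖H s‖ = ‖s‖ ^ n * ‖g s‖ := by
    rw [hs, sub_zero, norm_smul, norm_pow]
  have hp : 0 ≤ ‖s‖ ^ n := by positivity
  rw [hn]
  constructor <;> nlinarith

theorem no_log {r : ℝ} {F G : ℂ → ℂ} (hr : 0 < r) (hF : DifferentiableOn ℂ F (ball 0 r))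
    (hG : DifferentiableOn ℂ G (ball 0 r)) (hne : ∃ s ∈ ball (0 : ℂ) r, G s ≠ 0) {c : ℝ} (hc : 0 < c) :
    ∃ r₀ : ℝ, 0 < r₀ ∧ r₀ ≤ r ∧ ∀ s : ℂ, 0 < ‖s‖ → ‖s‖ < r₀ →
      ¬ (c * -Real.log ‖s‖ * ‖G s‖ ≤ ‖F s‖ ∧ ‖F s‖ ≤ c⁻¹ * -Real.log ‖s‖ * ‖G s‖) := by
  have hFa : AnalyticAt ℂ F 0 := hF.analyticAt (ball_mem_nhds 0 hr)
  have hGa : AnalyticAt ℂ G 0 := hG.analyticAt (ball_mem_nhds 0 hr)
  have hGnz : ¬ ∀ᶠ z in 𝓝 (0 : ℂ), G z = 0 := by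
    intro h
    obtain ⟨s, hs, hs0⟩ := hne
    exact hs0 ((hG.analyticOnNhd isOpen_ball).eqOn_zero_of_preconnected_of_eventuallyEq_zero
      (convex_ball (0 : ℂ) r).isPreconnected (mem_ball_self hr) h hs)
  obtain ⟨e, a₁, b₁, ha₁, hb₁, hGe⟩ := ArAn_order hGa hGnz
  have hlog : ∀ M : ℝ, ∀ᶠ s in 𝓝 (0 : ℂ), 0 < ‖s‖ → M < -Real.log ‖s‖ := by
    intro M
    have : ∀ᶠ s in 𝓝 (0 : ℂ), ‖s‖ < Real.exp (-M) :=
      continuous_norm.continuousAt.eventually_lt_const (by beta_reduce; rw [norm_zero]; exact Real.exp_pos _)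
    filter_upwards [this] with s hs h0
    have := (Real.log_lt_iff_lt_exp h0).2 hs
    linarith
  have key : ∀ᶠ s in 𝓝 (0 : ℂ), 0 < ‖s‖ →
      ¬ (c * -Real.log ‖s‖ * ‖G s‖ ≤ ‖F s‖ ∧ ‖F s‖ ≤ c⁻¹ * -Real.log ‖s‖ * ‖G s‖) := by
    by_cases hFz : ∀ᶠ z in 𝓝 (0 : ℂ), F z = 0
    · filter_upwards [hFz, hGe, hlog 0] with s hs hg hl h0 h
      have hl' := hl h0
      have hp : 0 < ‖s‖ ^ e := by positivity
      have hg1 : 0 < ‖G s‖ := lt_of_lt_of_le (by positivity) hg.1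
      have h1 := h.1
      rw [hs, norm_zero] at h1
      have : 0 < c * -Real.log ‖s‖ * ‖G s‖ := by positivity
      linarith
    · obtain ⟨f, a₂, b₂, ha₂, hb₂, hFe⟩ := ArAn_order hFa hFz
      have hone : ∀ᶠ s in 𝓝 (0 : ℂ), ‖s‖ < 1 :=
        continuous_norm.continuousAt.eventually_lt_const (by beta_reduce; rw [norm_zero]; norm_num)
      rcases le_or_gt e f with hef | hef
      · filter_upwards [hFe, hGe, hlog 0, hlog (b₂ / (c * a₁)), hone] with s hs hg hl0 hl h1 h0 h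
        have hl0' := hl0 h0
        have hl' := hl h0
        have hp : 0 < ‖s‖ ^ e := by positivity
        have e1 : ‖s‖ ^ f ≤ ‖s‖ ^ e := pow_le_pow_of_le_one h0.le h1.le hef
        have e2 : c * -Real.log ‖s‖ * (a₁ * ‖s‖ ^ e) ≤ b₂ * ‖s‖ ^ e :=
          calc c * -Real.log ‖s‖ * (a₁ * ‖s‖ ^ e) ≤ c * -Real.log ‖s‖ * ‖G s‖ :=
                mul_le_mul_of_nonneg_left hg.1 (by positivity)
            _ ≤ ‖F s‖ := h.1
            _ ≤ b₂ * ‖s‖ ^ f := hs.2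
            _ ≤ b₂ * ‖s‖ ^ e := mul_le_mul_of_nonneg_left e1 hb₂.le
        have e3 : c * -Real.log ‖s‖ * a₁ ≤ b₂ := by
          have : c * -Real.log ‖s‖ * a₁ * ‖s‖ ^ e ≤ b₂ * ‖s‖ ^ e := by linarith
          exact le_of_mul_le_mul_right this hp
        rw [div_lt_iff₀ (by positivity)] at hl'
        nlinarith
      · have hmul : ∀ᶠ s in 𝓝 (0 : ℂ), Real.negMulLog ‖s‖ < c * a₂ / b₁ := by
          have hcont : Continuous fun s : ℂ => Real.negMulLog ‖s‖ :=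
            Real.continuous_negMulLog.comp continuous_norm
          refine hcont.continuousAt.eventually_lt_const ?_
          beta_reduce
          rw [norm_zero, Real.negMulLog_zero]
          positivity
        filter_upwards [hFe, hGe, hlog 0, hmul, hone] with s hs hg hl0 hm h1 h0 h
        have hl0' := hl0 h0
        have hp : 0 < ‖s‖ ^ f := by positivity
        have e1 : ‖s‖ ^ e ≤ ‖s‖ * ‖s‖ ^ f := by
          rw [← pow_succ']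
          exact pow_le_pow_of_le_one h0.le h1.le hef
        have e2 : a₂ * ‖s‖ ^ f ≤ c⁻¹ * -Real.log ‖s‖ * (b₁ * (‖s‖ * ‖s‖ ^ f)) :=
          calc a₂ * ‖s‖ ^ f ≤ ‖F s‖ := hs.1
            _ ≤ c⁻¹ * -Real.log ‖s‖ * ‖G s‖ := h.2
            _ ≤ c⁻¹ * -Real.log ‖s‖ * (b₁ * ‖s‖ ^ e) := mul_le_mul_of_nonneg_left hg.2 (by positivity)
            _ ≤ c⁻¹ * -Real.log ‖s‖ * (b₁ * (‖s‖ * ‖s‖ ^ f)) :=
                mul_le_mul_of_nonneg_left (mul_le_mul_of_nonneg_left e1 hb₁.le) (by positivity)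
        have e3 : a₂ ≤ c⁻¹ * -Real.log ‖s‖ * (b₁ * ‖s‖) := by
          have : a₂ * ‖s‖ ^ f ≤ c⁻¹ * -Real.log ‖s‖ * (b₁ * ‖s‖) * ‖s‖ ^ f := by linarith
          exact le_of_mul_le_mul_right this hp
        unfold Real.negMulLog at hm
        rw [lt_div_iff₀ hb₁] at hm
        have e4 : c * a₂ ≤ c * (c⁻¹ * -Real.log ‖s‖ * (b₁ * ‖s‖)) := mul_le_mul_of_nonneg_left e3 hc.le
        have e5 : c * (c⁻¹ * -Real.log ‖s‖ * (b₁ * ‖s‖)) = -‖s‖ * Real.log ‖s‖ * b₁ := by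
          field_simp
        linarith
  rw [Metric.eventually_nhds_iff_ball] at key
  obtain ⟨ε, hε, hk⟩ := key
  refine ⟨min ε r, lt_min hε hr, min_le_right _ _, fun s h0 hs => hk s ?_ h0⟩
  rw [mem_ball_zero_iff]
  exact hs.trans_le (min_le_left _ _)

end Pool.Agent.LGO.PS
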