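import Mathlib
import Pool.Agent.LGO.PS.ArTh
import Pool.Agent.LGO.PS.ArAn

/-!
# LGO/PS, archimedean part: the case `C ≠ 0`, `λ` rational (4b)

PROOF.  `exists_TD`: `K₂, h, ρ, θ, C₀, C₁`.  `x = θ - C q`, `C = g 1 0`, `q = λ`.
(i) `x ≠ 0`: `Bd K₂ ((C₂ M) ^ C₂) x` (`Bd.ratCast`, `Bd.intCast`, `|C| ≤ ‖z‖ ≤ exp (C₁ M)`), `Bd.lower`: `exp (-(2 (C₁ M)^C₁ (C₂ M)^C₂)) ≤ ‖x‖ ≤ exp (C₁ M) exp (Re w)`; logarithm.
(ii) `x = 0`.  Let `s = exp w`, `y = G s`, `z = mu g τb`, `N = det`.  If `exp (C₃ M) ‖s‖ ≥ 1` then `- Re w ≤ C₃ M`; so let `‖s‖ < exp (-(C₃ M))`, `C₃` large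
depending on `B, C₀, C₁, m, l`.
 `‖ρ - z‖ = ‖z‖ ‖h - 1‖ ≤ ‖z‖ C₀ B ‖s‖ ≤ 1/4`; `|Im z| = |C| Im τ_b ≥ Im τ_b ≥ 2` (`|C| ≥ 1`; `PD.im_b`, `PD.T_ge`).  So `|C| Im τ_b / 2 ≤ |Im ρ| ≤ 2 |C| Im τ_b`, `Im ρ ≠ 0`.
 `θ = C q` is real, so `m ρ + l N / ρ = θ + m D + l A` is real: imaginary part `Im ρ (m - l N / ‖ρ‖²) = 0`, so `l N = m ‖ρ‖²`, `l N / ρ = m conj ρ`.
 `TD.id`: `0 = C Φ + m ρ (1 - h⁻¹) + m conj ρ (1 - h)`, so
 `C Φ = - (m / 12) (ρ - conj ρ) y + m (ρ (h⁻¹ - 1 + y / 12) + conj ρ (h - 1 - y / 12))`, `‖second term‖ ≤ 2 m C₀ ‖ρ‖ ‖y‖²`, `‖ρ - conj ρ‖ = 2 |Im ρ|`.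
 `2 m C₀ ‖ρ‖ ‖y‖ ≤ 2 m C₀ 2 ‖z‖ B ‖s‖ ≤ m / 12 ≤ (m / 12) |Im ρ|` (`|Im ρ| ≥ 1`).  So `(m / 12) |Im ρ| ‖y‖ ≤ |C| ‖Φ‖ ≤ (m / 4) |Im ρ| ‖y‖`, hence
 `(m / 24) Im τ_b ‖y‖ ≤ ‖Φ‖ ≤ (m / 2) Im τ_b ‖y‖`, and `Im τ_b` is between `- Re w / (4 π)` and `B (- Re w) / π`, `- Re w = - log ‖s‖`.
 `no_log` for `F = Φ = Ph m l ψa ψb`, `G` and `c = min (1 / (96 π)) (..)`: `‖s‖ ≥ r₀`, so `- Re w ≤ - log r₀`.
-/

namespace Pool.Agent.LGO.PS

open Polynomial Metric UpperHalfPlane Pool.Agent.Hhelper14.ZP Pool.Agent.LGO Pool.Agent.LGO.AX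

private theorem Ar4b_self {C : ℕ} {M c : ℝ} (hM : 2 ≤ M) (hC : 1 ≤ C) (hc : c ≤ C) :
    c * M ≤ (C * M) ^ C := by
  have hC1 : (1 : ℝ) ≤ C := by exact_mod_cast hC
  have h1 : (1 : ℝ) ≤ C * M := by nlinarith
  calc c * M ≤ C * M := mul_le_mul_of_nonneg_right hc (by linarith)
    _ ≤ (C * M) ^ C := le_self_pow₀ h1 (by omega)

private theorem Ar4b_mono {C C' : ℕ} {M : ℝ} (hM : 2 ≤ M) (hC : 1 ≤ C) (h : C ≤ C') :
    ((C : ℝ) * M) ^ C ≤ (C' * M) ^ C' := by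
  have hC1 : (1 : ℝ) ≤ C := by exact_mod_cast hC
  have h1 : (1 : ℝ) ≤ C * M := by nlinarith
  have h2 : (C : ℝ) * M ≤ C' * M := mul_le_mul_of_nonneg_right (by exact_mod_cast h) (by linarith)
  calc ((C : ℝ) * M) ^ C ≤ (C * M) ^ C' := pow_le_pow_right₀ h1 h
    _ ≤ (C' * M) ^ C' := pow_le_pow_left₀ (by linarith) h2 _

private theorem Ar4b_fin (C₁ Bq : ℕ) : ∃ C : ℕ, 1 ≤ C ∧ ∀ M : ℝ, 2 ≤ M →
    2 * ((C₁ * M) ^ C₁) * ((C₁ * M) ^ C₁ + ((C₁ * M) ^ C₁ + Bq) + 1) + C₁ * M ≤ (C * M) ^ C := by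
  set a : ℕ := C₁ + Bq + 3 with ha
  refine ⟨a + (2 * C₁ + 4), by omega, fun M hM => ?_⟩
  have hM0 : 0 ≤ M := by linarith
  have hC10 : (0 : ℝ) ≤ C₁ := Nat.cast_nonneg _
  have hB0 : (0 : ℝ) ≤ Bq := Nat.cast_nonneg _
  have ha1 : (a : ℝ) = C₁ + Bq + 3 := by rw [ha]; push_cast; ring
  set X : ℝ := (a : ℝ) * M with hX
  have hX6 : 6 ≤ X := by rw [hX, ha1]; nlinarith
  have hXB : (Bq : ℝ) + 1 ≤ X := by rw [hX, ha1]; nlinarith
  have hXC : (C₁ : ℝ) * M ≤ X := by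
    rw [hX]
    exact mul_le_mul_of_nonneg_right (by rw [ha1]; linarith) hM0
  have hP : (C₁ * M) ^ C₁ ≤ X ^ C₁ := pow_le_pow_left₀ (by positivity) hXC _
  have hP0 : 0 ≤ (C₁ * M) ^ C₁ := by positivity
  have hX1 : 1 ≤ X ^ C₁ := one_le_pow₀ (by linarith)
  set P := (C₁ * M) ^ C₁ with hPdef
  set Q := X ^ C₁ with hQdef
  have h1 : P + (P + Bq) + 1 ≤ X * Q := by nlinarith
  have h2 : 2 * P * (P + (P + Bq) + 1) ≤ 2 * Q * (X * Q) := by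
    refine mul_le_mul (by linarith) h1 (by positivity) (by positivity)
  have h3 : 2 * Q * (X * Q) + X ≤ X ^ 2 * Q ^ 2 := by nlinarith [mul_nonneg (by linarith : 0 ≤ X) (sq_nonneg Q)]
  calc 2 * P * (P + (P + Bq) + 1) + C₁ * M ≤ X ^ 2 * Q ^ 2 := by linarith
    _ = X ^ (2 * C₁ + 2) := by rw [hQdef]; ring
    _ ≤ X ^ (a + (2 * C₁ + 4)) := pow_le_pow_right₀ (by linarith) (by omega)
    _ ≤ (((a + (2 * C₁ + 4) : ℕ) : ℝ) * M) ^ (a + (2 * C₁ + 4)) := by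
        refine pow_le_pow_left₀ (by linarith) (mul_le_mul_of_nonneg_right ?_ hM0) _
        exact_mod_cast Nat.le_add_right _ _

/-- the real case -/
private theorem Ar4b_real {m l : ℕ} {r B C₀ : ℝ} {ψa ψb G : ℂ → ℂ} (hm : 0 < m) (hl : 0 < l)
    (hC₀ : 1 ≤ C₀) (hb : LB m l r ψa ψb G B) {κ : ℂ} {K : IntermediateField ℚ ℂ} {M : ℝ} {w : ℂ} {τa τb : ℍ}
    {g : Matrix (Fin 2) (Fin 2) ℤ} {Ξ : ℂ} (hP : PD κ m l r ψa ψb G K M w τa τb g Ξ) (hg : g 1 0 ≠ 0)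
    {h ρ θ : ℂ} (hT : TD m l ψa ψb G C₀ w τb g h ρ θ) {q : ℚ} (hq : la m l ψa ψb = q)
    (hx : θ - g 1 0 * (q : ℂ) = 0)
    (hs : 48 * C₀ * B * (‖mu g τb‖ * Real.exp w.re) ≤ 1) :
    min (1 / (96 * Real.pi)) (2 * Real.pi / (m * B)) * -Real.log ‖Complex.exp w‖ * ‖G (Complex.exp w)‖ ≤
      ‖Ph m l ψa ψb (Complex.exp w)‖ ∧
    ‖Ph m l ψa ψb (Complex.exp w)‖ ≤
      (min (1 / (96 * Real.pi)) (2 * Real.pi / (m * B)))⁻¹ * -Real.log ‖Complex.exp w‖ *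
        ‖G (Complex.exp w)‖ := by
  have hpi := Real.pi_pos
  have hB := hb.B1
  have hm1 : (1 : ℝ) ≤ m := by exact_mod_cast hm
  have hTg := hP.T_ge hb
  obtain ⟨b1, b2⟩ := hP.im_b hl hb
  have hsz := PD.size hm hl hb hP
  obtain ⟨hz0, -, -, -, -, -, -⟩ := hsz
  have hGb := hb.bG _ hP.memb
  rw [Complex.norm_exp] at hGb
  rw [Complex.norm_exp, Real.log_exp]
  set L : ℝ := -w.re with hL
  set S : ℝ := Real.exp w.re with hS
  have hS0 : 0 < S := Real.exp_pos _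
  set y : ℂ := G (Complex.exp w) with hy
  set Z : ℝ := ‖mu g τb‖ with hZ
  have hZ0 : 0 < Z := norm_pos_iff.2 hz0
  set I : ℝ := (τb : ℂ).im with hI
  have hI0 : 0 < I := τb.im_pos
  have hI2 : 2 < I := by
    have h1 : 8 * Real.pi * B < 4 * Real.pi * I := lt_of_lt_of_le hTg b1
    have h2 : 2 * B < I := by
      have : 4 * Real.pi * (2 * B) < 4 * Real.pi * I := by linarith
      exact lt_of_mul_lt_mul_left this (by positivity)
    linarith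
  have hC1 : (1 : ℝ) ≤ |(g 1 0 : ℝ)| := by
    have h1 : 1 ≤ |g 1 0| := Int.one_le_abs hg
    exact_mod_cast h1
  set c : ℝ := |(g 1 0 : ℝ)| with hc
  have hyB : ‖y‖ ≤ B * S := hGb.2
  have hy0 : 0 ≤ ‖y‖ := norm_nonneg _
  have hZy : Z * ‖y‖ ≤ B * (Z * S) := by
    calc Z * ‖y‖ ≤ Z * (B * S) := mul_le_mul_of_nonneg_left hyB hZ0.le
      _ = B * (Z * S) := by ring
  have hCZy : 48 * C₀ * (Z * ‖y‖) ≤ 1 := by
    calc 48 * C₀ * (Z * ‖y‖) ≤ 48 * C₀ * (B * (Z * S)) :=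
          mul_le_mul_of_nonneg_left hZy (by positivity)
      _ = 48 * C₀ * B * (Z * S) := by ring
      _ ≤ 1 := hs
  -- the imaginary part of `ρ`
  have hzim : (mu g τb).im = (g 1 0 : ℝ) * I := by
    unfold mu
    simp [hI]
  have hρz : ‖ρ - mu g τb‖ ≤ 1 / 4 := by
    have e1 : ρ - mu g τb = mu g τb * (h - 1) := by rw [hT.ρe]; ring
    rw [e1, norm_mul]
    calc Z * ‖h - 1‖ ≤ Z * (C₀ * ‖y‖) := mul_le_mul_of_nonneg_left hT.rt.a1 hZ0.le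
      _ = C₀ * (Z * ‖y‖) := by ring
      _ ≤ 1 / 4 := by linarith
  have him : |ρ.im - (g 1 0 : ℝ) * I| ≤ 1 / 4 := by
    rw [← hzim, ← Complex.sub_im]
    exact (Complex.abs_im_le_norm _).trans hρz
  have hcI : |(g 1 0 : ℝ) * I| = c * I := by rw [abs_mul, abs_of_pos hI0]
  have hcI2 : 2 ≤ c * I := by nlinarith
  have him1 : c * I / 2 ≤ |ρ.im| := by
    have h1 : |(g 1 0 : ℝ) * I| ≤ |ρ.im| + |ρ.im - (g 1 0 : ℝ) * I| := by
      have := abs_sub ρ.im (ρ.im - (g 1 0 : ℝ) * I)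
      rwa [sub_sub_cancel] at this
    rw [hcI] at h1
    linarith
  have him2 : |ρ.im| ≤ 2 * (c * I) := by
    have h1 : |ρ.im| ≤ |ρ.im - (g 1 0 : ℝ) * I| + |(g 1 0 : ℝ) * I| := by
      have := abs_add_le (ρ.im - (g 1 0 : ℝ) * I) ((g 1 0 : ℝ) * I)
      rwa [sub_add_cancel] at this
    rw [hcI] at h1
    linarith
  have him3 : 1 ≤ |ρ.im| := by linarith
  have him0 : ρ.im ≠ 0 := by
    intro h0
    rw [h0, abs_zero] at him3
    linarith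
  -- `θ` is real
  have hθim : θ.im = 0 := by
    have e1 : θ = g 1 0 * (q : ℂ) := sub_eq_zero.1 hx
    rw [e1]
    simp
  have hnsq : Complex.normSq ρ ≠ 0 := fun h0 => hT.ρ0 (Complex.normSq_eq_zero.1 h0)
  obtain ⟨dt, hdt⟩ : ∃ d : ℤ, g.det = d := ⟨_, rfl⟩
  have hθe := hT.θe
  have hid := hT.id
  rw [hdt] at hθe hid
  have hmN : (m : ℝ) * Complex.normSq ρ = l * dt := by
    have e1 := congrArg Complex.im hθe
    rw [hθim] at e1
    simp only [Complex.sub_im, Complex.add_im, Complex.mul_im, Complex.div_im, Complex.mul_re,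
      Complex.natCast_re, Complex.natCast_im, Complex.intCast_re, Complex.intCast_im, zero_mul,
      mul_zero, sub_zero, add_zero, zero_div, zero_sub] at e1
    have e2 : (m : ℝ) * ρ.im * Complex.normSq ρ - l * dt * ρ.im = 0 := by
      have e3 : (m : ℝ) * ρ.im + -((l : ℝ) * dt * ρ.im / Complex.normSq ρ) = 0 := by linarith
      field_simp at e3
      linarith
    have e4 : ρ.im * ((m : ℝ) * Complex.normSq ρ - l * dt) = 0 := by linarith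
    rcases mul_eq_zero.1 e4 with h5 | h5
    · exact absurd h5 him0
    · linarith
  have hconj : (l : ℂ) * (dt : ℂ) / ρ = m * (starRingEnd ℂ) ρ := by
    rw [div_eq_iff hT.ρ0, mul_assoc, mul_comm ((starRingEnd ℂ) ρ) ρ, Complex.mul_conj]
    have : ((l : ℂ) * (dt : ℂ)) = (((l : ℝ) * dt : ℝ) : ℂ) := by push_cast; ring
    rw [this, ← hmN]
    push_cast
    ring
  set E : ℂ := m * (ρ * (h⁻¹ - 1 + y / 12) + (starRingEnd ℂ) ρ * (h - 1 - y / 12)) with hE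
  have hkey : (g 1 0 : ℂ) * Ph m l ψa ψb (Complex.exp w) =
      -((m : ℂ) / 12 * (ρ - (starRingEnd ℂ) ρ) * y) + E := by
    rw [hq, hx, hconj] at hid
    rw [hE]
    linear_combination -hid
  have hsub : ρ - (starRingEnd ℂ) ρ = (((2 * ρ.im : ℝ)) : ℂ) * Complex.I := by
    rw [Complex.sub_conj]
  have hmain : ‖(m : ℂ) / 12 * (ρ - (starRingEnd ℂ) ρ) * y‖ = m / 6 * (|ρ.im| * ‖y‖) := by
    rw [hsub]
    simp only [norm_mul, norm_div, Complex.norm_natCast, Complex.norm_I, mul_one, Complex.norm_real,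
      Real.norm_eq_abs]
    have : ‖(12 : ℂ)‖ = 12 := by norm_num
    rw [this, abs_of_pos (by norm_num : (0 : ℝ) < 2)]
    ring
  have hρ2 : ‖ρ‖ ≤ 2 * Z := by
    rw [hT.ρe, norm_mul]
    calc Z * ‖h‖ ≤ Z * 2 := mul_le_mul_of_nonneg_left hT.rt.hi hZ0.le
      _ = 2 * Z := by ring
  have hEb : ‖E‖ ≤ m / 12 * (|ρ.im| * ‖y‖) := by
    have e1 : ‖E‖ ≤ m * (‖ρ‖ * (C₀ * ‖y‖ ^ 2) + ‖ρ‖ * (C₀ * ‖y‖ ^ 2)) := by
      rw [hE, norm_mul, Complex.norm_natCast]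
      refine mul_le_mul_of_nonneg_left ((norm_add_le _ _).trans ?_) (by linarith)
      rw [norm_mul, norm_mul, Complex.norm_conj]
      exact add_le_add (mul_le_mul_of_nonneg_left hT.rt.b2 (norm_nonneg _))
        (mul_le_mul_of_nonneg_left hT.rt.a2 (norm_nonneg _))
    have e2 : ‖ρ‖ * (C₀ * ‖y‖ ^ 2) ≤ ‖y‖ / 24 := by
      calc ‖ρ‖ * (C₀ * ‖y‖ ^ 2) ≤ 2 * Z * (C₀ * ‖y‖ ^ 2) :=
            mul_le_mul_of_nonneg_right hρ2 (by positivity)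
        _ = (48 * C₀ * (Z * ‖y‖)) * (‖y‖ / 24) := by ring
        _ ≤ 1 * (‖y‖ / 24) := mul_le_mul_of_nonneg_right hCZy (by positivity)
        _ = ‖y‖ / 24 := one_mul _
    calc ‖E‖ ≤ m * (‖y‖ / 24 + ‖y‖ / 24) :=
          e1.trans (mul_le_mul_of_nonneg_left (add_le_add e2 e2) (by linarith))
      _ = m / 12 * (1 * ‖y‖) := by ring
      _ ≤ m / 12 * (|ρ.im| * ‖y‖) := by
          refine mul_le_mul_of_nonneg_left (mul_le_mul_of_nonneg_right him3 hy0) (by positivity)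
  have hPn : c * ‖Ph m l ψa ψb (Complex.exp w)‖ =
      ‖-((m : ℂ) / 12 * (ρ - (starRingEnd ℂ) ρ) * y) + E‖ := by
    rw [← hkey, norm_mul, Complex.norm_intCast]
  set P : ℝ := ‖Ph m l ψa ψb (Complex.exp w)‖ with hPdef
  have hlo : m / 12 * (|ρ.im| * ‖y‖) ≤ c * P := by
    rw [hPn]
    have e1 := norm_sub_norm_le (-((m : ℂ) / 12 * (ρ - (starRingEnd ℂ) ρ) * y)) (-E)
    rw [sub_neg_eq_add, norm_neg, norm_neg, hmain] at e1
    linarith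
  have hhi : c * P ≤ m / 4 * (|ρ.im| * ‖y‖) := by
    rw [hPn]
    refine (norm_add_le _ _).trans ?_
    rw [norm_neg, hmain]
    linarith
  have hc0 : 0 < c := by linarith
  have hlo2 : m / 24 * (I * ‖y‖) ≤ P := by
    have e1 : m / 12 * (c * I / 2 * ‖y‖) ≤ c * P :=
      le_trans (mul_le_mul_of_nonneg_left (mul_le_mul_of_nonneg_right him1 hy0) (by positivity)) hlo
    have e2 : c * (m / 24 * (I * ‖y‖)) ≤ c * P := by linarith
    exact le_of_mul_le_mul_left e2 hc0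
  have hhi2 : P ≤ m / 2 * (I * ‖y‖) := by
    have e1 : c * P ≤ m / 4 * (2 * (c * I) * ‖y‖) :=
      hhi.trans (mul_le_mul_of_nonneg_left (mul_le_mul_of_nonneg_right him2 hy0) (by positivity))
    have e2 : c * P ≤ c * (m / 2 * (I * ‖y‖)) := by linarith
    exact le_of_mul_le_mul_left e2 hc0
  have hL0 : 0 < L := lt_trans (by positivity) hTg
  have hLI : L / (4 * Real.pi) ≤ I := by
    rw [div_le_iff₀ (by positivity)]
    linarith
  have hIL : I ≤ B * L / Real.pi := by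
    rw [le_div_iff₀ hpi]
    linarith
  have hmB : 0 < (m : ℝ) * B := by positivity
  constructor
  · calc min (1 / (96 * Real.pi)) (2 * Real.pi / (m * B)) * L * ‖y‖
        ≤ 1 / (96 * Real.pi) * L * ‖y‖ :=
          mul_le_mul_of_nonneg_right (mul_le_mul_of_nonneg_right (min_le_left _ _) hL0.le) hy0
      _ = 1 / 24 * (L / (4 * Real.pi) * ‖y‖) := by field_simp; ring
      _ ≤ m / 24 * (I * ‖y‖) := by
          refine mul_le_mul (by linarith) (mul_le_mul_of_nonneg_right hLI hy0) (by positivity)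
            (by positivity)
      _ ≤ P := hlo2
  · have hmin0 : 0 < min (1 / (96 * Real.pi)) (2 * Real.pi / (m * B)) :=
      lt_min (by positivity) (by positivity)
    have e1 : m * B / (2 * Real.pi) ≤ (min (1 / (96 * Real.pi)) (2 * Real.pi / (m * B)))⁻¹ := by
      rw [le_inv_comm₀ (by positivity) hmin0, inv_div]
      exact min_le_right _ _
    calc P ≤ m / 2 * (I * ‖y‖) := hhi2
      _ ≤ m / 2 * (B * L / Real.pi * ‖y‖) :=
          mul_le_mul_of_nonneg_left (mul_le_mul_of_nonneg_right hIL hy0) (by positivity)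
      _ = m * B / (2 * Real.pi) * L * ‖y‖ := by field_simp
      _ ≤ _ := mul_le_mul_of_nonneg_right (mul_le_mul_of_nonneg_right e1 hL0.le) hy0

theorem ar4b {κ : ℂ} (hκ : IsAlgebraic ℚ κ) (hκ0 : κ ≠ 0) {m l : ℕ} {r B : ℝ}
    {ψa ψb G : ℂ → ℂ} (hm : 0 < m) (hl : 0 < l) (hr : 0 < r) (hb : LB m l r ψa ψb G B)
    (da : DifferentiableOn ℂ ψa (ball 0 r)) (db : DifferentiableOn ℂ ψb (ball 0 r))
    (dG : DifferentiableOn ℂ G (ball 0 r)) (hne : ∃ s ∈ ball (0 : ℂ) r, G s ≠ 0)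
    (q : ℚ) (hq : la m l ψa ψb = q) :
    ∃ C : ℕ, 1 ≤ C ∧ ∀ (K : IntermediateField ℚ ℂ) [FiniteDimensional ℚ K] (M : ℝ) (w : ℂ)
      (τa τb : ℍ) (g : Matrix (Fin 2) (Fin 2) ℤ) (Ξ : ℂ), PD κ m l r ψa ψb G K M w τa τb g Ξ →
      g 1 0 ≠ 0 → -w.re ≤ (C * M) ^ C := by
  obtain ⟨C₀, C₁, hC₀, hC₁, hTD⟩ := exists_TD hκ hκ0 hm hl hr hb
  have hB := hb.B1
  have hpi := Real.pi_pos
  have hm1 : (1 : ℝ) ≤ m := by exact_mod_cast hm
  have hc : 0 < min (1 / (96 * Real.pi)) (2 * Real.pi / (m * B)) := by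
    refine lt_min (by positivity) ?_
    have : 0 < (m : ℝ) * B := by positivity
    positivity
  have hPh : DifferentiableOn ℂ (Ph m l ψa ψb) (ball 0 r) := by
    unfold Ph
    exact ((db.const_mul _).sub (da.const_mul _)).sub_const _
  obtain ⟨r₀, hr₀, hr₀r, hno⟩ := no_log hr hPh dG hne hc
  set Bq : ℕ := q.num.natAbs + q.den with hBq
  obtain ⟨C₂, hC₂, hfin⟩ := Ar4b_fin C₁ Bq
  obtain ⟨C₃, hC₃⟩ := exists_nat_ge (C₁ + 48 * C₀ * B)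
  obtain ⟨C₄, hC₄⟩ := exists_nat_ge (-Real.log r₀)
  refine ⟨C₂ + C₃ + C₄ + 1, by omega, fun K _ M w τa τb g Ξ hP hg => ?_⟩
  obtain ⟨K₂, h, ρ, θ, hfd, hT, hdeg, hbd, hsm, hmu⟩ := hTD K M w τa τb g Ξ hP
  have hM := hP.two
  rw [hq] at hsm
  by_cases hx : θ - g 1 0 * (q : ℂ) = 0
  · -- the real case
    by_cases hs : 48 * C₀ * B * (‖mu g τb‖ * Real.exp w.re) ≤ 1
    · have h1 := Ar4b_real hm hl hC₀ hb hP hg hT hq hx hs
      have h2 : ¬ ‖Complex.exp w‖ < r₀ := fun h3 => hno _ (by rw [Complex.norm_exp]; exact Real.exp_pos _) h3 h1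
      rw [not_lt, Complex.norm_exp] at h2
      have h3 : Real.log r₀ ≤ w.re := by
        rw [← Real.log_exp w.re]
        exact Real.log_le_log hr₀ h2
      have h4 : (C₄ : ℝ) * 1 ≤ C₄ * M := mul_le_mul_of_nonneg_left (by linarith) (Nat.cast_nonneg _)
      have h5 : (C₄ : ℝ) * M ≤ ((C₂ + C₃ + C₄ + 1 : ℕ) * M) ^ (C₂ + C₃ + C₄ + 1) :=
        Ar4b_self hM (by omega) (by exact_mod_cast (by omega : C₄ ≤ C₂ + C₃ + C₄ + 1))
      linarith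
    · push Not at hs
      have hX : 48 * C₀ * B ≤ Real.exp (48 * C₀ * B * M) := by
        have h1 := Real.add_one_le_exp (48 * C₀ * B * M)
        have h2 : 48 * C₀ * B * 1 ≤ 48 * C₀ * B * M :=
          mul_le_mul_of_nonneg_left (by linarith) (by positivity)
        linarith
      have h1 : 1 < Real.exp (48 * C₀ * B * M + (C₁ * M + w.re)) := by
        rw [Real.exp_add, Real.exp_add]
        refine lt_of_lt_of_le hs (mul_le_mul hX ?_ (by positivity) (Real.exp_pos _).le)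
        exact mul_le_mul_of_nonneg_right hmu (Real.exp_pos _).le
      have h2 : 0 < 48 * C₀ * B * M + (C₁ * M + w.re) := by
        rwa [← Real.exp_zero, Real.exp_lt_exp] at h1
      have h3 : (C₁ + 48 * C₀ * B) * M ≤ C₃ * M := mul_le_mul_of_nonneg_right hC₃ (by linarith)
      have h5 : (C₃ : ℝ) * M ≤ ((C₂ + C₃ + C₄ + 1 : ℕ) * M) ^ (C₂ + C₃ + C₄ + 1) :=
        Ar4b_self hM (by omega) (by exact_mod_cast (by omega : C₃ ≤ C₂ + C₃ + C₄ + 1))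
      linarith
  · -- Liouville
    have hC₁' : (1 : ℝ) ≤ C₁ := by exact_mod_cast hC₁
    have hX : 2 ≤ (C₁ : ℝ) * M := by nlinarith
    have hXX : (C₁ : ℝ) * M ≤ (C₁ * M) ^ C₁ := le_self_pow₀ (by linarith) (by omega)
    have hsz := (PD.size hm hl hb hP).2.2.2.2.1
    have hexp : ∀ n : ℕ, (n : ℝ) ≤ Real.exp n := fun n => by
      have := Real.add_one_le_exp (n : ℝ)
      linarith
    have hbq : Bd K₂ (Bq : ℝ) (q : ℂ) := by
      refine Bd.ratCast q ?_ ?_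
      · have h1 : |(q.num : ℝ)| = (q.num.natAbs : ℝ) := by rw [Nat.cast_natAbs, Int.cast_abs]
        rw [h1]
        exact le_trans (by exact_mod_cast (Nat.le_add_right _ _)) (hexp Bq)
      · exact le_trans (by exact_mod_cast (Nat.le_add_left _ _)) (hexp Bq)
    have hbC : Bd K₂ ((C₁ * M) ^ C₁) ((-(g 1 0) : ℤ) : ℂ) := by
      refine Bd.intCast _ ?_ (by positivity)
      push_cast
      rw [abs_neg]
      exact (hsz.trans hmu).trans (Real.exp_le_exp.2 hXX)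
    have hbx := hbd.add (hbC.mul hbq)
    have e1 : θ + ((-(g 1 0) : ℤ) : ℂ) * (q : ℂ) = θ - g 1 0 * (q : ℂ) := by push_cast; ring
    rw [e1] at hbx
    have h1 := Bd.lower hdeg (by positivity) hbx hx (algebraMap K₂ ℂ)
    have h2 : (algebraMap K₂ ℂ) ⟨θ - g 1 0 * (q : ℂ), hbx.mem⟩ = θ - g 1 0 * (q : ℂ) := rfl
    rw [h2] at h1
    have h3 := h1.trans hsm
    rw [← Real.exp_add, Real.exp_le_exp] at h3
    have h4 := hfin M hM
    have h5 := Ar4b_mono hM hC₂ (by omega : C₂ ≤ C₂ + C₃ + C₄ + 1)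
    linarith

end Pool.Agent.LGO.PS
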