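import Mathlib
import Pool.Agent.LGO.PS.ArSz
import Pool.Agent.LGO.PA.QInt
import Pool.Agent.LGO.Q.Quad
import Pool.Agent.LGO.U.RFld

/-!
# LGO/PS, archimedean part: the case `C = 0`

PROOF.  `G s = s^e G₁(s)` near `0` with `G₁(0) ≠ 0`, `e ≥ 1` (analytic, not identically `0` on the ball: identity theorem;
`AnalyticAt.exists_eventuallyEq_pow_smul_nonzero_iff`), so there is `r₀ > 0` with `G s ≠ 0` for `0 < ‖s‖ < r₀`.  If `‖s‖ = exp (Re w) ≥ r₀` then
`- Re w ≤ - log r₀`.  Otherwise `x = Ξ - D^12 κ = D^12 κ G(s) ≠ 0`, `D = g 1 1` (`xi` with `g 1 0 = 0`; `D ≠ 0` as `det > 0`; `κ ≠ 0`).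
`κ` is algebraic: `K₀ = ℚ(κ)`, `K₁ = K ⊔ K₀`, `[K₁ : ℚ] ≤ d₀ M` (`IntermediateField.finrank_sup_le`), `Bd K₁ B₀ κ` (`Quad_bd_alg`), `Bd K₁ M Ξ` (`Bd.le`),
`|D| ≤ det ≤ exp M` (`A D = det`), so `Bd K₁ (C M) x` (`Bd.intCast`, `Bd.pow`, `Bd.mul`, `Bd.neg`, `Bd.add`) and `Bd.lower`:
`exp (-(2 d₀ M C M)) ≤ ‖x‖ ≤ exp (12 M) ‖κ‖ B ‖s‖` (`LB.bG`).  Take logarithms; `(C M) ^ C` bounds everything because `M ≥ 2`.
-/

namespace Pool.Agent.LGO.PS

open Polynomial Metric UpperHalfPlane Pool.Agent.Hhelper14.ZP Pool.Agent.LGO Pool.Agent.LGO.AX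

/-- `G` has no small zeros -/
theorem no_zero {r : ℝ} {G : ℂ → ℂ} (hr : 0 < r) (hG : DifferentiableOn ℂ G (ball 0 r))
    (hne : ∃ s ∈ ball (0 : ℂ) r, G s ≠ 0) :
    ∃ r₀ : ℝ, 0 < r₀ ∧ r₀ ≤ r ∧ ∀ s : ℂ, 0 < ‖s‖ → ‖s‖ < r₀ → G s ≠ 0 := by
  have han : AnalyticOnNhd ℂ G (ball 0 r) := hG.analyticOnNhd isOpen_ball
  have h0 : (0 : ℂ) ∈ ball (0 : ℂ) r := mem_ball_self hr
  rcases (han 0 h0).eventually_eq_zero_or_eventually_ne_zero with h | h
  · exfalso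
    obtain ⟨s, hs, hsn⟩ := hne
    exact hsn (han.eqOn_zero_of_preconnected_of_eventuallyEq_zero
      (convex_ball (0 : ℂ) r).isPreconnected h0 h hs)
  · rw [eventually_nhdsWithin_iff, Metric.eventually_nhds_iff] at h
    obtain ⟨ε, hε, h⟩ := h
    refine ⟨min ε r, lt_min hε hr, min_le_right _ _, fun s hs hs' => ?_⟩
    refine h ?_ ?_
    · rw [dist_zero_right]
      exact hs'.trans_le (min_le_left _ _)
    · exact norm_pos_iff.1 hs

theorem c0 {κ : ℂ} (hκ : IsAlgebraic ℚ κ) (hκ0 : κ ≠ 0) {m l : ℕ} {r B : ℝ} {ψa ψb G : ℂ → ℂ}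
    (hr : 0 < r) (hG : DifferentiableOn ℂ G (ball 0 r)) (hne : ∃ s ∈ ball (0 : ℂ) r, G s ≠ 0)
    (hb : LB m l r ψa ψb G B) :
    ∃ C : ℕ, 1 ≤ C ∧ ∀ (K : IntermediateField ℚ ℂ) [FiniteDimensional ℚ K] (M : ℝ) (w : ℂ)
      (τa τb : ℍ) (g : Matrix (Fin 2) (Fin 2) ℤ) (Ξ : ℂ), PD κ m l r ψa ψb G K M w τa τb g Ξ →
      g 1 0 = 0 → -w.re ≤ (C * M) ^ C := by
  obtain ⟨r₀, hr₀, -, hnz⟩ := no_zero hr hG hne
  obtain ⟨B₀, hB₀, hBd⟩ := Quad_bd_alg hκ
  have hκi : IsIntegral ℚ κ := hκ.isIntegral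
  set F : IntermediateField ℚ ℂ := IntermediateField.adjoin ℚ {κ} with hF
  have hFd : FiniteDimensional ℚ F := IntermediateField.adjoin.finiteDimensional hκi
  have hκF : κ ∈ F := IntermediateField.mem_adjoin_simple_self ℚ κ
  set d : ℝ := (Module.finrank ℚ F : ℝ) with hd
  have hd0 : 0 ≤ d := Nat.cast_nonneg _
  set E : ℝ := 14 + |Real.log r₀| + |Real.log (‖κ‖ * B)| + 2 * d * (14 + B₀) with hE
  obtain ⟨C, hC⟩ := exists_nat_ge E
  have hB1 := hb.B1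
  have hκp : 0 < ‖κ‖ := norm_pos_iff.2 hκ0
  have hE14 : 14 ≤ E := by
    have h1 := abs_nonneg (Real.log r₀)
    have h2 := abs_nonneg (Real.log (‖κ‖ * B))
    have h3 : 0 ≤ 2 * d * (14 + B₀) := by positivity
    linarith
  have hC14 : (14 : ℝ) ≤ C := hE14.trans hC
  have hC2 : 2 ≤ C := by
    have : (2 : ℝ) ≤ C := by linarith
    exact_mod_cast this
  refine ⟨C, by omega, fun K hK M w τa τb g Ξ h hg => ?_⟩
  have hM := h.two
  have hM2 : M ≤ M ^ 2 := by nlinarith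
  have hM1 : 1 ≤ M ^ 2 := by nlinarith
  -- the right side dominates `E M ^ 2`
  have hbig : E * M ^ 2 ≤ (C * M) ^ C := by
    have h1 : (1 : ℝ) ≤ C * M := by nlinarith
    calc E * M ^ 2 ≤ (C : ℝ) * M ^ 2 := mul_le_mul_of_nonneg_right hC (by positivity)
      _ ≤ (C : ℝ) ^ 2 * M ^ 2 := mul_le_mul_of_nonneg_right (by nlinarith) (by positivity)
      _ = (C * M) ^ 2 := by ring
      _ ≤ (C * M) ^ C := pow_le_pow_right₀ h1 hC2
  refine le_trans ?_ hbig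
  have hs := h.memb
  have hsn : ‖Complex.exp w‖ = Real.exp w.re := Complex.norm_exp w
  have hspos : 0 < ‖Complex.exp w‖ := by
    rw [hsn]
    exact Real.exp_pos _
  by_cases hcase : r₀ ≤ ‖Complex.exp w‖
  · -- far from the cusp
    rw [hsn] at hcase
    have h1 : Real.log r₀ ≤ w.re := (Real.log_le_iff_le_exp hr₀).2 hcase
    have h2 : -Real.log r₀ ≤ |Real.log r₀| := neg_le_abs _
    have h3 : |Real.log r₀| ≤ E := by
      have h2 := abs_nonneg (Real.log (‖κ‖ * B))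
      have h3 : 0 ≤ 2 * d * (14 + B₀) := by positivity
      linarith
    have h4 : E ≤ E * M ^ 2 := by nlinarith
    linarith
  · push Not at hcase
    have hGs : G (Complex.exp w) ≠ 0 := hnz _ hspos hcase
    -- the entries
    have hdet : g 0 0 * g 1 1 = g.det := by
      rw [Matrix.det_fin_two, hg]
      ring
    have hdpos := h.det
    have hA0 : g 0 0 ≠ 0 := by
      intro e
      rw [e, zero_mul] at hdet
      omega
    have hD0 : g 1 1 ≠ 0 := by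
      intro e
      rw [e, mul_zero] at hdet
      omega
    have hDabs : |g 1 1| ≤ g.det := by
      rw [← abs_of_pos hdpos, ← hdet, abs_mul]
      exact le_mul_of_one_le_left (abs_nonneg _) (Int.one_le_abs hA0)
    have hDM : |(g 1 1 : ℝ)| ≤ Real.exp M := by
      refine le_trans ?_ h.detM
      exact_mod_cast hDabs
    have hDC : (g 1 1 : ℂ) ≠ 0 := by exact_mod_cast hD0
    -- the number
    have hx : Ξ + -((g 1 1 : ℂ) ^ 12 * κ) = (g 1 1 : ℂ) ^ 12 * κ * G (Complex.exp w) := by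
      rw [h.xi, hg]
      push_cast
      ring
    have hx0 : Ξ + -((g 1 1 : ℂ) ^ 12 * κ) ≠ 0 := by
      rw [hx]
      exact mul_ne_zero (mul_ne_zero (pow_ne_zero _ hDC) hκ0) hGs
    -- the field
    have hKL : K ≤ K ⊔ F := le_sup_left
    have hFL : F ≤ K ⊔ F := le_sup_right
    have hfd : FiniteDimensional ℚ (K ⊔ F : IntermediateField ℚ ℂ) :=
      IntermediateField.finiteDimensional_sup K F
    have hfr : (Module.finrank ℚ (K ⊔ F : IntermediateField ℚ ℂ) : ℝ) ≤ M * d := by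
      have h1 := IntermediateField.finrank_sup_le K F
      have h2 : (Module.finrank ℚ (K ⊔ F : IntermediateField ℚ ℂ) : ℝ) ≤
          (Module.finrank ℚ K : ℝ) * Module.finrank ℚ F := by exact_mod_cast h1
      exact h2.trans (mul_le_mul_of_nonneg_right h.fin hd0)
    have hb1 : Bd (K ⊔ F) M Ξ := h.bd.le hKL
    have hb2 : Bd (K ⊔ F) M (g 1 1 : ℂ) := Bd.intCast (g 1 1) hDM (by linarith)
    have hb3 : Bd (K ⊔ F) B₀ κ := hBd _ (hFL hκF)
    have hb4 := hb1.add ((hb2.pow 12).mul hb3).neg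
    have hh : (0 : ℝ) ≤ M + ((12 : ℕ) * M + B₀) + 1 := by
      push_cast
      linarith
    have hlow := Bd.lower hfr hh hb4 hx0 (algebraMap (K ⊔ F : IntermediateField ℚ ℂ) ℂ)
    have hlow2 : Real.exp (-(2 * (M * d) * (M + ((12 : ℕ) * M + B₀) + 1))) ≤
        ‖Ξ + -((g 1 1 : ℂ) ^ 12 * κ)‖ := hlow
    have hup : ‖Ξ + -((g 1 1 : ℂ) ^ 12 * κ)‖ ≤
        Real.exp (12 * M) * ((‖κ‖ * B) * Real.exp w.re) := by
      rw [hx, norm_mul, norm_mul, norm_pow]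
      have h1 : ‖(g 1 1 : ℂ)‖ ≤ Real.exp M := by
        rw [Complex.norm_intCast]
        exact hDM
      have h2 : ‖(g 1 1 : ℂ)‖ ^ 12 ≤ Real.exp (12 * M) := by
        calc ‖(g 1 1 : ℂ)‖ ^ 12 ≤ Real.exp M ^ 12 := pow_le_pow_left₀ (norm_nonneg _) h1 12
          _ = Real.exp (12 * M) := by
            rw [← Real.exp_nat_mul]
            norm_num
      have h3 := (hb.bG _ hs).2
      rw [hsn] at h3
      calc ‖(g 1 1 : ℂ)‖ ^ 12 * ‖κ‖ * ‖G (Complex.exp w)‖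
          ≤ Real.exp (12 * M) * ‖κ‖ * (B * Real.exp w.re) := by
            gcongr
        _ = _ := by ring
    have hκB : 0 < ‖κ‖ * B := by positivity
    have hlog : -(2 * (M * d) * (M + ((12 : ℕ) * M + B₀) + 1)) ≤
        12 * M + (Real.log (‖κ‖ * B) + w.re) := by
      have h1 := hlow2.trans hup
      rw [← Real.exp_log hκB, ← Real.exp_add, ← Real.exp_add] at h1
      exact Real.exp_le_exp.1 h1
    push_cast at hlog
    have h5 : Real.log (‖κ‖ * B) ≤ |Real.log (‖κ‖ * B)| := le_abs_self _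
    have h6 : |Real.log (‖κ‖ * B)| ≤ |Real.log (‖κ‖ * B)| * M ^ 2 :=
      le_mul_of_one_le_right (abs_nonneg _) hM1
    have h7 : 0 ≤ |Real.log r₀| * M ^ 2 := by positivity
    have h8 : 2 * (M * d) * (M + (12 * M + B₀) + 1) ≤ 2 * d * (14 + B₀) * M ^ 2 := by
      have h9 : M * (M + (12 * M + B₀) + 1) ≤ (14 + B₀) * M ^ 2 := by nlinarith
      calc 2 * (M * d) * (M + (12 * M + B₀) + 1) = 2 * d * (M * (M + (12 * M + B₀) + 1)) := by ring
        _ ≤ 2 * d * ((14 + B₀) * M ^ 2) := mul_le_mul_of_nonneg_left h9 (by positivity)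
        _ = _ := by ring
    have h10 : E * M ^ 2 = 14 * M ^ 2 + |Real.log r₀| * M ^ 2 +
        |Real.log (‖κ‖ * B)| * M ^ 2 + 2 * d * (14 + B₀) * M ^ 2 := by
      rw [hE]
      ring
    rw [h10]
    nlinarith

end Pool.Agent.LGO.PS
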