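import Mathlib
import Pool.Agent.LGO.PS.ArDefs
import Pool.Agent.LGO.AX.ChL
import Pool.Agent.LGO.U.BCusp
import Pool.Agent.LGO.PA.Exp

/-!
# LGO/PS, archimedean part: one rational function near a pole at infinity

`A(t) / B(t)`, `deg B < deg A`, `e = deg A - deg B`, `s = 1 / t = exp w`.

PROOF.
(1) `X(s) = A(1/s) / B(1/s)` is holomorphic on a punctured disc and `‖X(s)‖ → ∞` for `s → 0` (`P(1/s) = s^(-deg P) P.reverse(s)`:
`Polynomial.eval₂_reverse_mul_pow` or `Polynomial.reverse` lemmas; `P.reverse.eval 0 = P.leadingCoeff`; so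
`X(s) = s^(-e) A.reverse(s) / B.reverse(s)`, `A.reverse(s)`, `B.reverse(s) ≠ 0` near `0`).  `AX.lift_inf`: `e'`, `r'`, `ψ` with `0 < Im zz e' ψ w`,
`jF (zz e' ψ w) = X(exp w)`.
(2) `e' = e` and `exp(2 π i ψ(0)) = lc B / lc A`.  `q = exp(2 π i zz e' ψ w) = s^(e') exp(2 π i ψ(s))` (`zz` unfolds), `q → 0` for `s → 0`, and
`j(τ) q → 1` for `q → 0` (`exists_J`: `jInv τ * q = J q` with `J` continuous at `0`, `J 0 = 1`).
So `s^(e' - e) exp(2 π i ψ(s)) A.reverse(s)/B.reverse(s) → 1`: the factor after the power has a nonzero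
limit, so `e' = e`, and the limit is `exp(2 π i ψ(0)) lc A / lc B = 1`.
(3) `Δ(τ) = serDelta q` (`disc_eq` in Hhelper14/ZP/JFun.lean, `Function.Periodic.qParam 1 τ = exp(2 π i τ)`), and `serDelta z = z D₁(z)`,
`D₁` holomorphic and without zeros on the unit disc, `D₁ 0 = 1`.  Put `D(s) = exp(2 π i ψ(s)) D₁(s^e exp(2 π i ψ(s)))`.
Shrink `r` so that `|q| < 1` on the disc.
-/

namespace Pool.Agent.LGO.PS

open Polynomial Metric UpperHalfPlane Pool.Agent.Hhelper14.ZP Pool.Agent.LGO Pool.Agent.LGO.AX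
open Filter Topology

/-- the discriminant divided by `q` -/
theorem ArOne_D : ∃ D : ℂ → ℂ, DifferentiableOn ℂ D (ball 0 1) ∧ D 0 = 1 ∧
    (∀ z : ℂ, ‖z‖ < 1 → D z ≠ 0) ∧
    ∀ τ : ℍ, ModularForm.discriminant τ =
      Function.Periodic.qParam 1 τ * D (Function.Periodic.qParam 1 τ) := by
  obtain ⟨D, hD, hDz⟩ := good_serDelta.div_id (by simp [serDelta, serA_zero, serB_zero])
  have hDτ : ∀ τ : ℍ, ModularForm.discriminant τ = Function.Periodic.qParam 1 τ * D (Function.Periodic.qParam 1 τ) :=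
    fun τ => by rw [Pool.Agent.Hhelper14.ZP.disc_eq, hDz _ (norm_qParam_lt τ)]
  have hq : ∀ τ : ℍ, Function.Periodic.qParam 1 (τ : ℂ) ≠ 0 := fun τ => Function.Periodic.qParam_ne_zero _
  have hD0 : D 0 = 1 := by
    have h1 : Filter.Tendsto (fun τ : ℍ => D (Function.Periodic.qParam 1 τ)) atImInfty (nhds (D 0)) :=
      hD.continuousAt_zero.tendsto.comp (qParam_tendsto_atImInfty one_pos)
    refine tendsto_nhds_unique h1 (ModularForm.tendsto_atImInfty_tprod_one_sub_eta_q_pow.congr fun τ => ?_)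
    have h2 := hDτ τ
    rw [ModularForm.discriminant_eq_q_prod] at h2
    exact mul_left_cancel₀ (hq τ) h2
  have hDne : ∀ z : ℂ, ‖z‖ < 1 → D z ≠ 0 := by
    intro z hz
    rcases eq_or_ne z 0 with rfl | hz0
    · rw [hD0]; exact one_ne_zero
    · obtain ⟨τ, hτ⟩ := exists_qParam hz hz0
      intro h
      apply ModularForm.discriminant_ne_zero τ
      rw [hDτ, hτ, h, mul_zero]
  exact ⟨D, hD.differentiableOn, hD0, hDne, hDτ⟩

theorem ArOne_rev (P : ℂ[X]) {s : ℂ} (hs : s ≠ 0) :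
    P.eval (s⁻¹) * s ^ P.natDegree = P.reverse.eval s := by
  have : Invertible (s⁻¹) := invertibleOfNonzero (inv_ne_zero hs)
  have h := Polynomial.eval₂_reverse_mul_pow (RingHom.id ℂ) (s⁻¹) P
  have h1 : ⅟(s⁻¹) = s := by rw [invOf_eq_inv, inv_inv]
  rw [h1] at h
  simp only [Polynomial.eval₂_id] at h
  rw [← h, mul_assoc, ← mul_pow, inv_mul_cancel₀ hs, one_pow, mul_one]

theorem ArOne_rev0 (P : ℂ[X]) : P.reverse.eval 0 = P.leadingCoeff := by
  rw [← Polynomial.coeff_zero_eq_eval_zero, Polynomial.coeff_zero_reverse]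

/-- the parameter `q` of a lift -/
theorem ArOne_q {e : ℕ} {ψ : ℂ → ℂ} {w : ℂ} {τ : ℍ} (h : (τ : ℂ) = zz e ψ w) :
    Function.Periodic.qParam 1 (τ : ℂ) =
      Complex.exp w ^ e * Complex.exp (2 * Real.pi * Complex.I * ψ (Complex.exp w)) := by
  rw [h, Function.Periodic.qParam, zz, ← Complex.exp_nat_mul, ← Complex.exp_add]
  congr 1
  have := Complex.I_ne_zero
  have h2 : (Real.pi : ℂ) ≠ 0 := by exact_mod_cast Real.pi_ne_zero
  push_cast
  field_simp

theorem ArOne_inf {RA RB : ℂ → ℂ} {e : ℕ} (he : 0 < e) (hA : ContinuousAt RA 0)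
    (hB : ContinuousAt RB 0) (hA0 : RA 0 ≠ 0) (hB0 : RB 0 ≠ 0) :
    Tendsto (fun s => ‖RA s / (RB s * s ^ e)‖) (𝓝[≠] 0) atTop := by
  have hY : Tendsto (fun s => ‖RB s * s ^ e / RA s‖) (𝓝[≠] 0) (𝓝 0) := by
    have h1 : ContinuousAt (fun s => ‖RB s * s ^ e / RA s‖) 0 :=
      ((hB.mul (continuousAt_id.pow e)).div hA hA0).norm
    have h2 := h1.tendsto
    simp only [zero_pow he.ne', mul_zero, zero_div, norm_zero] at h2
    exact h2.mono_left nhdsWithin_le_nhds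
  have hY2 : Tendsto (fun s => ‖RB s * s ^ e / RA s‖) (𝓝[≠] 0) (𝓝[>] 0) := by
    refine tendsto_nhdsWithin_iff.2 ⟨hY, ?_⟩
    have h1 : ∀ᶠ s in 𝓝[≠] (0 : ℂ), RA s ≠ 0 :=
      nhdsWithin_le_nhds (hA.eventually_ne hA0)
    have h2 : ∀ᶠ s in 𝓝[≠] (0 : ℂ), RB s ≠ 0 :=
      nhdsWithin_le_nhds (hB.eventually_ne hB0)
    filter_upwards [h1, h2, self_mem_nhdsWithin] with s h1 h2 h3
    have h3' : s ≠ 0 := h3
    exact norm_pos_iff.2 (div_ne_zero (mul_ne_zero h2 (pow_ne_zero _ h3')) h1)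
  refine (tendsto_inv_nhdsGT_zero.comp hY2).congr fun s => ?_
  rw [Function.comp_apply, ← norm_inv, inv_div]

/-- the order of a lift and its leading coefficient -/
theorem ArOne_ord {g q J : ℂ → ℂ} {e e' : ℕ} (hg : ContinuousAt g 0) (hg0 : g 0 ≠ 0)
    (hq : ContinuousAt q 0) (hq0 : q 0 = 0) (hJ : ContinuousAt J 0) (hJ0 : J 0 = 1)
    (h : ∀ᶠ s in 𝓝[≠] (0 : ℂ), s ^ e' * g s = s ^ e * J (q s)) : e' = e ∧ g 0 = 1 := by
  have hg' : Tendsto g (𝓝[≠] 0) (𝓝 (g 0)) := hg.tendsto.mono_left nhdsWithin_le_nhds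
  have hJ' : Tendsto (fun s => J (q s)) (𝓝[≠] 0) (𝓝 1) := by
    have h1 : ContinuousAt (fun s => J (q s)) 0 := by
      have h2 : ContinuousAt J (q 0) := by rw [hq0]; exact hJ
      exact h2.comp hq
    have h3 := h1.tendsto
    simp only [hq0, hJ0] at h3
    exact h3.mono_left nhdsWithin_le_nhds
  have hpow : ∀ n : ℕ, 0 < n → Tendsto (fun s : ℂ => s ^ n) (𝓝[≠] 0) (𝓝 0) := by
    intro n hn
    have h1 : ContinuousAt (fun s : ℂ => s ^ n) 0 := continuousAt_id.pow n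
    have h2 := h1.tendsto
    simp only [zero_pow hn.ne'] at h2
    exact h2.mono_left nhdsWithin_le_nhds
  rcases lt_trichotomy e' e with hlt | heq | hgt
  · exfalso
    obtain ⟨k, rfl⟩ := Nat.exists_eq_add_of_lt hlt
    have h1 : g =ᶠ[𝓝[≠] 0] fun s => s ^ (k + 1) * J (q s) := by
      filter_upwards [h, self_mem_nhdsWithin] with s hs hs0
      have hs0' : s ≠ 0 := hs0
      have h2 : s ^ e' * g s = s ^ e' * (s ^ (k + 1) * J (q s)) := by
        rw [hs]; ring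
      exact mul_left_cancel₀ (pow_ne_zero _ hs0') h2
    have h3 := ((hpow (k + 1) (Nat.succ_pos _)).mul hJ').congr' h1.symm
    rw [zero_mul] at h3
    exact hg0 (tendsto_nhds_unique hg' h3)
  · subst heq
    refine ⟨rfl, ?_⟩
    have h1 : g =ᶠ[𝓝[≠] 0] fun s => J (q s) := by
      filter_upwards [h, self_mem_nhdsWithin] with s hs hs0
      have hs0' : s ≠ 0 := hs0
      exact mul_left_cancel₀ (pow_ne_zero _ hs0') hs
    exact tendsto_nhds_unique hg' (hJ'.congr' h1.symm)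
  · exfalso
    obtain ⟨k, rfl⟩ := Nat.exists_eq_add_of_lt hgt
    have h1 : (fun s => J (q s)) =ᶠ[𝓝[≠] 0] fun s => s ^ (k + 1) * g s := by
      filter_upwards [h, self_mem_nhdsWithin] with s hs hs0
      have hs0' : s ≠ 0 := hs0
      have h2 : s ^ e * J (q s) = s ^ e * (s ^ (k + 1) * g s) := by
        rw [← hs]; ring
      exact mul_left_cancel₀ (pow_ne_zero _ hs0') h2
    have h3 := ((hpow (k + 1) (Nat.succ_pos _)).mul hg').congr' h1.symm
    rw [zero_mul] at h3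
    exact one_ne_zero (tendsto_nhds_unique hJ' h3)

theorem one_loc {A B : ℂ[X]} (hB : B ≠ 0) (h : B.natDegree < A.natDegree) :
    ∃ (r : ℝ) (ψ D : ℂ → ℂ), 0 < r ∧ DifferentiableOn ℂ ψ (ball 0 r) ∧
      DifferentiableOn ℂ D (ball 0 r) ∧ (∀ s ∈ ball (0 : ℂ) r, D s ≠ 0) ∧
      D 0 = B.leadingCoeff / A.leadingCoeff ∧
      Complex.exp (2 * Real.pi * Complex.I * ψ 0) = B.leadingCoeff / A.leadingCoeff ∧
      ∀ w : ℂ, Real.exp w.re < r → B.eval (Complex.exp (-w)) ≠ 0 ∧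
        0 < (zz (A.natDegree - B.natDegree) ψ w).im ∧
        jF (zz (A.natDegree - B.natDegree) ψ w) =
          A.eval (Complex.exp (-w)) / B.eval (Complex.exp (-w)) ∧
        ∀ τ : ℍ, (τ : ℂ) = zz (A.natDegree - B.natDegree) ψ w →
          ModularForm.discriminant τ =
            Complex.exp w ^ (A.natDegree - B.natDegree) * D (Complex.exp w) := by
  have hA : A ≠ 0 := by
    rintro rfl
    simp at h
  obtain ⟨e, he, hdeg⟩ : ∃ e : ℕ, 0 < e ∧ A.natDegree = B.natDegree + e :=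
    ⟨A.natDegree - B.natDegree, by omega, by omega⟩
  have hsub : A.natDegree - B.natDegree = e := by omega
  rw [hsub]
  have hlA : A.leadingCoeff ≠ 0 := Polynomial.leadingCoeff_ne_zero.2 hA
  have hlB : B.leadingCoeff ≠ 0 := Polynomial.leadingCoeff_ne_zero.2 hB
  obtain ⟨RA, hRA⟩ : ∃ RA : ℂ → ℂ, RA = fun s => A.reverse.eval s := ⟨_, rfl⟩
  obtain ⟨RB, hRB⟩ : ∃ RB : ℂ → ℂ, RB = fun s => B.reverse.eval s := ⟨_, rfl⟩
  have hRAd : Differentiable ℂ RA := by rw [hRA]; exact A.reverse.differentiable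
  have hRBd : Differentiable ℂ RB := by rw [hRB]; exact B.reverse.differentiable
  have hRA0 : RA 0 = A.leadingCoeff := by rw [hRA]; exact ArOne_rev0 A
  have hRB0 : RB 0 = B.leadingCoeff := by rw [hRB]; exact ArOne_rev0 B
  have hRA0' : RA 0 ≠ 0 := by rw [hRA0]; exact hlA
  have hRB0' : RB 0 ≠ 0 := by rw [hRB0]; exact hlB
  obtain ⟨r₀, hr₀, hball⟩ : ∃ r₀ > 0, ∀ s ∈ ball (0 : ℂ) r₀, RB s ≠ 0 := by
    have h1 : ∀ᶠ s in 𝓝 (0 : ℂ), RB s ≠ 0 :=
      (hRBd.continuous.continuousAt).eventually_ne hRB0'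
    exact Metric.eventually_nhds_iff_ball.1 h1
  have hX : DifferentiableOn ℂ (fun s => RA s / (RB s * s ^ e)) {t | 0 < ‖t‖ ∧ ‖t‖ < r₀} := by
    intro t ht
    have ht0 : t ≠ 0 := norm_pos_iff.1 ht.1
    have htB : RB t ≠ 0 := hball t (mem_ball_zero_iff.2 ht.2)
    exact ((hRAd t).div ((hRBd t).mul (differentiableAt_id.pow e))
      (mul_ne_zero htB (pow_ne_zero _ ht0))).differentiableWithinAt
  obtain ⟨e', r', ψ, he', hr', hr'r, hψ, hlift⟩ := lift_inf hr₀ hX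
    (ArOne_inf he hRAd.continuous.continuousAt hRBd.continuous.continuousAt hRA0' hRB0')
  obtain ⟨J, hJ, hJ0, hJτ⟩ := exists_J
  obtain ⟨E, hE⟩ : ∃ E : ℂ → ℂ, E = fun s => Complex.exp (2 * Real.pi * Complex.I * ψ s) :=
    ⟨_, rfl⟩
  have hEd : DifferentiableOn ℂ E (ball 0 r') := by
    rw [hE]
    exact (hψ.const_mul _).cexp
  have hEc : ContinuousAt E 0 :=
    (hEd.differentiableAt (ball_mem_nhds 0 hr')).continuousAt
  have hE0 : E 0 ≠ 0 := by rw [hE]; exact Complex.exp_ne_zero _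
  have hEne : ∀ s, E s ≠ 0 := fun s => by rw [hE]; exact Complex.exp_ne_zero _
  have hqτ : ∀ (w : ℂ) (τ : ℍ) (m : ℕ), (τ : ℂ) = zz m ψ w →
      Function.Periodic.qParam 1 (τ : ℂ) = Complex.exp w ^ m * E (Complex.exp w) := by
    intro w τ m hτ
    rw [hE]
    exact ArOne_q hτ
  have hord := ArOne_ord (g := fun s => E s * RA s / RB s) (q := fun s => s ^ e' * E s) (J := J)
    (e := e) (e' := e')
    ((hEc.mul hRAd.continuous.continuousAt).div hRBd.continuous.continuousAt hRB0')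
    (div_ne_zero (mul_ne_zero hE0 hRA0') hRB0')
    ((continuousAt_id.pow e').mul hEc) (by simp [zero_pow he'.ne']) hJ.continuousAt_zero hJ0 (by
      have h1 : ∀ᶠ s in 𝓝[≠] (0 : ℂ), s ∈ ball (0 : ℂ) r' :=
        nhdsWithin_le_nhds (ball_mem_nhds 0 hr')
      filter_upwards [h1, self_mem_nhdsWithin] with s hs hs0
      have hs0' : s ≠ 0 := hs0
      have hew : Complex.exp (Complex.log s) = s := Complex.exp_log hs0'
      have hre : Real.exp (Complex.log s).re < r' := by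
        rw [← Complex.norm_exp, hew]
        exact mem_ball_zero_iff.1 hs
      obtain ⟨him, hj⟩ := hlift _ hre
      obtain ⟨τ, hτ⟩ : ∃ τ : ℍ, (τ : ℂ) = zz e' ψ (Complex.log s) := ⟨⟨_, him⟩, rfl⟩
      have h2 := hJτ τ
      have h3 : jF (zz e' ψ (Complex.log s)) = jInv τ := by
        rw [jF, ← hτ, ofComplex_apply]
      rw [hqτ _ _ _ hτ, ← h3, hj, hew] at h2
      show s ^ e' * (E s * RA s / RB s) = s ^ e * J (s ^ e' * E s)
      rw [← h2]
      have hB' : RB s ≠ 0 := hball s (ball_subset_ball hr'r hs)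
      field_simp)
  obtain ⟨hee, hg0⟩ := hord
  subst hee
  have hE0' : E 0 = B.leadingCoeff / A.leadingCoeff := by
    simp only [hRA0, hRB0] at hg0
    rw [div_eq_one_iff_eq hlB] at hg0
    rw [eq_div_iff hlA]
    exact hg0
  obtain ⟨D₁, hD₁, hD₁0, hD₁ne, hD₁τ⟩ := ArOne_D
  have hqc : ContinuousAt (fun s => s ^ e' * E s) 0 := (continuousAt_id.pow e').mul hEc
  obtain ⟨ρ, hρ, hρball⟩ : ∃ ρ > 0, ∀ s ∈ ball (0 : ℂ) ρ, ‖s ^ e' * E s‖ < 1 := by
    have h1 : ∀ᶠ s in 𝓝 (0 : ℂ), ‖s ^ e' * E s‖ < 1 := by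
      have h2 : ContinuousAt (fun s => ‖s ^ e' * E s‖) 0 := hqc.norm
      refine h2.eventually_lt_const ?_
      simp [zero_pow he'.ne']
    exact Metric.eventually_nhds_iff_ball.1 h1
  have hr1 : min r' ρ ≤ r' := min_le_left _ _
  have hr2 : min r' ρ ≤ ρ := min_le_right _ _
  refine ⟨min r' ρ, ψ, fun s => E s * D₁ (s ^ e' * E s), lt_min hr' hρ,
    hψ.mono (ball_subset_ball hr1), ?_, ?_, ?_, ?_, ?_⟩
  · have h1 : DifferentiableOn ℂ (fun s => s ^ e' * E s) (ball 0 (min r' ρ)) :=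
      ((differentiable_id.pow e').differentiableOn).mul (hEd.mono (ball_subset_ball hr1))
    have h2 : DifferentiableOn ℂ (fun s => D₁ (s ^ e' * E s)) (ball 0 (min r' ρ)) :=
      hD₁.comp h1 (fun s hs => mem_ball_zero_iff.2 (hρball s (ball_subset_ball hr2 hs)))
    exact (hEd.mono (ball_subset_ball hr1)).mul h2
  · intro s hs
    exact mul_ne_zero (hEne s) (hD₁ne _ (hρball s (ball_subset_ball hr2 hs)))
  · show E 0 * D₁ (0 ^ e' * E 0) = _
    rw [zero_pow he'.ne', zero_mul, hD₁0, mul_one, hE0']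
  · rw [← hE0', hE]
  · intro w hw
    have hs0 : Complex.exp w ≠ 0 := Complex.exp_ne_zero w
    have hsn : ‖Complex.exp w‖ < min r' ρ := by rw [Complex.norm_exp]; exact hw
    have hs' : Complex.exp w ∈ ball (0 : ℂ) r' := mem_ball_zero_iff.2 (hsn.trans_le hr1)
    have hB' : RB (Complex.exp w) ≠ 0 := hball _ (ball_subset_ball hr'r hs')
    have hBe : B.eval (Complex.exp (-w)) * Complex.exp w ^ B.natDegree = RB (Complex.exp w) := by
      rw [Complex.exp_neg, hRB]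
      exact ArOne_rev B hs0
    have hAe : A.eval (Complex.exp (-w)) * Complex.exp w ^ A.natDegree = RA (Complex.exp w) := by
      rw [Complex.exp_neg, hRA]
      exact ArOne_rev A hs0
    have hB1 : B.eval (Complex.exp (-w)) ≠ 0 := by
      intro h0
      rw [h0, zero_mul] at hBe
      exact hB' hBe.symm
    obtain ⟨him, hj⟩ := hlift w (hw.trans_le hr1)
    refine ⟨hB1, him, ?_, ?_⟩
    · rw [hj, ← hAe, ← hBe, hdeg, pow_add]
      field_simp
    · intro τ hτ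
      rw [hD₁τ, hqτ _ _ _ hτ]
      ring

end Pool.Agent.LGO.PS
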