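import Mathlib
import Pool.Agent.LGO.PS.ArOne

/-!
# LGO/PS, archimedean part: the local data at infinity

PROOF.  `one_loc` for `(Aa, Ba)` and `(Ab, Bb)`: `ra, ψa, Da`, `rb, ψb, Db`; `m = n - deg Ba`, `l = n - deg Bb`.  With `s = exp w`, `P(exp (-w)) = s^(-deg P) P.reverse(s)`:
`Δ(τ_b) Ba(t) = s^(l + m - n) Db(s) Ba.reverse(s)` and `Δ(τ_a) Bb(t) = s^(m + l - n) Da(s) Bb.reverse(s)` (integer exponents; or multiply both by
`s^n`).  Put `G(s) = (Db(s) Ba.reverse(s)) / (Da(s) Bb.reverse(s)) / κ - 1`, `κ = lc Aa / lc Ab`; `Bb.reverse(s) ≠ 0` near `0`;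
`G(0) = 0` because `Db(0) lc Ba / (Da(0) lc Bb) = (lc Bb / lc Ab) lc Ba / ((lc Ba / lc Aa) lc Bb) = κ`.
`LB`: first `LD` on a disc of radius `r₁`; on the closed disc of radius `r₁ / 2` the functions `ψa`, `ψb` are bounded, and
`‖G s‖ ≤ C ‖s‖`, `‖(m ψb - l ψa)(s) - (..)(0)‖ ≤ C ‖s‖` (e.g. `Complex.dist_le_div_mul_dist_of_mapsTo_ball`, or `dslope`, or the
mean value inequality on the disc of radius `r₁ / 2`).  `B` = the maximum of all constants, of `m`, `l` and `1`;
`r = min (r₁ / 2) (min (exp (-(8 π B))) (1 / (2 B)))`.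
-/

namespace Pool.Agent.LGO.PS

open Polynomial Metric UpperHalfPlane Pool.Agent.Hhelper14.ZP Pool.Agent.LGO Pool.Agent.LGO.AX

variable {Aa Ba Ab Bb : ℂ[X]}

theorem LD.mono {m l : ℕ} {r r' : ℝ} {ψa ψb G : ℂ → ℂ} (h : LD Aa Ba Ab Bb m l r ψa ψb G)
    (h0 : 0 < r') (hr : r' ≤ r) : LD Aa Ba Ab Bb m l r' ψa ψb G where
  m0 := h.m0
  l0 := h.l0
  r0 := h0
  da := h.da.mono (ball_subset_ball hr)
  db := h.db.mono (ball_subset_ball hr)
  dG := h.dG.mono (ball_subset_ball hr)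
  G0 := h.G0
  ne := fun w hw => h.ne w (hw.trans_le hr)
  za := fun w hw => h.za w (hw.trans_le hr)
  zb := fun w hw => h.zb w (hw.trans_le hr)
  cal := fun w τa τb hw => h.cal w τa τb (hw.trans_le hr)
  ea := h.ea
  eb := h.eb

/-- the value at `1 / s` by the reverse polynomial -/
private theorem arloc_rev (P : ℂ[X]) (w : ℂ) :
    P.eval (Complex.exp (-w)) = P.reverse.eval (Complex.exp w) / Complex.exp w ^ P.natDegree := by
  have hx : Complex.exp (-w) ≠ 0 := Complex.exp_ne_zero _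
  let _ : Invertible (Complex.exp (-w)) := invertibleOfNonzero hx
  have h := eval₂_reverse_mul_pow (RingHom.id ℂ) (Complex.exp (-w)) P
  rw [invOf_eq_inv, ← Complex.exp_neg, neg_neg] at h
  rw [← eval₂_id, ← h, Complex.exp_neg, inv_pow, div_eq_mul_inv, eval₂_id]

private theorem arloc_rev_zero (P : ℂ[X]) : P.reverse.eval 0 = P.leadingCoeff := by
  rw [← coeff_zero_eq_eval_zero, coeff_zero_reverse]

theorem exists_LD {n : ℕ} (hAa : Aa.natDegree = n) (hAb : Ab.natDegree = n)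
    (hBa : Ba.natDegree < n) (hBb : Bb.natDegree < n) (ha : Ba ≠ 0) (hb : Bb ≠ 0) :
    ∃ (m l : ℕ) (r : ℝ) (ψa ψb G : ℂ → ℂ), LD Aa Ba Ab Bb m l r ψa ψb G := by
  obtain ⟨ra, ψa, Da, ra0, dψa, dDa, neDa, Da0, ea, hwa⟩ := one_loc ha (by rw [hAa]; exact hBa)
  obtain ⟨rb, ψb, Db, rb0, dψb, dDb, neDb, Db0, eb, hwb⟩ := one_loc hb (by rw [hAb]; exact hBb)
  have lBa : Ba.leadingCoeff ≠ 0 := leadingCoeff_ne_zero.2 ha
  have lBb : Bb.leadingCoeff ≠ 0 := leadingCoeff_ne_zero.2 hb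
  have nAa : Aa ≠ 0 := by
    rintro rfl
    rw [natDegree_zero] at hAa
    omega
  have nAb : Ab ≠ 0 := by
    rintro rfl
    rw [natDegree_zero] at hAb
    omega
  have lAa : Aa.leadingCoeff ≠ 0 := leadingCoeff_ne_zero.2 nAa
  have lAb : Ab.leadingCoeff ≠ 0 := leadingCoeff_ne_zero.2 nAb
  -- a disc on which `Bb.reverse` has no zero
  have hc : ContinuousAt (fun s => Bb.reverse.eval s) (0 : ℂ) := Bb.reverse.continuous.continuousAt
  have hne0 : Bb.reverse.eval 0 ≠ 0 := by rw [arloc_rev_zero]; exact lBb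
  obtain ⟨rc, rc0, hrc⟩ := Metric.eventually_nhds_iff_ball.1 (hc.eventually_ne hne0)
  set κ : ℂ := Aa.leadingCoeff / Ab.leadingCoeff with hκ
  have κ0 : κ ≠ 0 := div_ne_zero lAa lAb
  set r : ℝ := min ra (min rb rc) with hr
  have hra : r ≤ ra := min_le_left _ _
  have hrb : r ≤ rb := (min_le_right _ _).trans (min_le_left _ _)
  have hrc' : r ≤ rc := (min_le_right _ _).trans (min_le_right _ _)
  have r0 : 0 < r := lt_min ra0 (lt_min rb0 rc0)
  refine ⟨n - Ba.natDegree, n - Bb.natDegree, r, ψa, ψb,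
    fun s => (Db s * Ba.reverse.eval s) / (Da s * Bb.reverse.eval s) / κ - 1, ?_⟩
  have hball : ∀ w : ℂ, Real.exp w.re < r → Complex.exp w ∈ ball (0 : ℂ) r := by
    intro w hw
    rw [mem_ball_zero_iff, Complex.norm_exp]
    exact hw
  refine
    { m0 := by omega
      l0 := by omega
      r0 := r0
      da := dψa.mono (ball_subset_ball hra)
      db := dψb.mono (ball_subset_ball hrb)
      dG := ?_
      G0 := ?_
      ne := fun w hw => ⟨(hwa w (hw.trans_le hra)).1, (hwb w (hw.trans_le hrb)).1⟩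
      za := ?_
      zb := ?_
      cal := ?_
      ea := ea
      eb := eb }
  · refine (DifferentiableOn.div_const (DifferentiableOn.div ?_ ?_ ?_) κ).sub_const 1
    · exact (dDb.mono (ball_subset_ball hrb)).mul Ba.reverse.differentiable.differentiableOn
    · exact (dDa.mono (ball_subset_ball hra)).mul Bb.reverse.differentiable.differentiableOn
    · intro s hs
      exact mul_ne_zero (neDa s (ball_subset_ball hra hs)) (hrc s (ball_subset_ball hrc' hs))
  · show (Db 0 * Ba.reverse.eval 0) / (Da 0 * Bb.reverse.eval 0) / κ - 1 = 0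
    rw [arloc_rev_zero, arloc_rev_zero, Da0, Db0, hκ]
    field_simp
    ring
  · intro w hw
    have h := hwa w (hw.trans_le hra)
    rw [hAa] at h
    exact ⟨h.2.1, h.2.2.1⟩
  · intro w hw
    have h := hwb w (hw.trans_le hrb)
    rw [hAb] at h
    exact ⟨h.2.1, h.2.2.1⟩
  · intro w τa τb hw hτa hτb
    have h1 := hwa w (hw.trans_le hra)
    have h2 := hwb w (hw.trans_le hrb)
    rw [hAa] at h1
    rw [hAb] at h2
    have h3 := h1.2.2.2 τa hτa
    have h4 := h2.2.2.2 τb hτb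
    have hs : Complex.exp w ∈ ball (0 : ℂ) r := hball w hw
    have hs0 : Complex.exp w ≠ 0 := Complex.exp_ne_zero w
    have hDa : Da (Complex.exp w) ≠ 0 := neDa _ (ball_subset_ball hra hs)
    have hBr : Bb.reverse.eval (Complex.exp w) ≠ 0 := hrc _ (ball_subset_ball hrc' hs)
    rw [h3, h4, arloc_rev Ba w, arloc_rev Bb w]
    have hpow : Complex.exp w ^ (n - Bb.natDegree) * Complex.exp w ^ Bb.natDegree =
        Complex.exp w ^ (n - Ba.natDegree) * Complex.exp w ^ Ba.natDegree := by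
      rw [← pow_add, ← pow_add]
      congr 1
      omega
    have hG : κ * (1 + ((Db (Complex.exp w) * Ba.reverse.eval (Complex.exp w)) /
        (Da (Complex.exp w) * Bb.reverse.eval (Complex.exp w)) / κ - 1)) =
        (Db (Complex.exp w) * Ba.reverse.eval (Complex.exp w)) /
        (Da (Complex.exp w) * Bb.reverse.eval (Complex.exp w)) := by
      rw [add_sub_cancel, mul_div_cancel₀ _ κ0]
    rw [hG]
    generalize Complex.exp w = s at *
    have hp1 : s ^ Ba.natDegree ≠ 0 := pow_ne_zero _ hs0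
    have hp2 : s ^ Bb.natDegree ≠ 0 := pow_ne_zero _ hs0
    have e1 : s ^ (n - Bb.natDegree) / s ^ Ba.natDegree = s ^ (n - Ba.natDegree) / s ^ Bb.natDegree := by
      rw [div_eq_div_iff hp1 hp2]
      exact hpow
    calc s ^ (n - Bb.natDegree) * Db s * (Ba.reverse.eval s / s ^ Ba.natDegree)
        = (s ^ (n - Bb.natDegree) / s ^ Ba.natDegree) * (Db s * Ba.reverse.eval s) := by ring
      _ = (s ^ (n - Ba.natDegree) / s ^ Bb.natDegree) * (Db s * Ba.reverse.eval s) := by rw [e1]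
      _ = _ := by
        field_simp

/-- a holomorphic function is bounded and Lipschitz at the centre on the half disc -/
private theorem arloc_bd {f : ℂ → ℂ} {r : ℝ} (r0 : 0 < r) (hf : DifferentiableOn ℂ f (ball 0 r)) :
    ∃ C : ℝ, 0 ≤ C ∧ ∀ s ∈ ball (0 : ℂ) (r / 2), ‖f s‖ ≤ C ∧ ‖f s - f 0‖ ≤ C * ‖s‖ := by
  have hsub : closedBall (0 : ℂ) (r / 2) ⊆ ball 0 r := closedBall_subset_ball (by linarith)
  obtain ⟨C, hC⟩ := (isCompact_closedBall (0 : ℂ) (r / 2)).exists_bound_of_continuousOn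
    (hf.continuousOn.mono hsub)
  have hC0 : 0 ≤ C := (norm_nonneg _).trans (hC 0 (mem_closedBall_self (by linarith)))
  refine ⟨C + 2 * C / (r / 2), by positivity, fun s hs => ⟨?_, ?_⟩⟩
  · refine (hC s (ball_subset_closedBall hs)).trans ?_
    have : 0 ≤ 2 * C / (r / 2) := by positivity
    linarith
  · have h := Complex.dist_le_div_mul_dist_of_mapsTo_ball (f := f) (c := 0) (R₁ := r / 2) (R₂ := 2 * C) (z := s)
      (hf.mono (ball_subset_closedBall.trans hsub)) (fun z hz => by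
        rw [mem_closedBall, dist_eq_norm]
        refine (norm_sub_le _ _).trans ?_
        have h1 := hC z (ball_subset_closedBall hz)
        have h2 := hC 0 (mem_closedBall_self (by linarith))
        linarith) hs
    rw [dist_eq_norm, dist_zero_right] at h
    refine h.trans ?_
    have : 0 ≤ C * ‖s‖ := by positivity
    nlinarith [norm_nonneg s]

theorem exists_LB {m l : ℕ} {r : ℝ} {ψa ψb G : ℂ → ℂ} (h : LD Aa Ba Ab Bb m l r ψa ψb G) :
    ∃ r' B : ℝ, 0 < r' ∧ r' ≤ r ∧ LB m l r' ψa ψb G B := by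
  obtain ⟨Ca, Ca0, ha⟩ := arloc_bd h.r0 h.da
  obtain ⟨Cb, Cb0, hb⟩ := arloc_bd h.r0 h.db
  obtain ⟨Cg, Cg0, hg⟩ := arloc_bd h.r0 h.dG
  obtain ⟨Cp, Cp0, hp⟩ := arloc_bd (f := fun s => m * ψb s - l * ψa s) h.r0
    ((h.db.const_mul (m : ℂ)).sub (h.da.const_mul (l : ℂ)))
  set B : ℝ := 1 + m + l + Ca + Cb + Cg + Cp with hB
  have m0 : (0 : ℝ) ≤ m := Nat.cast_nonneg m
  have l0 : (0 : ℝ) ≤ l := Nat.cast_nonneg l
  have B1 : 1 ≤ B := by rw [hB]; linarith
  have hCg : Cg ≤ B := by rw [hB]; linarith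
  set r' : ℝ := min (r / 2) (min (Real.exp (-(8 * Real.pi * B))) (1 / (2 * B))) with hr'
  have h1 : r' ≤ r / 2 := min_le_left _ _
  have h2 : r' ≤ Real.exp (-(8 * Real.pi * B)) := (min_le_right _ _).trans (min_le_left _ _)
  have h3 : r' ≤ 1 / (2 * B) := (min_le_right _ _).trans (min_le_right _ _)
  have hr := h.r0
  have r'0 : 0 < r' := lt_min (by linarith) (lt_min (Real.exp_pos _) (by positivity))
  have hmem : ∀ s ∈ ball (0 : ℂ) r', s ∈ ball (0 : ℂ) (r / 2) := fun s hs => ball_subset_ball h1 hs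
  have hm1 : (m : ℝ) ≤ B := by rw [hB]; linarith
  have hm2 : (l : ℝ) ≤ B := by rw [hB]; linarith
  refine ⟨r', B, r'0, by linarith, ?_⟩
  refine
    { B1 := B1
      rB := h2
      ba := fun s hs => (ha s (hmem s hs)).1.trans (by rw [hB]; linarith)
      bb := fun s hs => (hb s (hmem s hs)).1.trans (by rw [hB]; linarith)
      bG := ?_
      bm := ⟨hm1, hm2⟩
      bΦ := ?_ }
  · intro s hs
    have e1 := (hg s (hmem s hs)).2
    rw [h.G0, sub_zero] at e1
    have e2 : ‖G s‖ ≤ B * ‖s‖ := e1.trans (mul_le_mul_of_nonneg_right hCg (norm_nonneg s))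
    refine ⟨?_, e2⟩
    have e3 : ‖s‖ ≤ 1 / (2 * B) := by
      rw [mem_ball_zero_iff] at hs
      exact hs.le.trans h3
    calc ‖G s‖ ≤ B * ‖s‖ := e2
      _ ≤ B * (1 / (2 * B)) := by gcongr
      _ = 1 / 2 := by field_simp
  · intro s hs
    have e1 := (hp s (hmem s hs)).2
    refine e1.trans ?_
    have : Cp ≤ B := by rw [hB]; linarith
    exact mul_le_mul_of_nonneg_right this (norm_nonneg s)

end Pool.Agent.LGO.PS
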