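import Mathlib
import Pool.Agent.LGO.PS.ArLoc
import Pool.Agent.LGO.PS.ArC0
import Pool.Agent.LGO.PS.Ar4a
import Pool.Agent.LGO.PS.Ar4b

/-!
# LGO/PS, archimedean part: the bound at one embedding

PROOF.  `exists_LD`, `exists_LB`, `LD.mono`: data `LD`, `LB` with the same `r`.  `κ = lc Aa / lc Ab` is algebraic, not `0`.  `hG` gives `G ≠ 0` somewhere on the ball of this
radius.  `c0`, and: `exp (2 π i λ) = (lc Bb / lc Ab) ^ m / (lc Ba / lc Aa) ^ l` (`LD.ea`, `LD.eb`, `la`; `Complex.exp_sub`, `Complex.exp_nat_mul`) is algebraic; if it is not a root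
of unity: `ar4a` with `hE`; if `exp (2 π i λ) ^ k = 1`, `k > 0`: `k λ` is an integer (`Complex.exp_eq_one_iff`), `λ` is rational: `ar4b`.
Let `C` be the maximum of the three constants and of `- log r`, `‖t‖ ≤ 1/r` being trivial.  If `‖t‖ > 1 / r`: `w = - log t` (`Complex.log`): `exp (-w) = t`, `|Im w| ≤ π`, `exp (Re w) = 1 / ‖t‖ < r`.
`τa, τb` = the points `zz m ψa w`, `zz l ψb w` of `ℍ`; `jInv τa = Aa(t) / Ba(t) = u`, `jInv τb = v` (`jF_coe`, `LD.za`, `LD.zb`).  `IsB v u B`, `NCM v`: `h.isog`, `exists_prim_mdeg` (LGO/H/MDeg) for `τb, τa`: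
`g` with `det g = mdeg v u ≤ exp M`, `Prim g`, `Maps g τb τa`; `IsB.maps`: `B Δ(τa) = z ^ 12 Δ(τb)`.  `Ξ Bb(t) = B Ba(t)` and `LD.cal` give
`Ξ Bb(t) Δ(τa) = z ^ 12 Δ(τb) Ba(t) = z ^ 12 κ (1 + G) Δ(τa) Bb(t)`, and `Δ(τa) ≠ 0`, `Bb(t) ≠ 0`.  So `PD`; `‖t‖ = exp (- Re w)`.
-/

namespace Pool.Agent.LGO.PS

open Polynomial Metric UpperHalfPlane Pool.Agent.Hhelper14.ZP Pool.Agent.LGO Pool.Agent.LGO.AX
  Pool.Agent.LGO.U

theorem exp_la {m l : ℕ} {r : ℝ} {Aa Ba Ab Bb : ℂ[X]} {ψa ψb G : ℂ → ℂ}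
    (h : LD Aa Ba Ab Bb m l r ψa ψb G) :
    Complex.exp (2 * Real.pi * Complex.I * la m l ψa ψb) =
      (Bb.leadingCoeff / Ab.leadingCoeff) ^ m / (Ba.leadingCoeff / Aa.leadingCoeff) ^ l := by
  have e : 2 * Real.pi * Complex.I * la m l ψa ψb =
      (m : ℂ) * (2 * Real.pi * Complex.I * ψb 0) - (l : ℂ) * (2 * Real.pi * Complex.I * ψa 0) := by
    unfold la
    ring
  rw [e, Complex.exp_sub, Complex.exp_nat_mul, Complex.exp_nat_mul, h.ea, h.eb]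

theorem pow_bound {C C' : ℕ} (h1 : 1 ≤ C) (hC : C ≤ C') {M : ℝ} (hM : 2 ≤ M) :
    ((C : ℝ) * M) ^ C ≤ ((C' : ℝ) * M) ^ C' := by
  have c1 : (1 : ℝ) ≤ C := by exact_mod_cast h1
  have c2 : (C : ℝ) ≤ C' := by exact_mod_cast hC
  have e1 : (C : ℝ) * M ≤ (C' : ℝ) * M := mul_le_mul_of_nonneg_right c2 (by linarith)
  have e0 : (1 : ℝ) ≤ (C : ℝ) * M := by nlinarith
  calc ((C : ℝ) * M) ^ C ≤ ((C' : ℝ) * M) ^ C := pow_le_pow_left₀ (by linarith) e1 C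
    _ ≤ ((C' : ℝ) * M) ^ C' := pow_le_pow_right₀ (e0.trans e1) hC

/-- the case `g 1 0 ≠ 0` -/
theorem c_ne (hE : ∀ lam : ℂ, IsAlgebraic ℚ (Complex.exp lam) →
      (∀ k : ℕ, 0 < k → Complex.exp lam ^ k ≠ 1) → E6 lam)
    {Aa Ba Ab Bb : ℂ[X]}
    (g1 : IsAlgebraic ℚ Aa.leadingCoeff) (g2 : IsAlgebraic ℚ Ba.leadingCoeff)
    (g3 : IsAlgebraic ℚ Ab.leadingCoeff) (g4 : IsAlgebraic ℚ Bb.leadingCoeff)
    {κ : ℂ} (hκ : IsAlgebraic ℚ κ) (hκ0 : κ ≠ 0) {m l : ℕ} {r B : ℝ} {ψa ψb G : ℂ → ℂ}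
    (h : LD Aa Ba Ab Bb m l r ψa ψb G) (hb : LB m l r ψa ψb G B)
    (hne : ∃ s ∈ ball (0 : ℂ) r, G s ≠ 0) :
    ∃ C : ℕ, 1 ≤ C ∧ ∀ (K : IntermediateField ℚ ℂ) [FiniteDimensional ℚ K] (M : ℝ) (w : ℂ)
      (τa τb : ℍ) (g : Matrix (Fin 2) (Fin 2) ℤ) (Ξ : ℂ), PD κ m l r ψa ψb G K M w τa τb g Ξ →
      g 1 0 ≠ 0 → -w.re ≤ (C * M) ^ C := by
  have halg : IsAlgebraic ℚ (Complex.exp (2 * Real.pi * Complex.I * la m l ψa ψb)) := by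
    rw [exp_la h]
    have k1 : IsAlgebraic ℚ ((Bb.leadingCoeff / Ab.leadingCoeff) ^ m) := by
      rw [div_eq_mul_inv]
      exact (g4.mul g3.inv).pow m
    have k2 : IsAlgebraic ℚ ((Ba.leadingCoeff / Aa.leadingCoeff) ^ l) := by
      rw [div_eq_mul_inv]
      exact (g2.mul g1.inv).pow l
    rw [div_eq_mul_inv]
    exact k1.mul k2.inv
  by_cases hk : ∀ k : ℕ, 0 < k →
      Complex.exp (2 * Real.pi * Complex.I * la m l ψa ψb) ^ k ≠ 1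
  · exact ar4a hκ hκ0 h.m0 h.l0 h.r0 hb (hE _ halg hk)
  · push Not at hk
    obtain ⟨k, hk0, hk1⟩ := hk
    rw [← Complex.exp_nat_mul, Complex.exp_eq_one_iff] at hk1
    obtain ⟨N, hN⟩ := hk1
    have h2 : (2 * Real.pi * Complex.I : ℂ) ≠ 0 := Complex.two_pi_I_ne_zero
    have hk' : (k : ℂ) ≠ 0 := by exact_mod_cast hk0.ne'
    have e : (k : ℂ) * la m l ψa ψb = N := by
      apply mul_left_cancel₀ h2
      linear_combination hN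
    have hq : la m l ψa ψb = (((N : ℚ) / (k : ℚ) : ℚ) : ℂ) := by
      push_cast
      rw [eq_div_iff hk']
      linear_combination e
    exact ar4b hκ hκ0 h.m0 h.l0 h.r0 hb h.da h.db h.dG hne _ hq

/-- the point near infinity -/
theorem exists_PD {Aa Ba Ab Bb : ℂ[X]} {m l : ℕ} {r : ℝ} {ψa ψb G : ℂ → ℂ}
    (h : LD Aa Ba Ab Bb m l r ψa ψb G) (K : IntermediateField ℚ ℂ) [FiniteDimensional ℚ K] (M : ℝ)
    (t u v B Ξ : ℂ) (hM : 2 ≤ M) (hK : (Module.finrank ℚ K : ℝ) ≤ M)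
    (hmd : (mdeg v u : ℝ) ≤ Real.exp M) (hu : Aa.eval t = u * Ba.eval t) (hBa : Ba.eval t ≠ 0)
    (hv : Ab.eval t = v * Bb.eval t) (hBb : Bb.eval t ≠ 0) (hN : NCM v) (hB : IsB v u B)
    (hΞ : Ξ * Bb.eval t = B * Ba.eval t) (hbd : Bd K M Ξ) (ht : 1 / r < ‖t‖) :
    ∃ (w : ℂ) (τa τb : ℍ) (g : Matrix (Fin 2) (Fin 2) ℤ), ‖t‖ = Real.exp (-w.re) ∧
      PD (Aa.leadingCoeff / Ab.leadingCoeff) m l r ψa ψb G K M w τa τb g Ξ := by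
  have hr := h.r0
  have hr1 : 0 < 1 / r := by positivity
  have htn : 0 < ‖t‖ := hr1.trans ht
  have ht0 : t ≠ 0 := norm_pos_iff.mp htn
  have hexp : Complex.exp (-(-Complex.log t)) = t := by
    rw [neg_neg]
    exact Complex.exp_log ht0
  have hre : (-Complex.log t).re = -Real.log ‖t‖ := by
    rw [Complex.neg_re, Complex.log_re]
  have him : |(-Complex.log t).im| ≤ Real.pi := by
    rw [Complex.neg_im, Complex.log_im, abs_neg]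
    exact Complex.abs_arg_le_pi t
  have hw : Real.exp (-Complex.log t).re < r := by
    rw [hre, Real.exp_neg, Real.exp_log htn]
    rw [inv_lt_comm₀ htn hr]
    rwa [one_div] at ht
  have hnt : ‖t‖ = Real.exp (-(-Complex.log t).re) := by
    rw [hre, neg_neg, Real.exp_log htn]
  generalize -Complex.log t = w at hexp him hw hnt
  obtain ⟨ha1, ha2⟩ := h.za w hw
  obtain ⟨hb1, hb2⟩ := h.zb w hw
  rw [hexp] at ha2 hb2
  have hja : jInv (⟨zz m ψa w, ha1⟩ : ℍ) = u := by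
    rw [← jF_coe]
    change jF (zz m ψa w) = u
    rw [ha2, hu, mul_div_cancel_right₀ _ hBa]
  have hjb : jInv (⟨zz l ψb w, hb1⟩ : ℍ) = v := by
    rw [← jF_coe]
    change jF (zz l ψb w) = v
    rw [hb2, hv, mul_div_cancel_right₀ _ hBb]
  have hcal := h.cal w ⟨zz m ψa w, ha1⟩ ⟨zz l ψb w, hb1⟩ hw rfl rfl
  rw [hexp] at hcal
  have his := hB.isog
  rw [← hja, ← hjb] at his
  obtain ⟨g, hgd, hg, hp, hm⟩ := exists_prim_mdeg his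
  rw [hja, hjb] at hgd
  have hmp := hB.maps hN hjb hja hp hg hm
  refine ⟨w, ⟨zz m ψa w, ha1⟩, ⟨zz l ψb w, hb1⟩, g, hnt, ?_⟩
  refine ⟨hw, him, rfl, rfl, hg, ?_, hm, ?_, hbd, hM, hK⟩
  · have e : (g.det : ℝ) = (mdeg v u : ℝ) := by
      rw [hgd]
      norm_cast
    rw [e]
    exact hmd
  · have hd := ModularForm.discriminant_ne_zero (⟨zz m ψa w, ha1⟩ : ℍ)
    apply mul_right_cancel₀ (mul_ne_zero hd hBb)
    linear_combination ModularForm.discriminant (⟨zz m ψa w, ha1⟩ : ℍ) * hΞ + Ba.eval t * hmp +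
      ((g 1 0 : ℂ) * ((⟨zz l ψb w, hb1⟩ : ℍ) : ℂ) + (g 1 1 : ℂ)) ^ 12 * hcal

theorem ar_one (hE : ∀ lam : ℂ, IsAlgebraic ℚ (Complex.exp lam) →
      (∀ k : ℕ, 0 < k → Complex.exp lam ^ k ≠ 1) → E6 lam)
    (Aa Ba Ab Bb : ℂ[X]) (n : ℕ) (hAa : Aa.natDegree = n) (hAb : Ab.natDegree = n)
    (hBa : Ba.natDegree < n) (hBb : Bb.natDegree < n) (ha : Ba ≠ 0) (hb : Bb ≠ 0)
    (g1 : IsAlgebraic ℚ Aa.leadingCoeff) (g2 : IsAlgebraic ℚ Ba.leadingCoeff)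
    (g3 : IsAlgebraic ℚ Ab.leadingCoeff) (g4 : IsAlgebraic ℚ Bb.leadingCoeff)
    (hG : GN Aa Ba Ab Bb) :
    ∃ C : ℕ, 1 ≤ C ∧ ∀ (K : IntermediateField ℚ ℂ) [FiniteDimensional ℚ K] (M : ℝ)
      (t u v B Ξ : ℂ), 2 ≤ M → (Module.finrank ℚ K : ℝ) ≤ M → (mdeg v u : ℝ) ≤ Real.exp M →
      Aa.eval t = u * Ba.eval t → Ba.eval t ≠ 0 → Ab.eval t = v * Bb.eval t → Bb.eval t ≠ 0 →
      NCM v → IsB v u B → Ξ * Bb.eval t = B * Ba.eval t → Bd K M Ξ →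
        ‖t‖ ≤ Real.exp ((C * M) ^ C) := by
  obtain ⟨m, l, r₁, ψa, ψb, G, hLD1⟩ := exists_LD hAa hAb hBa hBb ha hb
  obtain ⟨r, B₀, hr0, hrle, hLB⟩ := exists_LB hLD1
  have hLD := hLD1.mono hr0 hrle
  have hn : 0 < n := by omega
  have hAa0 : Aa.leadingCoeff ≠ 0 := by
    rw [Ne, leadingCoeff_eq_zero]
    rintro rfl
    rw [natDegree_zero] at hAa
    omega
  have hAb0 : Ab.leadingCoeff ≠ 0 := by
    rw [Ne, leadingCoeff_eq_zero]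
    rintro rfl
    rw [natDegree_zero] at hAb
    omega
  have hκ : IsAlgebraic ℚ (Aa.leadingCoeff / Ab.leadingCoeff) := by
    rw [div_eq_mul_inv]
    exact g1.mul g3.inv
  have hκ0 : Aa.leadingCoeff / Ab.leadingCoeff ≠ 0 := div_ne_zero hAa0 hAb0
  have hne := hG m l r ψa ψb G hLD
  obtain ⟨C₁, c11, h1⟩ := c0 hκ hκ0 hr0 hLD.dG hne hLB
  obtain ⟨C₂, c21, h2⟩ := c_ne hE g1 g2 g3 g4 hκ hκ0 hLD hLB hne
  refine ⟨C₁ + C₂ + ⌈-Real.log r⌉₊, by omega, ?_⟩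
  intro K _ M t u v B Ξ hM hK hmd hu hBat hv hBbt hN hB hΞ hbd
  rcases le_or_gt ‖t‖ (1 / r) with ht | ht
  · refine ht.trans ?_
    have e : 1 / r = Real.exp (-Real.log r) := by
      rw [Real.exp_neg, Real.exp_log hr0, one_div]
    rw [e, Real.exp_le_exp]
    have c1 : (1 : ℝ) ≤ ((C₁ + C₂ + ⌈-Real.log r⌉₊ : ℕ) : ℝ) := by
      exact_mod_cast (show 1 ≤ C₁ + C₂ + ⌈-Real.log r⌉₊ by omega)
    have c2 : -Real.log r ≤ ((C₁ + C₂ + ⌈-Real.log r⌉₊ : ℕ) : ℝ) := by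
      refine (Nat.le_ceil _).trans ?_
      exact_mod_cast (show ⌈-Real.log r⌉₊ ≤ C₁ + C₂ + ⌈-Real.log r⌉₊ by omega)
    have c3 : ((C₁ + C₂ + ⌈-Real.log r⌉₊ : ℕ) : ℝ) ≤ ((C₁ + C₂ + ⌈-Real.log r⌉₊ : ℕ) : ℝ) * M := by
      nlinarith
    refine (c2.trans c3).trans (le_self_pow₀ (c1.trans c3) ?_)
    omega
  · obtain ⟨w, τa, τb, g, hnt, hPD⟩ := exists_PD hLD K M t u v B Ξ hM hK hmd hu hBat hv hBbt hN hB
      hΞ hbd ht
    rw [hnt, Real.exp_le_exp]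
    by_cases hg0 : g 1 0 = 0
    · exact (h1 K M w τa τb g Ξ hPD hg0).trans (pow_bound c11 (by omega) hM)
    · exact (h2 K M w τa τb g Ξ hPD hg0).trans (pow_bound c21 (by omega) hM)

end Pool.Agent.LGO.PS
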