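import Mathlib
import Pool.Agent.LGO.PS.ArEnd
import Pool.Agent.LGO.U.RAll

/-!
# LGO/PS, archimedean part: all conjugates

PROOF.  Exactly the proof of `meas_all` (LGO/U/RAll.lean) with `ar_one` in place of `meas_one`: `RAll_conj`, `RAll_natDegree`, `RAll_eval`, `RAll_coeff`, `RAll_alg`,
`RAll_finite`, `RAll_unif`.  `leadingCoeff` of `RAll_conj s P` is `s` of the leading coefficient, so algebraic; it is not `0`.  `hG s` is the hypothesis `GN` for the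
conjugates.
-/

namespace Pool.Agent.LGO.PS

open Polynomial Pool.Agent.Hhelper14.ZPL Pool.Agent.LGO Pool.Agent.LGO.U

private theorem ArAll_ne (s : ℂ ≃+* ℂ) {P : Polynomial Qb} (h : P ≠ 0) : RAll_conj s P ≠ 0 := by
  intro h0
  apply h
  have h1 : Function.Injective (s : ℂ →+* ℂ) := s.injective
  have h2 : Function.Injective (algebraMap Qb ℂ) := (algebraMap Qb ℂ).injective
  rw [RAll_conj, Polynomial.map_eq_zero_iff h1, Polynomial.map_eq_zero_iff h2] at h0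
  exact h0

theorem ar_all (hE : ∀ lam : ℂ, IsAlgebraic ℚ (Complex.exp lam) →
      (∀ k : ℕ, 0 < k → Complex.exp lam ^ k ≠ 1) → E6 lam)
    (Aa Ba Ab Bb : Polynomial Qb) (hAb : Ab.natDegree = Aa.natDegree)
    (hBa : Ba.natDegree < Aa.natDegree) (hBb : Bb.natDegree < Aa.natDegree)
    (ha : Ba ≠ 0) (hb : Bb ≠ 0)
    (hG : ∀ s : ℂ ≃+* ℂ, GN (RAll_conj s Aa) (RAll_conj s Ba) (RAll_conj s Ab) (RAll_conj s Bb)) :
    ∃ C : ℕ, 1 ≤ C ∧ ∀ (K : IntermediateField ℚ ℂ) [FiniteDimensional ℚ K] (M : ℝ)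
      (u v t B : ℂ), 2 ≤ M → (Module.finrank ℚ K : ℝ) ≤ M → (mdeg v u : ℝ) ≤ Real.exp M →
      Par Aa Ba Ab Bb u v t B → Bd K M (Xi Ba Bb 1 1 t B) →
        ∀ s : ℂ ≃+* ℂ, ‖s t‖ ≤ Real.exp ((C * M) ^ C) := by
  set F : Set (ℂ[X] × ℂ[X] × ℂ[X] × ℂ[X]) := Set.range fun s : ℂ ≃+* ℂ =>
    (RAll_conj s Aa, RAll_conj s Ba, RAll_conj s Ab, RAll_conj s Bb) with hFdef
  have hF : F.Finite := by
    refine Set.Finite.subset ((RAll_finite Aa).prod ((RAll_finite Ba).prod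
      ((RAll_finite Ab).prod (RAll_finite Bb)))) ?_
    rintro _ ⟨s, rfl⟩
    exact ⟨⟨s, rfl⟩, ⟨s, rfl⟩, ⟨s, rfl⟩, ⟨s, rfl⟩⟩
  obtain ⟨C, hC, H⟩ := RAll_unif hF (fun (Q : ℂ[X] × ℂ[X] × ℂ[X] × ℂ[X]) (C : ℕ) =>
    ∀ (K : IntermediateField ℚ ℂ) [FiniteDimensional ℚ K] (M : ℝ)
      (t u v B Ξ : ℂ), 2 ≤ M → (Module.finrank ℚ K : ℝ) ≤ M → (mdeg v u : ℝ) ≤ Real.exp M →
      Q.1.eval t = u * Q.2.1.eval t → Q.2.1.eval t ≠ 0 →
      Q.2.2.1.eval t = v * Q.2.2.2.eval t → Q.2.2.2.eval t ≠ 0 →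
      NCM v → IsB v u B → Ξ * Q.2.2.2.eval t = B * Q.2.1.eval t → Bd K M Ξ →
        ‖t‖ ≤ Real.exp ((C * M) ^ C)) (by
      intro Q C C' hC hCC' h K _ M t u v B Ξ hM h1 h2 h3 h4 h5 h6 h7 h8 h9 h10
      refine (h K M t u v B Ξ hM h1 h2 h3 h4 h5 h6 h7 h8 h9 h10).trans (Real.exp_le_exp.2 ?_)
      have hC1 : (1 : ℝ) ≤ C := by exact_mod_cast hC
      have hCC : (C : ℝ) ≤ C' := by exact_mod_cast hCC'
      calc ((C : ℝ) * M) ^ C ≤ ((C' : ℝ) * M) ^ C := by gcongr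
        _ ≤ ((C' : ℝ) * M) ^ C' := pow_le_pow_right₀ (by nlinarith) hCC') (by
      rintro _ ⟨s, rfl⟩
      obtain ⟨C, hC, h⟩ := ar_one hE (RAll_conj s Aa) (RAll_conj s Ba) (RAll_conj s Ab)
        (RAll_conj s Bb) Aa.natDegree (RAll_natDegree s Aa)
        ((RAll_natDegree s Ab).trans hAb) (by rw [RAll_natDegree]; exact hBa)
        (by rw [RAll_natDegree]; exact hBb) (ArAll_ne s ha) (ArAll_ne s hb)
        (RAll_alg s Aa _) (RAll_alg s Ba _) (RAll_alg s Ab _) (RAll_alg s Bb _) (hG s)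
      exact ⟨C, hC, h⟩)
  refine ⟨C, hC, ?_⟩
  intro K _ M u v t B hM hK hN hP hB s
  refine H (RAll_conj s Aa, RAll_conj s Ba, RAll_conj s Ab, RAll_conj s Bb) ⟨s, rfl⟩ (KS s K) M
    (s t) (s u) (s v) (s B) (s (Xi Ba Bb 1 1 t B)) hM ?_ ?_ ?_ ?_ ?_ ?_ (hP.ncm.map s)
    (hP.isB.map hP.ncm s) ?_ (hB.map s)
  · rwa [finrank_KS]
  · rwa [mdeg_map]
  · simp only [RAll_eval]
    rw [hP.eqa, map_mul]
  · simp only [RAll_eval]
    exact (map_ne_zero_iff s s.injective).2 hP.nea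
  · simp only [RAll_eval]
    rw [hP.eqb, map_mul]
  · simp only [RAll_eval]
    exact (map_ne_zero_iff s s.injective).2 hP.neb
  · simp only [RAll_eval]
    rw [← map_mul, ← map_mul]
    congr 1
    rw [Xi, pow_one, pow_one, pow_one]
    have := hP.neb
    field_simp

end Pool.Agent.LGO.PS
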