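import Mathlib
import Pool.Agent.LGO.AXG.DiscR
import Pool.Agent.LGO.AXG.Rat
import Pool.Agent.LGO.PS.ArDefs
import Pool.Agent.LGO.Gal.Basic

/-!
# LGO/PS (note 3101, Theorem S, step (1)): the function `G` is not identically `0`

If `G = 0` then `Δ(τ_b) Ba(t) = κ Δ(τ_a) Bb(t)` near `t = ∞`; this is excluded by `AXG.disc_ne`.
-/

namespace Pool.Agent.LGO.PS

open Polynomial Metric UpperHalfPlane Pool.Agent.Hhelper14.ZP Pool.Agent.LGO Pool.Agent.LGO.AX Pool.Agent.LGO.AXG

/-- no modular relation, for the model of the rational curve -/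
theorem rat_noMod {Aa Ba Ab Bb : ℂ[X]} (h : NoMd Aa Ba Ab Bb) (hB : ∀ a, (![Ba, Bb] : Fin 2 → ℂ[X]) a ≠ 0) :
    (rat (![Aa, Ab] : Fin 2 → ℂ[X]) ![Ba, Bb] hB).NoMod := by
  intro i j hij g hg E hrel
  obtain ⟨t, htE, h1, h2, hn⟩ := h g.det.toNat (by omega) E
  have hp : (t, (0 : ℂ)) ∈ (rat (![Aa, Ab] : Fin 2 → ℂ[X]) ![Ba, Bb] hB).pt := by
    refine (rat_mem _ _ hB _).mpr ⟨?_, rfl⟩
    intro a
    fin_cases a
    · exact h1
    · exact h2
  obtain ⟨z, hz, e1, e2⟩ := hrel _ hp htE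
  have hI : IsogDeg g.det.toNat ((rat (![Aa, Ab] : Fin 2 → ℂ[X]) ![Ba, Bb] hB).x i (t, 0))
      ((rat (![Aa, Ab] : Fin 2 → ℂ[X]) ![Ba, Bb] hB).x j (t, 0)) := by
    refine ⟨⟨z, hz⟩, ⟨mz g z, mz_im_pos hg hz⟩, g, by omega, ?_, ?_, ?_⟩
    · exact div_mul_cancel₀ _ (mz_den_ne hg.ne' hz)
    · rw [e1, ← jF_coe]
    · rw [e2, ← jF_coe]
  rw [rat_x _ _ hB i hp, rat_x _ _ hB j hp] at hI
  have hI' : IsogDeg g.det.toNat (Ab.eval t / Bb.eval t) (Aa.eval t / Ba.eval t) := by
    fin_cases i <;> fin_cases j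
    · exact absurd rfl hij
    · exact hI.symm
    · exact hI
    · exact absurd rfl hij
  exact hn hI'

theorem gn {Aa Ba Ab Bb : ℂ[X]} (ca : IsCoprime Aa Ba) (cb : IsCoprime Ab Bb) (hBa : Ba ≠ 0) (hBb : Bb ≠ 0)
    (na : 0 < max Aa.natDegree Ba.natDegree) (nb : 0 < max Ab.natDegree Bb.natDegree)
    (h : NoMd Aa Ba Ab Bb) : GN Aa Ba Ab Bb := by
  have hlc : ∀ {A B : ℂ[X]}, IsCoprime A B → 0 < max A.natDegree B.natDegree → A.leadingCoeff ≠ 0 := by
    intro A B hc hn hA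
    rw [leadingCoeff_eq_zero] at hA
    subst hA
    have h1 : IsUnit B := isCoprime_zero_left.mp hc
    rw [natDegree_zero, natDegree_eq_zero_of_isUnit h1] at hn
    simp at hn
  intro m l r ψa ψb G hD
  by_contra hcon
  push Not at hcon
  have hB : ∀ a, (![Ba, Bb] : Fin 2 → ℂ[X]) a ≠ 0 := by
    intro a
    fin_cases a
    · exact hBa
    · exact hBb
  set S := rat (![Aa, Ab] : Fin 2 → ℂ[X]) ![Ba, Bb] hB with hS
  have hNC : S.NCo := by
    refine rat_NCo _ _ hB ?_ ?_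
    · intro a
      fin_cases a
      · exact ca
      · exact cb
    · intro a
      fin_cases a
      · exact na
      · exact nb
  have hNM : S.NoMod := rat_noMod h hB
  obtain ⟨At⟩ := exists_atl S
  have hmem : ∀ w : ℂ, Real.exp w.re < r → (Tp none (Complex.exp w ^ 1), (0 : ℂ)) ∈ S.pt := by
    intro w hw
    refine (rat_mem _ _ hB _).mpr ⟨?_, rfl⟩
    have h1 : (Tp none (Complex.exp w ^ 1) : ℂ) = Complex.exp (-w) := by
      rw [pow_one, Complex.exp_neg]
      rfl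
    intro a
    rw [h1]
    fin_cases a
    · exact (hD.ne w hw).1
    · exact (hD.ne w hw).2
  have hmem' : ∀ t : ℂ, 0 < ‖t‖ → ‖t‖ < r → (Tp none (t ^ 1), (0 : ℂ)) ∈ S.pt := by
    intro t ht0 htr
    have ht : t ≠ 0 := norm_pos_iff.mp ht0
    have h1 := hmem (Complex.log t) (by rw [Complex.log_re, Real.exp_log ht0]; exact htr)
    rwa [Complex.exp_log ht] at h1
  have hx : ∀ (a : Fin 2) (w : ℂ), Real.exp w.re < r → S.x a (Tp none (Complex.exp w ^ 1), (0 : ℂ)) =
      ((![Aa, Ab] : Fin 2 → ℂ[X]) a).eval (Complex.exp (-w)) /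
        ((![Ba, Bb] : Fin 2 → ℂ[X]) a).eval (Complex.exp (-w)) := by
    intro a w hw
    have h1 : (Tp none (Complex.exp w ^ 1) : ℂ) = Complex.exp (-w) := by
      rw [pow_one, Complex.exp_neg]
      rfl
    rw [hS, rat_x _ _ hB a (hmem w hw)]
    simp only [h1]
  let β : AXG.Br S :=
    { o := none
      m := 1
      r := r
      Y := fun _ => 0
      e := ![m, l]
      ψ := ![ψa, ψb]
      m_pos := one_pos
      r_pos := hD.r0
      dY := differentiableOn_const 0
      mem := hmem'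
      dψ := by
        intro a
        fin_cases a
        · exact hD.da
        · exact hD.db
      im_pos := by
        intro a w hw
        fin_cases a
        · exact (hD.za w hw).1
        · exact (hD.zb w hw).1
      jz := by
        intro a w hw
        rw [hx a w hw]
        fin_cases a
        · exact (hD.za w hw).2
        · exact (hD.zb w hw).2
      cen := by
        intro a ha
        exfalso
        fin_cases a
        · exact hD.m0.ne' ha
        · exact hD.l0.ne' ha }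
  have hu : Fn S (fun x => Ba.eval x.1) := fn_one Ba fun x hx => ((rat_mem _ _ hB _).mp hx).1 0
  have hv : Fn S (fun x => Aa.leadingCoeff / Ab.leadingCoeff * Bb.eval x.1) :=
    (fn_one Bb fun x hx => ((rat_mem _ _ hB _).mp hx).1 1).smul (div_ne_zero (hlc ca na) (hlc cb nb))
  obtain ⟨w, hw, hw'⟩ := disc_ne hNC hNM At (a := 0) (b := 1) (by decide) (β := β) hD.m0 hu hv
    (p := 1) (q := 1) one_pos
  have hw1 : Real.exp w.re < r := hw
  apply hw'
  have h1 : (β.pt w).1 = Complex.exp (-w) := by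
    change (Tp none (Complex.exp w ^ 1) : ℂ) = _
    rw [pow_one, Complex.exp_neg]
    rfl
  have h2 := hD.cal w ⟨zz m ψa w, (hD.za w hw1).1⟩ ⟨zz l ψb w, (hD.zb w hw1).1⟩ hw1 rfl rfl
  rw [hcon (Complex.exp w) (by rw [mem_ball_zero_iff, Complex.norm_exp]; exact hw1), add_zero, mul_one] at h2
  have h3 : Dl (β.z 0 w) = ModularForm.discriminant ⟨zz m ψa w, (hD.za w hw1).1⟩ := by
    rw [← Dl_coe]
    rfl
  have h4 : Dl (β.z 1 w) = ModularForm.discriminant ⟨zz l ψb w, (hD.zb w hw1).1⟩ := by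
    rw [← Dl_coe]
    rfl
  simp only [pow_one]
  rw [h1, h3, h4, h2]
  ring

end Pool.Agent.LGO.PS
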