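import Mathlib
import Pool.Agent.LGO.PA.LinkB

/-!
# LGO/PS: the number `B` of a pair of isogenous invariants in `ℂ_[p]`, with the exact exponents

As `PA.linkB`, with `‖q'‖ ^ d = ‖q‖ ^ a`, `a d = mdeg x y`.
-/

namespace Pool.Agent.LGO.PS

open Pool.Agent.Hhelper14.ZP Pool.Agent.Hhelper14.ZPL UpperHalfPlane Pool.Agent.LGO
  Pool.Agent.LGO.U Pool.Agent.LGO.PA

variable {p : ℕ} [Fact p.Prime]

theorem linkN (φ : ℂ →+* ℂ_[p]) {x y B : ℂ} (h : IsB x y B)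
    (hx : NCM x) {q : ℂ_[p]} (hq0 : 0 < ‖q‖) (hq : ‖q‖ < 1) (hφ : φ x = jP q) :
    ∃ (a d : ℕ) (q' : ℂ_[p]), 0 < a ∧ 0 < d ∧ a * d = mdeg x y ∧ 0 < ‖q'‖ ∧ ‖q'‖ < 1 ∧
      ‖q'‖ ^ d = ‖q‖ ^ a ∧ φ y = jP q' ∧
      φ B * DP q' = (d : ℂ_[p]) ^ 12 * DP q := by
  obtain ⟨τ, τ', g₀, hτ, hτ', -⟩ := id h
  have h0 := h.isog
  rw [← hτ, ← hτ'] at h0
  obtain ⟨g, hd, hg, hp, hm⟩ := exists_prim_mdeg h0
  rw [hτ, hτ'] at hd
  have h1 := h.maps hx hτ hτ' hp hg hm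
  have hN : 0 < mdeg x y := by
    have h2 : (0 : ℤ) < (mdeg x y : ℤ) := by rw [← hd]; exact hg
    exact_mod_cast h2
  have h2 : τ' = act hN (mkDD g hd) τ := Gal.eq_act_of_maps hN hd hm
  rw [← hτ] at hφ
  obtain ⟨a, d, q', ha, hd0, had, hq'0, hq', hpow, hj, hb⟩ :=
    link hN φ hq0 hq τ hφ (mkDD g hd)
  have hD' : ModularForm.discriminant τ' ≠ 0 := ModularForm.discriminant_ne_zero τ'
  have hB0 : B ≠ 0 := h.ne_zero
  have hbA : bA hN (mkDD g hd) τ = (mdeg x y : ℂ) ^ 12 / B := by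
    have h3 : ((g 1 0 : ℂ) * (τ : ℂ) + (g 1 1 : ℂ)) ^ 12 * ModularForm.discriminant τ =
        B * ModularForm.discriminant τ' := h1.symm
    show (mdeg x y : ℂ) ^ 12 * ModularForm.discriminant (act hN (mkDD g hd) τ) /
      (((g 1 0 : ℂ) * (τ : ℂ) + (g 1 1 : ℂ)) ^ 12 * ModularForm.discriminant τ) = _
    rw [h3, ← h2]
    exact mul_div_mul_right _ _ hD'
  have hjA : jA hN (mkDD g hd) τ = y := by
    rw [jA, ← h2, hτ']
  rw [hjA] at hj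
  refine ⟨a, d, q', ha, hd0, had, hq'0, hq', hpow, hj, ?_⟩
  rw [hbA, map_div₀, map_pow, map_natCast] at hb
  have hφB : φ B ≠ 0 := (map_ne_zero φ).2 hB0
  have hDq : DP q ≠ 0 := DP_ne hq0 hq
  rw [div_eq_div_iff hφB hDq] at hb
  have haC : ((a : ℂ_[p])) ^ 12 ≠ 0 := pow_ne_zero _ (by exact_mod_cast ha.ne')
  have hNad : ((mdeg x y : ℕ) : ℂ_[p]) = (a : ℂ_[p]) * (d : ℂ_[p]) := by
    rw [← had]
    push_cast
    ring
  rw [hNad, mul_pow] at hb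
  apply mul_left_cancel₀ haC
  linear_combination -hb

end Pool.Agent.LGO.PS
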