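import Mathlib
import Pool.Agent.LGO.PA.Ev

/-!
# LGO/PS: formal composition of power series and its evaluation in `ℂ_[p]`

`IsCmp F W H`: `H = F ∘ W`, i.e. `H ≡ ∑_{k < n} F_k W ^ k` modulo `X ^ n` for all `n`.
-/

namespace Pool.Agent.LGO.PS

open PowerSeries Pool.Agent.LGO.PA

/-- `H` is the composition `F ∘ W` -/
def IsCmp {R : Type} [CommRing R] (F W H : R⟦X⟧) : Prop :=
  ∀ n : ℕ, (X : R⟦X⟧) ^ n ∣ H - ∑ k ∈ Finset.range n, C (coeff k F) * W ^ k

/-- compositions exist -/
theorem exists_cmp {R : Type} [CommRing R] (F W : R⟦X⟧) (hW : coeff 0 W = 0) : ∃ H, IsCmp F W H := by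
  have hX : (X : R⟦X⟧) ∣ W := by
    rw [X_dvd_iff, ← coeff_zero_eq_constantCoeff_apply]
    exact hW
  refine ⟨PowerSeries.mk fun n => coeff n (∑ k ∈ Finset.range (n + 1), C (coeff k F) * W ^ k), fun n => ?_⟩
  rw [X_pow_dvd_iff]
  intro m hm
  rw [map_sub, coeff_mk, sub_eq_zero]
  have h1 : Finset.range (m + 1) ⊆ Finset.range n := Finset.range_mono (by omega)
  rw [← Finset.sum_sdiff h1, map_add]
  have h2 : coeff m (∑ k ∈ Finset.range n \ Finset.range (m + 1), C (coeff k F) * W ^ k) = 0 := by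
    rw [map_sum]
    refine Finset.sum_eq_zero fun k hk => ?_
    rw [Finset.mem_sdiff, Finset.mem_range, Finset.mem_range] at hk
    have h3 : (X : R⟦X⟧) ^ k ∣ W ^ k := pow_dvd_pow_of_dvd hX k
    have h4 : (X : R⟦X⟧) ^ k ∣ C (coeff k F) * W ^ k := h3.mul_left _
    rw [X_pow_dvd_iff] at h4
    exact h4 m (by omega)
  rw [h2, zero_add]

/-- the constant coefficient of a composition -/
theorem IsCmp.zero {R : Type} [CommRing R] {F W H : R⟦X⟧} (h : IsCmp F W H) :
    coeff 0 H = coeff 0 F := by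
  have h1 := h 1
  rw [X_pow_dvd_iff] at h1
  have h2 := h1 0 (by norm_num)
  rw [map_sub, Finset.sum_range_one, pow_zero, mul_one, coeff_zero_C, sub_eq_zero] at h2
  exact h2

theorem IsCmp.unique {R : Type} [CommRing R] {F W H H' : R⟦X⟧} (h : IsCmp F W H) (h' : IsCmp F W H') :
    H = H' := by
  ext m
  have h1 := dvd_sub (h (m + 1)) (h' (m + 1))
  rw [X_pow_dvd_iff] at h1
  have h2 := h1 m (by omega)
  rw [sub_sub_sub_cancel_right, map_sub, sub_eq_zero] at h2
  exact h2

theorem IsCmp.map {R S : Type} [CommRing R] [CommRing S] {F W H : R⟦X⟧} (h : IsCmp F W H) (f : R →+* S) :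
    IsCmp (F.map f) (W.map f) (H.map f) := by
  intro n
  have h1 := map_dvd (PowerSeries.map f) (h n)
  rw [map_pow, map_X, map_sub, map_sum] at h1
  have h2 : ∑ k ∈ Finset.range n, (PowerSeries.map f) (C (coeff k F) * W ^ k) =
      ∑ k ∈ Finset.range n, C (coeff k (F.map f)) * (W.map f) ^ k := by
    refine Finset.sum_congr rfl fun k _ => ?_
    rw [map_mul, map_pow, PowerSeries.map_C, coeff_map]
  rwa [h2] at h1

/-- every series is the composition of some series with a given series `R = X + ...` -/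
theorem exists_outer {R : Type} [CommRing R] (A W : R⟦X⟧) (h0 : coeff 0 W = 0) (h1 : coeff 1 W = 1) :
    ∃ F, IsCmp F W A := by
  classical
  -- `W ^ n = X ^ n + ...`
  have hX : ∃ V : R⟦X⟧, W = X * V ∧ coeff 0 V = 1 := by
    have hX : (X : R⟦X⟧) ∣ W := by
      rw [X_dvd_iff, ← coeff_zero_eq_constantCoeff_apply]
      exact h0
    obtain ⟨V, hV⟩ := hX
    refine ⟨V, hV, ?_⟩
    have h2 : coeff 1 (X * V) = coeff 0 V := by
      have := coeff_succ_X_mul 0 V
      simp
    rw [← h2, ← hV, h1]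
  obtain ⟨V, hV, hV0⟩ := hX
  have hcoef : ∀ n : ℕ, coeff n (W ^ n) = 1 := by
    intro n
    rw [hV, mul_pow]
    have h2 := coeff_X_pow_mul (V ^ n) n 0
    rw [zero_add] at h2
    rw [h2, coeff_zero_eq_constantCoeff_apply, map_pow, ← coeff_zero_eq_constantCoeff_apply, hV0, one_pow]
  -- recursion
  let g : ℕ → (ℕ → R) := fun n => Nat.rec (fun _ => 0)
    (fun n f => Function.update f n (coeff n (A - ∑ k ∈ Finset.range n, C (f k) * W ^ k))) n
  have hg : ∀ n, g (n + 1) = Function.update (g n) n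
      (coeff n (A - ∑ k ∈ Finset.range n, C (g n k) * W ^ k)) := fun n => rfl
  have hstab : ∀ n k, k < n → g n k = g (k + 1) k := by
    intro n
    induction n with
    | zero => intro k hk; omega
    | succ n ih =>
      intro k hk
      rcases Nat.lt_succ_iff_lt_or_eq.1 hk with h | h
      · rw [hg n, Function.update_of_ne h.ne, ih k h]
      · rw [h]
  refine ⟨PowerSeries.mk fun k => g (k + 1) k, fun n => ?_⟩
  induction n with
  | zero => simp
  | succ n ih =>
    obtain ⟨D, hD⟩ := ih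
    have hsum : ∑ k ∈ Finset.range n, C (coeff k (PowerSeries.mk fun k => g (k + 1) k)) * W ^ k =
        ∑ k ∈ Finset.range n, C (g n k) * W ^ k := by
      refine Finset.sum_congr rfl fun k hk => ?_
      rw [coeff_mk, hstab n k (Finset.mem_range.1 hk)]
    have hn : coeff n (PowerSeries.mk fun k => g (k + 1) k) =
        coeff n (A - ∑ k ∈ Finset.range n, C (g n k) * W ^ k) := by
      rw [coeff_mk, hg n, Function.update_self]
    rw [Finset.sum_range_succ, ← sub_sub, hn]
    rw [hsum] at hD ⊢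
    rw [hD, hV, mul_pow]
    have h5 : coeff n ((X : R⟦X⟧) ^ n * D) = coeff 0 D := by
      have := coeff_X_pow_mul D n 0
      rwa [zero_add] at this
    rw [h5]
    have h6 : (X : R⟦X⟧) ^ n * D - C (coeff 0 D) * (X ^ n * V ^ n) = X ^ n * (D - C (coeff 0 D) * V ^ n) := by
      ring
    rw [h6, pow_succ]
    refine mul_dvd_mul_left _ ?_
    rw [X_dvd_iff, map_sub, map_mul, map_pow, ← coeff_zero_eq_constantCoeff_apply D,
      ← coeff_zero_eq_constantCoeff_apply V, hV0, one_pow, mul_one, PowerSeries.constantCoeff_C, sub_self]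

variable {p : ℕ} [Fact p.Prime] {R : Type} [CommRing R] {f : R →+* ℂ_[p]} {q : ℂ_[p]}

/-- evaluation of a composition -/
theorem ev_cmp (hf : ∀ r, ‖f r‖ ≤ 1) (hq : ‖q‖ < 1) {F W H : R⟦X⟧} (h : IsCmp F W H)
    (hW : coeff 0 W = 0) : ev f H q = ev f F (ev f W q) := by
  have hw : ‖ev f W q‖ ≤ ‖q‖ := by
    have := ev_order hf hq W 1 (fun n hn => by interval_cases n; exact hW)
    rwa [pow_one] at this
  have hw1 : ‖ev f W q‖ < 1 := hw.trans_lt hq
  -- partial sums
  have h1 : ∀ n, ‖ev f H q - ∑ k ∈ Finset.range n, f (coeff k F) * ev f W q ^ k‖ ≤ ‖q‖ ^ n := by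
    intro n
    have h2 : ev f (H - ∑ k ∈ Finset.range n, C (coeff k F) * W ^ k) q =
        ev f H q - ∑ k ∈ Finset.range n, f (coeff k F) * ev f W q ^ k := by
      rw [ev_sub hf hq, ev_sum hf hq]
      congr 1
      refine Finset.sum_congr rfl fun k _ => ?_
      rw [ev_mul hf hq, ev_C, ev_pow hf hq]
    rw [← h2]
    refine ev_order hf hq _ n ?_
    have h3 := h n
    rw [X_pow_dvd_iff] at h3
    exact h3
  have h4 : Filter.Tendsto (fun n => ∑ k ∈ Finset.range n, f (coeff k F) * ev f W q ^ k) Filter.atTop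
      (nhds (ev f H q)) := by
    rw [tendsto_iff_norm_sub_tendsto_zero]
    refine squeeze_zero (fun n => norm_nonneg _) (fun n => ?_)
      (tendsto_pow_atTop_nhds_zero_of_lt_one (norm_nonneg q) hq)
    rw [norm_sub_rev]
    exact h1 n
  exact tendsto_nhds_unique h4 (ev_hasSum hf hw1 F).tendsto_sum_nat

end Pool.Agent.LGO.PS
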