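import Mathlib
import Pool.Agent.LGO.PS.Fc

/-!
# LGO/PS: asymptotic expansions at `0`

`Asy g A`: `g(z) = ∑_{k < n} a_k z ^ k + O(z ^ n)` near `0` for all `n`.
-/

namespace Pool.Agent.LGO.PS

open PowerSeries Filter Asymptotics Topology

/-- the power series `A` is the asymptotic expansion of `g` at `0` -/
def Asy (g : ℂ → ℂ) (A : ℂ⟦X⟧) : Prop :=
  ∀ n : ℕ, (fun z => g z - ∑ k ∈ Finset.range n, coeff k A * z ^ k) =O[𝓝 0] fun z : ℂ => z ^ n

theorem Asy.congr {g g' : ℂ → ℂ} {A : ℂ⟦X⟧} (h : Asy g A) (hg : g =ᶠ[𝓝 0] g') : Asy g' A := by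
  intro n
  refine (h n).congr' ?_ EventuallyEq.rfl
  filter_upwards [hg] with z hz
  rw [hz]

private theorem Asy_pow_le {n k : ℕ} (h : n ≤ k) : (fun z : ℂ => z ^ k) =O[𝓝 0] fun z : ℂ => z ^ n := by
  refine IsBigO.of_bound 1 ?_
  have h1 : ∀ᶠ z : ℂ in 𝓝 0, ‖z‖ < 1 := by
    have := Metric.ball_mem_nhds (0 : ℂ) one_pos
    filter_upwards [this] with z hz
    rwa [Metric.mem_ball, dist_zero_right] at hz
  filter_upwards [h1] with z hz
  rw [norm_pow, norm_pow, one_mul]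
  exact pow_le_pow_of_le_one (norm_nonneg _) hz.le h

/-- the truncation is a polynomial, the rest is `O(z ^ n)` -/
theorem asy_tail (A : ℂ⟦X⟧) (n m : ℕ) (h : n ≤ m) :
    (fun z : ℂ => ∑ k ∈ Finset.range m, coeff k A * z ^ k - ∑ k ∈ Finset.range n, coeff k A * z ^ k)
      =O[𝓝 0] fun z : ℂ => z ^ n := by
  have e : (fun z : ℂ => ∑ k ∈ Finset.range m, coeff k A * z ^ k -
      ∑ k ∈ Finset.range n, coeff k A * z ^ k) =
      fun z : ℂ => ∑ k ∈ Finset.Ico n m, coeff k A * z ^ k := by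
    funext z
    rw [Finset.sum_Ico_eq_sub _ h]
  rw [e]
  refine IsBigO.fun_sum fun k hk => ?_
  rw [Finset.mem_Ico] at hk
  refine IsBigO.const_mul_left ?_ _
  exact Asy_pow_le hk.1

theorem Asy.of_all {g : ℂ → ℂ} {A : ℂ⟦X⟧} (h : ∀ n : ℕ, ∃ m, n ≤ m ∧
    (fun z => g z - ∑ k ∈ Finset.range m, coeff k A * z ^ k) =O[𝓝 0] fun z : ℂ => z ^ n) : Asy g A := by
  intro n
  obtain ⟨m, hm, h1⟩ := h n
  have h2 := h1.add (asy_tail A n m hm)
  refine h2.congr_left fun z => ?_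
  ring

theorem Asy.add {g h : ℂ → ℂ} {A B : ℂ⟦X⟧} (hg : Asy g A) (hh : Asy h B) :
    Asy (fun z => g z + h z) (A + B) := by
  intro n
  refine ((hg n).add (hh n)).congr_left fun z => ?_
  simp only [map_add, add_mul, Finset.sum_add_distrib]
  ring

theorem Asy.neg {g : ℂ → ℂ} {A : ℂ⟦X⟧} (hg : Asy g A) : Asy (fun z => -g z) (-A) := by
  intro n
  refine (hg n).neg_left.congr_left fun z => ?_
  simp only [map_neg, neg_mul, Finset.sum_neg_distrib]
  ring

theorem Asy.sub {g h : ℂ → ℂ} {A B : ℂ⟦X⟧} (hg : Asy g A) (hh : Asy h B) :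
    Asy (fun z => g z - h z) (A - B) := by
  have := hg.add hh.neg
  rw [← sub_eq_add_neg] at this
  exact this.congr (Eventually.of_forall fun z => (sub_eq_add_neg _ _).symm)

theorem asy_bdd {g : ℂ → ℂ} {A : ℂ⟦X⟧} (hg : Asy g A) : g =O[𝓝 0] fun _ : ℂ => (1 : ℂ) := by
  have h := hg 0
  simpa using h

theorem asy_poly_bdd (A : ℂ⟦X⟧) (n : ℕ) :
    (fun z : ℂ => ∑ k ∈ Finset.range n, coeff k A * z ^ k) =O[𝓝 0] fun _ : ℂ => (1 : ℂ) := by
  have h := asy_tail A 0 n (Nat.zero_le _)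
  simpa using h

/-- the expansion of a polynomial -/
theorem asy_poly (P : Polynomial ℂ) : Asy (fun z => P.eval z) (P : ℂ⟦X⟧) := by
  refine Asy.of_all fun n => ⟨max n (P.natDegree + 1), le_max_left _ _, ?_⟩
  have e : ∀ z : ℂ, P.eval z - ∑ k ∈ Finset.range (max n (P.natDegree + 1)),
      coeff k (P : ℂ⟦X⟧) * z ^ k = 0 := by
    intro z
    rw [Polynomial.eval_eq_sum_range' (lt_of_lt_of_le (Nat.lt_succ_self _) (le_max_right n _))]
    simp only [Polynomial.coeff_coe, sub_self]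
  refine (isBigO_zero _ _).congr_left fun z => (e z).symm

theorem Asy.mul {g h : ℂ → ℂ} {A B : ℂ⟦X⟧} (hg : Asy g A) (hh : Asy h B) :
    Asy (fun z => g z * h z) (A * B) := by
  intro n
  -- `g h = (g - G) h + G (h - H) + G H`
  have h1 : (fun z => (g z - ∑ k ∈ Finset.range n, coeff k A * z ^ k) * h z) =O[𝓝 0]
      fun z : ℂ => z ^ n := by
    have := (hg n).mul (asy_bdd hh)
    simpa using this
  have h2 : (fun z => (∑ k ∈ Finset.range n, coeff k A * z ^ k) *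
      (h z - ∑ k ∈ Finset.range n, coeff k B * z ^ k)) =O[𝓝 0] fun z : ℂ => z ^ n := by
    have := (asy_poly_bdd A n).mul (hh n)
    simpa using this
  -- the product of the truncations
  have h3 : (fun z : ℂ => (∑ k ∈ Finset.range n, coeff k A * z ^ k) *
      (∑ k ∈ Finset.range n, coeff k B * z ^ k) - ∑ k ∈ Finset.range n, coeff k (A * B) * z ^ k)
      =O[𝓝 0] fun z : ℂ => z ^ n := by
    have hP : ∀ (D : ℂ⟦X⟧) (z : ℂ), ∑ k ∈ Finset.range n, coeff k D * z ^ k = (trunc n D).eval z := by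
      intro D z
      rw [Polynomial.eval, eval₂_trunc_eq_sum_range]
      rfl
    have h4 := asy_poly (trunc n A * trunc n B) n
    refine h4.congr_left fun z => ?_
    change (trunc n A * trunc n B).eval z - _ = _
    rw [Polynomial.eval_mul, ← hP A, ← hP B]
    congr 1
    refine Finset.sum_congr rfl fun k hk => ?_
    rw [Finset.mem_range] at hk
    congr 1
    rw [Polynomial.coeff_coe, Polynomial.coeff_mul, coeff_mul]
    refine Finset.sum_congr rfl fun x hx => ?_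
    have h5 := Finset.HasAntidiagonal.mem_antidiagonal.1 hx
    rw [coeff_trunc, coeff_trunc, if_pos (by omega), if_pos (by omega)]
  refine ((h1.add h2).add h3).congr_left fun z => ?_
  ring

theorem asy_const (c : ℂ) : Asy (fun _ => c) (C c) := by
  have h := asy_poly (Polynomial.C c)
  rw [Polynomial.coe_C] at h
  exact h.congr (Eventually.of_forall fun z => by simp)

theorem Asy.pow {g : ℂ → ℂ} {A : ℂ⟦X⟧} (hg : Asy g A) (n : ℕ) : Asy (fun z => g z ^ n) (A ^ n) := by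
  induction n with
  | zero =>
    have h := asy_const 1
    simpa using h
  | succ n ih =>
    have h := ih.mul hg
    rw [← pow_succ] at h
    exact h.congr (Eventually.of_forall fun z => (pow_succ _ _).symm)

theorem Asy.sum {ι : Type} (s : Finset ι) {g : ι → ℂ → ℂ} {A : ι → ℂ⟦X⟧} (h : ∀ i ∈ s, Asy (g i) (A i)) :
    Asy (fun z => ∑ i ∈ s, g i z) (∑ i ∈ s, A i) := by
  classical
  induction s using Finset.induction_on with
  | empty =>
    have h := asy_const 0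
    simpa using h
  | insert i s hi ih =>
    have h1 := (h i (Finset.mem_insert_self _ _)).add (ih fun j hj => h j (Finset.mem_insert_of_mem hj))
    rw [Finset.sum_insert hi]
    refine h1.congr (Eventually.of_forall fun z => ?_)
    change g i z + ∑ i ∈ s, g i z = ∑ i ∈ insert i s, g i z
    rw [Finset.sum_insert hi]

/-- if the first coefficients vanish then the function is small -/
theorem Asy.order {g : ℂ → ℂ} {A : ℂ⟦X⟧} (hg : Asy g A) {n : ℕ} (hA : (X : ℂ⟦X⟧) ^ n ∣ A) :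
    g =O[𝓝 0] fun z : ℂ => z ^ n := by
  refine (hg n).congr_left fun z => ?_
  rw [X_pow_dvd_iff] at hA
  rw [Finset.sum_eq_zero, sub_zero]
  intro k hk
  rw [hA k (Finset.mem_range.1 hk), zero_mul]

theorem Asy.unique {g : ℂ → ℂ} {A B : ℂ⟦X⟧} (hA : Asy g A) (hB : Asy g B) : A = B := by
  by_contra hne
  have hD : A - B ≠ 0 := sub_ne_zero.2 hne
  obtain ⟨n, hn⟩ : ∃ n, coeff n (A - B) ≠ 0 := by
    by_contra hcon
    push Not at hcon
    exact hD (PowerSeries.ext fun n => by rw [hcon n, map_zero])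
  classical
  have hex : ∃ n, coeff n (A - B) ≠ 0 := ⟨n, hn⟩
  obtain ⟨N, hNdef⟩ : ∃ N, N = Nat.find hex := ⟨_, rfl⟩
  have hN : coeff N (A - B) ≠ 0 := by
    rw [hNdef]
    exact Nat.find_spec hex
  have hlt : ∀ k < N, coeff k (A - B) = 0 := fun k hk => by
    rw [hNdef] at hk
    have := Nat.find_min hex hk
    rwa [not_not] at this
  have h1 : Asy (fun _ => 0) (A - B) := by
    have h := hA.sub hB
    exact h.congr (Eventually.of_forall fun z => sub_self _)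
  have h2 := h1 (N + 1)
  have h3 : (fun z : ℂ => coeff N (A - B) * z ^ N) =O[𝓝 0] fun z : ℂ => z ^ (N + 1) := by
    refine h2.neg_left.congr_left fun z => ?_
    rw [Finset.sum_range_succ, Finset.sum_eq_zero fun k hk => by
      rw [hlt k (Finset.mem_range.1 hk), zero_mul]]
    ring
  rw [isBigO_iff] at h3
  obtain ⟨c, hc⟩ := h3
  have h4 : ∀ᶠ z : ℂ in 𝓝[≠] 0, ‖coeff N (A - B)‖ ≤ c * ‖z‖ := by
    filter_upwards [hc.filter_mono nhdsWithin_le_nhds, self_mem_nhdsWithin] with z hz hz0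
    have hz1 : 0 < ‖z‖ ^ N := pow_pos (norm_pos_iff.2 hz0) N
    rw [norm_mul, norm_pow, norm_pow, pow_succ] at hz
    have h5 : ‖coeff N (A - B)‖ * ‖z‖ ^ N ≤ (c * ‖z‖) * ‖z‖ ^ N := by linarith
    exact le_of_mul_le_mul_right h5 hz1
  have h5 : Tendsto (fun z : ℂ => c * ‖z‖) (𝓝[≠] 0) (𝓝 0) := by
    have h6 : Tendsto (fun z : ℂ => c * ‖z‖) (𝓝 0) (𝓝 (c * ‖(0 : ℂ)‖)) :=
      (continuous_const.mul continuous_norm).tendsto 0
    rw [norm_zero, mul_zero] at h6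
    exact h6.mono_left nhdsWithin_le_nhds
  have h6 := ge_of_tendsto h5 h4
  exact hN (norm_le_zero_iff.1 h6)

/-- the expansion of a composition -/
theorem Asy.comp {g w : ℂ → ℂ} {F W H : ℂ⟦X⟧} (hg : Asy g F) (hw : Asy w W) (hw0 : w 0 = 0)
    (hW : coeff 0 W = 0) (hH : IsCmp F W H) (hc : ContinuousAt w 0) : Asy (fun z => g (w z)) H := by
  intro n
  have hwo : w =O[𝓝 0] fun z : ℂ => z ^ 1 := hw.order (by
    rw [pow_one, X_dvd_iff, ← coeff_zero_eq_constantCoeff_apply]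
    exact hW)
  have ht : Tendsto w (𝓝 0) (𝓝 0) := by
    have := hc.tendsto
    rwa [hw0] at this
  have h1 : (fun z => g (w z) - ∑ k ∈ Finset.range n, coeff k F * w z ^ k) =O[𝓝 0]
      fun z : ℂ => z ^ n := by
    have h2 := (hg n).comp_tendsto ht
    refine IsBigO.trans h2 ?_
    have h3 := hwo.pow n
    refine h3.congr_right fun z => ?_
    rw [pow_one]
  have h4 : Asy (fun z => ∑ k ∈ Finset.range n, coeff k F * w z ^ k)
      (∑ k ∈ Finset.range n, C (coeff k F) * W ^ k) :=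
    Asy.sum _ fun k _ => (asy_const _).mul (hw.pow k)
  have h5 := h4 n
  have h6 : ∀ k < n, coeff k (∑ k ∈ Finset.range n, C (coeff k F) * W ^ k) = coeff k H := by
    intro k hk
    have h7 := hH n
    rw [X_pow_dvd_iff] at h7
    have h8 := h7 k hk
    rw [map_sub, sub_eq_zero] at h8
    exact h8.symm
  refine (h1.add h5).congr_left fun z => ?_
  have h7 : ∑ k ∈ Finset.range n, coeff k (∑ k ∈ Finset.range n, C (coeff k F) * W ^ k) * z ^ k =
      ∑ k ∈ Finset.range n, coeff k H * z ^ k :=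
    Finset.sum_congr rfl fun k hk => by rw [h6 k (Finset.mem_range.1 hk)]
  rw [h7]
  ring

/-- an analytic function has an expansion, the Taylor series -/
theorem asy_hasSum {g : ℂ → ℂ} {a : ℕ → ℂ} {ρ : ℝ} (hρ : 0 < ρ)
    (h : ∀ z : ℂ, ‖z‖ < ρ → HasSum (fun n => a n * z ^ n) (g z)) : Asy g (PowerSeries.mk a) := by
  intro n
  have hr : ‖((ρ / 2 : ℝ) : ℂ)‖ = ρ / 2 := by
    rw [Complex.norm_real, Real.norm_of_nonneg (by positivity)]
  have h0 := (h ((ρ / 2 : ℝ) : ℂ) (by rw [hr]; linarith)).summable.norm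
  have h1 : Summable fun k => ‖a (k + n) * ((ρ / 2 : ℝ) : ℂ) ^ (k + n)‖ :=
    (summable_nat_add_iff n).2 h0
  set S : ℝ := ∑' k, ‖a (k + n) * ((ρ / 2 : ℝ) : ℂ) ^ (k + n)‖ with hS
  refine IsBigO.of_bound (S / (ρ / 2) ^ n) ?_
  filter_upwards [Metric.ball_mem_nhds (0 : ℂ) (half_pos hρ)] with z hz
  rw [Metric.mem_ball, dist_zero_right] at hz
  have h2 := (hasSum_nat_add_iff' n).2 (h z (by linarith))
  have h3 : g z - ∑ k ∈ Finset.range n, coeff k (PowerSeries.mk a) * z ^ k =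
      ∑' k, a (k + n) * z ^ (k + n) := by
    rw [h2.tsum_eq]
    congr 1
    exact Finset.sum_congr rfl fun k _ => by rw [coeff_mk]
  rw [h3, norm_pow]
  -- termwise comparison
  have h4 : ∀ k, ‖a (k + n) * z ^ (k + n)‖ ≤
      ‖a (k + n) * ((ρ / 2 : ℝ) : ℂ) ^ (k + n)‖ * (‖z‖ ^ n / (ρ / 2) ^ n) := by
    intro k
    rw [norm_mul, norm_mul, norm_pow, norm_pow, hr, pow_add, pow_add]
    have h5 : (0 : ℝ) < (ρ / 2) ^ n := by positivity
    have h6 : ‖z‖ ^ k ≤ (ρ / 2) ^ k := pow_le_pow_left₀ (norm_nonneg _) hz.le k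
    calc ‖a (k + n)‖ * (‖z‖ ^ k * ‖z‖ ^ n) ≤ ‖a (k + n)‖ * ((ρ / 2) ^ k * ‖z‖ ^ n) := by gcongr
      _ = _ := by field_simp
  have h5 : Summable fun k => ‖a (k + n) * ((ρ / 2 : ℝ) : ℂ) ^ (k + n)‖ * (‖z‖ ^ n / (ρ / 2) ^ n) :=
    h1.mul_right _
  calc ‖∑' k, a (k + n) * z ^ (k + n)‖ ≤ ∑' k, ‖a (k + n) * z ^ (k + n)‖ :=
        norm_tsum_le_tsum_norm h2.summable.norm
    _ ≤ ∑' k, ‖a (k + n) * ((ρ / 2 : ℝ) : ℂ) ^ (k + n)‖ * (‖z‖ ^ n / (ρ / 2) ^ n) :=
        h2.summable.norm.tsum_le_tsum h4 h5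
    _ = S * (‖z‖ ^ n / (ρ / 2) ^ n) := by rw [tsum_mul_right]
    _ = _ := by ring

/-- an analytic function with the expansion `0` vanishes near `0` -/
theorem asy_zero {g : ℂ → ℂ} (hg : AnalyticAt ℂ g 0) (h : Asy g 0) : ∀ᶠ z in 𝓝 0, g z = 0 := by
  by_contra hcon
  obtain ⟨n, f, hf, hf0, hfe⟩ := (AnalyticAt.exists_eventuallyEq_pow_smul_nonzero_iff hg).2 hcon
  have h1 : g =O[𝓝 0] fun z : ℂ => z ^ (n + 1) := h.order (dvd_zero _)
  rw [isBigO_iff] at h1
  obtain ⟨c, hc⟩ := h1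
  have h2 : ∀ᶠ z : ℂ in 𝓝[≠] 0, ‖f z‖ ≤ c * ‖z‖ := by
    filter_upwards [hc.filter_mono nhdsWithin_le_nhds, hfe.filter_mono nhdsWithin_le_nhds,
      self_mem_nhdsWithin] with z hz hz1 hz0
    have hz2 : 0 < ‖z‖ ^ n := pow_pos (norm_pos_iff.2 hz0) n
    rw [hz1, sub_zero, smul_eq_mul, norm_mul, norm_pow, norm_pow, pow_succ] at hz
    have h5 : ‖f z‖ * ‖z‖ ^ n ≤ (c * ‖z‖) * ‖z‖ ^ n := by linarith
    exact le_of_mul_le_mul_right h5 hz2
  have h3 : Tendsto (fun z : ℂ => c * ‖z‖) (𝓝[≠] 0) (𝓝 0) := by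
    have h6 : Tendsto (fun z : ℂ => c * ‖z‖) (𝓝 0) (𝓝 (c * ‖(0 : ℂ)‖)) :=
      (continuous_const.mul continuous_norm).tendsto 0
    rw [norm_zero, mul_zero] at h6
    exact h6.mono_left nhdsWithin_le_nhds
  have h4 : Tendsto (fun z : ℂ => ‖f z‖) (𝓝[≠] 0) (𝓝 ‖f 0‖) :=
    (hf.continuousAt.norm.tendsto).mono_left nhdsWithin_le_nhds
  have h5 := le_of_tendsto_of_tendsto h4 h3 h2
  exact hf0 (norm_le_zero_iff.1 h5)

end Pool.Agent.LGO.PS
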