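import Mathlib
import Pool.Agent.LGO.PA.Cmp
import Pool.Agent.LGO.PA.LinkB
import Pool.Agent.LGO.U.RXi
import Pool.Agent.LGO.PS.Asy

/-!
# LGO/PS: definitions for the nonarchimedean part

`SFam Aa Ba Ab Bb m S`: the number `E₄(q_b)³ A_a(t) / (lc(A_a) tⁿ) - E₄(q_a)³ A_b(t) / (lc(A_b) tⁿ)` is the value of the power series
`S` with algebraic integer coefficients at `1 / (m t)`, for all embeddings into all `ℂ_[p]` and all `t` with `|m t| > 1`.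
-/

namespace Pool.Agent.LGO.PS

open Polynomial Pool.Agent.Hhelper14.ZP Pool.Agent.Hhelper14.ZPL Pool.Agent.LGO Pool.Agent.LGO.U
  Pool.Agent.LGO.PA

/-- `κ = lc(A_a) / lc(A_b)` -/
noncomputable def kap (Aa Ab : Polynomial Qb) : ℂ := ((Aa.leadingCoeff : Qb) : ℂ) / ((Ab.leadingCoeff : Qb) : ℂ)

/-- the formal series `S` of the two functions -/
structure SFam (Aa Ba Ab Bb : Polynomial Qb) (m : ℕ) (S : PowerSeries OO) : Prop where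
  m_pos : 0 < m
  zero : PowerSeries.coeff 0 S = 0
  ne : S ≠ 0
  val : ∀ (p : ℕ) [Fact p.Prime] (φ : ℂ →+* ℂ_[p]) (u v t : ℂ) (qa qb : ℂ_[p]),
    (aeval t Aa : ℂ) = u * aeval t Ba → (aeval t Ab : ℂ) = v * aeval t Bb → 1 < ‖φ ((m : ℂ) * t)‖ →
    0 < ‖qa‖ → ‖qa‖ < 1 → 0 < ‖qb‖ → ‖qb‖ < 1 → φ u = jP qa → φ v = jP qb →
      E4P qb ^ 3 * φ ((aeval t Aa : ℂ) / (((Aa.leadingCoeff : Qb) : ℂ) * t ^ Aa.natDegree)) -
        E4P qa ^ 3 * φ ((aeval t Ab : ℂ) / (((Ab.leadingCoeff : Qb) : ℂ) * t ^ Ab.natDegree)) =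
          ev (sO φ) S (φ (((m : ℂ) * t)⁻¹))

end Pool.Agent.LGO.PS
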