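import Mathlib
import Pool.Agent.LGO.PS.NDef
import Pool.Agent.LGO.PS.LinkN

/-!
# LGO/PS: the number `Ξ - d ^ 12 κ` at the places near infinity

`n = deg Aa = deg Ab`, `m_a = deg Aa - deg Ba`, `m_b = deg Ab - deg Bb`, `κ = lc(Aa) / lc(Ab)`.

PROOF.  `S = s_e X ^ e + ...`, `e ≥ 1`, `s_e ≠ 0` an algebraic integer, so `‖ev (sO φ) S x‖ = ‖φ s_e‖ ‖x‖ ^ e` for `‖x‖ < ‖φ s_e‖` (`ev_order` for `S - s_e X ^ e`) and `≤ ‖x‖` always.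
`m` is a multiple of the `m` of `SFam`, of integers which are `≤ ‖φ s_e‖` (`alg_norm`), of the integers of `cmp_x`, `ratio_inf` (for `(Ba, Aa)`, `(Bb, Ab)`: `‖φ u‖ > 1`, `‖φ v‖ > 1` if
`‖φ(m t)‖ > 1`) and of integers `m'` with `‖m'‖ ≤ ‖φ lc‖`, `‖m'‖ ‖φ lc‖ ≤ 1` for the leading coefficients, and such that for `‖φ(m t)‖ > 1`: `‖φ P(t)‖ = ‖φ lc(P)‖ ‖φ t‖ ^ deg P` for
`P = Aa, Ba, Ab, Bb` (`Cmp_lead` in `LGO/PA/Cmp.lean`, it is private: copy it).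
`jP_surj`: `φ v = jP qb`; `linkN` for `IsB v u B`: `a, d, qa`, `‖qa‖ ^ d = ‖qb‖ ^ a`, `φ B DP qa = d ^ 12 DP qb`.  `jP_mul`: `φ u DP qa = E4P qa ^ 3`, `φ v DP qb = E4P qb ^ 3`.
`Ξ = B Ba(t) / Bb(t)`, so `φ Ξ = d ^ 12 (E4P qb ^ 3 / φ v) (φ u / E4P qa ^ 3) φ(Ba(t) / Bb(t)) = d ^ 12 (E4P qb ^ 3 φ(Aa(t))) / (E4P qa ^ 3 φ(Ab(t)))`, and with `Aa(t) = lc(Aa) t ^ n Aa'`,
`Ab(t) = lc(Ab) t ^ n Ab'`: `φ(Ξ - d ^ 12 κ) = d ^ 12 φ κ (E4P qb ^ 3 φ Aa' - E4P qa ^ 3 φ Ab') / (E4P qa ^ 3 φ Ab')`, `‖E4P‖ = 1`, `‖φ Ab'‖ = 1`, and `SFam.val`: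
`‖φ(Ξ - d ^ 12 κ)‖ = ‖d‖ ^ 12 ‖φ κ‖ ‖ev S (1 / (m₀ t))‖`, which is not `0` and at most `‖φ κ‖ ‖φ(m₀ t)‖⁻¹`.
If `p` does not divide `m` then `‖φ lc(P)‖ = 1` for the four leading coefficients, `‖φ u‖ = ‖φ t‖ ^ m_a`, `‖φ v‖ = ‖φ t‖ ^ m_b`, `‖qa‖ = ‖φ u‖⁻¹`, `‖qb‖ = ‖φ v‖⁻¹` (`jP_norm`),
`‖φ t‖ > 1`, so `d m_a = a m_b`.
-/

namespace Pool.Agent.LGO.PS

open Polynomial Pool.Agent.Hhelper14.ZP Pool.Agent.Hhelper14.ZPL Pool.Agent.LGO Pool.Agent.LGO.U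
  Pool.Agent.LGO.PA

private theorem NLoc_alg (g : Qb) : IsAlgebraic ℚ (g : ℂ) := mem_algebraicClosure_iff.1 g.2

/-- the denominator of an algebraic number -/
private theorem NLoc_up {a : ℂ} (ha : IsAlgebraic ℚ a) : ∃ m : ℕ, 0 < m ∧
    ∀ (p : ℕ) [Fact p.Prime] (φ : ℂ →+* ℂ_[p]), ‖(m : ℂ_[p])‖ * ‖φ a‖ ≤ 1 := by
  rcases eq_or_ne a 0 with rfl | h0
  · exact ⟨1, one_pos, fun p _ φ => by simp⟩
  · obtain ⟨m, hm, h⟩ := alg_norm ha h0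
    exact ⟨m, hm, fun p _ φ => (h p φ).1⟩

private theorem NLoc_dvd {p : ℕ} [Fact p.Prime] {k m : ℕ} (h : k ∣ m) :
    ‖(m : ℂ_[p])‖ ≤ ‖(k : ℂ_[p])‖ := by
  obtain ⟨c, rfl⟩ := h
  rw [Nat.cast_mul, norm_mul]
  exact mul_le_of_le_one_right (norm_nonneg _) (Pool.Agent.Hhelper14.ZP.norm_natCast_le c)

/-- upper bound for the values of a polynomial -/
private theorem NLoc_upper (A : Polynomial Qb) : ∃ m : ℕ, 0 < m ∧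
    ∀ (p : ℕ) [Fact p.Prime] (φ : ℂ →+* ℂ_[p]) (t : ℂ),
      ‖(m : ℂ_[p])‖ * ‖φ (aeval t A : ℂ)‖ ≤ max 1 ‖φ t‖ ^ A.natDegree := by
  choose m hm0 hm using fun g : Qb => NLoc_up (NLoc_alg g)
  refine ⟨∏ i ∈ Finset.range (A.natDegree + 1), m (A.coeff i),
    Finset.prod_pos fun i _ => hm0 _, fun p _ φ t => ?_⟩
  have hM1 : (1 : ℝ) ≤ max 1 ‖φ t‖ := le_max_left _ _
  rw [aeval_eq_sum_range, map_sum, ← norm_mul, Finset.mul_sum]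
  refine IsUltrametricDist.norm_sum_le_of_forall_le_of_nonneg (by positivity) ?_
  intro i hi
  have hi' : i ≤ A.natDegree := Nat.lt_succ_iff.1 (Finset.mem_range.1 hi)
  rw [Algebra.smul_def, map_mul, map_pow, norm_mul, norm_mul, norm_pow,
    ← Finset.mul_prod_erase _ _ hi, Nat.cast_mul, norm_mul]
  have e1 := hm (A.coeff i) p φ
  have e2 : ‖((∏ x ∈ (Finset.range (A.natDegree + 1)).erase i, m (A.coeff x) : ℕ) : ℂ_[p])‖ ≤ 1 :=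
    Pool.Agent.Hhelper14.ZP.norm_natCast_le _
  have e3 : ‖φ t‖ ^ i ≤ max 1 ‖φ t‖ ^ A.natDegree :=
    (pow_le_pow_left₀ (norm_nonneg _) (le_max_right _ _) i).trans (pow_le_pow_right₀ hM1 hi')
  have e4 : ‖φ (algebraMap Qb ℂ (A.coeff i))‖ = ‖φ ((A.coeff i : Qb) : ℂ)‖ := rfl
  rw [e4]
  calc _ = (‖((m (A.coeff i) : ℕ) : ℂ_[p])‖ * ‖φ ((A.coeff i : Qb) : ℂ)‖) *
        ‖((∏ x ∈ (Finset.range (A.natDegree + 1)).erase i, m (A.coeff x) : ℕ) : ℂ_[p])‖ *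
          ‖φ t‖ ^ i := by ring
    _ ≤ 1 * max 1 ‖φ t‖ ^ A.natDegree := by
        refine mul_le_mul ?_ e3 (by positivity) zero_le_one
        exact mul_le_one₀ e1 (norm_nonneg _) e2
    _ = _ := one_mul _

/-- the values of a polynomial near infinity -/
private theorem NLoc_lead {P : Polynomial Qb} (hP : P ≠ 0) : ∃ m : ℕ, 0 < m ∧
    ∀ (p : ℕ) [Fact p.Prime] (φ : ℂ →+* ℂ_[p]) (t : ℂ), 1 < ‖(m : ℂ_[p])‖ * ‖φ t‖ →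
      0 < ‖φ (aeval t P : ℂ)‖ ∧
      ‖φ (aeval t P : ℂ)‖ = ‖φ ((P.leadingCoeff : Qb) : ℂ)‖ * ‖φ t‖ ^ P.natDegree := by
  have hlc : P.leadingCoeff ≠ 0 := leadingCoeff_ne_zero.2 hP
  have hlc' : ((P.leadingCoeff : Qb) : ℂ) ≠ 0 := by
    intro h
    exact hlc (by exact_mod_cast h)
  obtain ⟨m₂, hm₂, h₂⟩ := alg_norm (NLoc_alg P.leadingCoeff) hlc'
  obtain ⟨m₁, hm₁, h₁⟩ := NLoc_upper P.eraseLead
  have hdec : ∀ t : ℂ, (aeval t P : ℂ) = aeval t P.eraseLead +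
      (P.leadingCoeff : ℂ) * t ^ P.natDegree := by
    intro t
    conv_lhs => rw [← P.eraseLead_add_monomial_natDegree_leadingCoeff]
    rw [map_add, aeval_monomial]
    rfl
  refine ⟨m₁ * m₂, Nat.mul_pos hm₁ hm₂, fun p _ φ t ht => ?_⟩
  have hn1 : ‖(m₁ : ℂ_[p])‖ ≤ 1 := Pool.Agent.Hhelper14.ZP.norm_natCast_le m₁
  have hn2 : ‖(m₂ : ℂ_[p])‖ ≤ 1 := Pool.Agent.Hhelper14.ZP.norm_natCast_le m₂
  have hp1 : 0 < ‖(m₁ : ℂ_[p])‖ := norm_pos_iff.2 (by exact_mod_cast hm₁.ne')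
  rw [Nat.cast_mul, norm_mul] at ht
  have hT1 : 1 < ‖φ t‖ := by
    by_contra hle
    push Not at hle
    have : ‖(m₁ : ℂ_[p])‖ * ‖(m₂ : ℂ_[p])‖ * ‖φ t‖ ≤ 1 :=
      mul_le_one₀ (mul_le_one₀ hn1 (norm_nonneg _) hn2) (norm_nonneg _) hle
    linarith
  have hpos : 0 < ‖φ ((P.leadingCoeff : Qb) : ℂ)‖ * ‖φ t‖ ^ P.natDegree :=
    mul_pos (norm_pos_iff.2 ((map_ne_zero φ).2 hlc')) (pow_pos (zero_lt_one.trans hT1) _)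
  suffices h : ‖φ (aeval t P : ℂ)‖ = ‖φ ((P.leadingCoeff : Qb) : ℂ)‖ * ‖φ t‖ ^ P.natDegree from
    ⟨h ▸ hpos, h⟩
  rcases Nat.eq_zero_or_pos P.natDegree with h0 | hpos
  · have h1 : P.eraseLead = 0 := by
      rcases P.eraseLead_natDegree_lt_or_eraseLead_eq_zero with h2 | h2
      · omega
      · exact h2
    rw [hdec, h1, map_zero, zero_add, h0, pow_zero, pow_zero, mul_one, mul_one]
  · have hmax : max 1 ‖φ t‖ = ‖φ t‖ := max_eq_right hT1.le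
    have he : ‖(m₁ : ℂ_[p])‖ * ‖φ (aeval t P.eraseLead : ℂ)‖ ≤ ‖φ t‖ ^ (P.natDegree - 1) := by
      refine (h₁ p φ t).trans ?_
      rw [hmax]
      exact pow_le_pow_right₀ hT1.le P.eraseLead_natDegree_le
    have hpow : ‖φ t‖ ^ P.natDegree = ‖φ t‖ ^ (P.natDegree - 1) * ‖φ t‖ := by
      rw [← pow_succ, Nat.sub_add_cancel hpos]
    have hl := (h₂ p φ).2
    have hlt : ‖φ (aeval t P.eraseLead : ℂ)‖ <
        ‖φ ((P.leadingCoeff : ℂ) * t ^ P.natDegree)‖ := by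
      rw [map_mul, map_pow, norm_mul, norm_pow, hpow]
      have hq : 0 < ‖φ t‖ ^ (P.natDegree - 1) := by positivity
      refine lt_of_mul_lt_mul_left (lt_of_le_of_lt he ?_) hp1.le
      calc ‖φ t‖ ^ (P.natDegree - 1) < ‖φ t‖ ^ (P.natDegree - 1) *
            (‖(m₁ : ℂ_[p])‖ * ‖(m₂ : ℂ_[p])‖ * ‖φ t‖) := lt_mul_of_one_lt_right hq ht
        _ = ‖(m₁ : ℂ_[p])‖ * (‖(m₂ : ℂ_[p])‖ * (‖φ t‖ ^ (P.natDegree - 1) * ‖φ t‖)) := by ring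
        _ ≤ _ := mul_le_mul_of_nonneg_left
            (mul_le_mul_of_nonneg_right hl (by positivity)) hp1.le
    rw [hdec, map_add, IsUltrametricDist.norm_add_eq_max_of_norm_ne_norm hlt.ne,
      max_eq_right hlt.le, map_mul, map_pow, norm_mul, norm_pow]

/-- a nonzero power series does not vanish at small arguments -/
private theorem NLoc_low {S : PowerSeries OO} (hS : S ≠ 0) : ∃ m : ℕ, 0 < m ∧
    ∀ (p : ℕ) [Fact p.Prime] (φ : ℂ →+* ℂ_[p]) (x : ℂ_[p]), 0 < ‖x‖ → ‖x‖ < 1 →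
      ‖x‖ < ‖(m : ℂ_[p])‖ → 0 < ‖ev (sO φ) S x‖ := by
  obtain ⟨e, he, hlt⟩ : ∃ e, PowerSeries.coeff e S ≠ 0 ∧ ∀ n < e, PowerSeries.coeff n S = 0 := by
    have hex : ∃ n, PowerSeries.coeff n S ≠ 0 := by
      by_contra hcon
      push Not at hcon
      exact hS (PowerSeries.ext fun n => by rw [hcon n, map_zero])
    classical
    refine ⟨Nat.find hex, Nat.find_spec hex, fun n hn => ?_⟩
    by_contra h
    exact Nat.find_min hex hn h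
  set s : OO := PowerSeries.coeff e S with hs
  have hs0 : (s : ℂ) ≠ 0 := fun h => he (Subtype.ext h)
  have hsalg : IsAlgebraic ℚ (s : ℂ) := by
    have h1 : IsIntegral ℤ (s : ℂ) := s.2
    exact (h1.tower_top (A := ℚ)).isAlgebraic
  obtain ⟨m, hm, h⟩ := alg_norm hsalg hs0
  refine ⟨m, hm, fun p _ φ x hx0 hx1 hxm => ?_⟩
  have hf : ∀ r : OO, ‖sO φ r‖ ≤ 1 := sO_norm_le φ
  set R : PowerSeries OO := S - PowerSeries.C s * PowerSeries.X ^ e with hR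
  have hRc : ∀ n < e + 1, PowerSeries.coeff n R = 0 := by
    intro n hn
    rw [hR, map_sub, PowerSeries.coeff_C_mul, PowerSeries.coeff_X_pow]
    rcases Nat.lt_succ_iff_lt_or_eq.1 hn with h1 | h1
    · rw [hlt n h1, if_neg h1.ne, mul_zero, sub_zero]
    · rw [h1, if_pos rfl, mul_one, ← hs, sub_self]
  have h1 : ‖ev (sO φ) R x‖ ≤ ‖x‖ ^ (e + 1) := ev_order hf hx1 R (e + 1) hRc
  have h2 : ev (sO φ) R x = ev (sO φ) S x - sO φ s * x ^ e := by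
    rw [hR, ev_sub hf hx1, ev_mul hf hx1, ev_C, ev_pow hf hx1, ev_X]
  have h3 : ‖x‖ ^ (e + 1) < ‖sO φ s * x ^ e‖ := by
    rw [norm_mul, norm_pow, pow_succ, mul_comm]
    refine mul_lt_mul_of_pos_right (hxm.trans_le ?_) (pow_pos hx0 e)
    exact (h p φ).2
  rw [norm_pos_iff]
  intro h0
  rw [h2, h0, zero_sub, norm_neg] at h1
  exact absurd h1 (not_le.2 h3)

/-- the algebra -/
private theorem NLoc_alg2 {F : Type*} [Field F] {B Ba Bb Aa Ab u v Da Db Ea Eb la lb T d x y S : F}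
    (h1 : B * Da = d * Db) (h2 : u * Da = Ea) (h3 : v * Db = Eb) (h4 : Aa = u * Ba)
    (h5 : Ab = v * Bb) (h6 : Aa = la * T * x) (h7 : Ab = lb * T * y) (h8 : Eb * x - Ea * y = S)
    (hEa : Ea ≠ 0) (hBb : Bb ≠ 0) (hlb : lb ≠ 0) (hT : T ≠ 0) (hy : y ≠ 0)
    (hv : v ≠ 0) : B * Ba / Bb - d * (la / lb) = d * (la / lb) * S / (Ea * y) := by
  have hu : u ≠ 0 := by
    rintro rfl
    rw [zero_mul] at h2
    exact hEa h2.symm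
  have hDa : Da ≠ 0 := by
    rintro rfl
    rw [mul_zero] at h2
    exact hEa h2.symm
  have e1 : B = d * Db / Da := by
    rw [eq_div_iff hDa, h1]
  have e2 : Ba = la * T * x / u := by
    rw [eq_div_iff hu, ← h6, h4]
    ring
  have e3 : Bb = lb * T * y / v := by
    rw [eq_div_iff hv, ← h7, h5]
    ring
  rw [e1, e2, e3, ← h8, ← h2, ← h3]
  field_simp

theorem n_loc {Aa Ba Ab Bb : Polynomial Qb} (hda : Ba.natDegree < Aa.natDegree)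
    (hdb : Bb.natDegree < Ab.natDegree) (hr : Aa.natDegree = Ab.natDegree) (hBa : Ba ≠ 0) (hBb : Bb ≠ 0)
    {m₀ : ℕ} {S : PowerSeries OO} (hS : SFam Aa Ba Ab Bb m₀ S) :
    ∃ m : ℕ, 0 < m ∧ ∀ (p : ℕ) [Fact p.Prime] (φ : ℂ →+* ℂ_[p]) (u v t B : ℂ), Par Aa Ba Ab Bb u v t B →
      1 < ‖φ ((m : ℂ) * t)‖ → ∃ a d : ℕ, 0 < a ∧ 0 < d ∧ a * d = mdeg v u ∧
        0 < ‖φ (Xi Ba Bb 1 1 t B - (d : ℂ) ^ 12 * kap Aa Ab)‖ ∧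
        ‖(m : ℂ_[p])‖ * (‖φ (Xi Ba Bb 1 1 t B - (d : ℂ) ^ 12 * kap Aa Ab)‖ * ‖φ t‖) ≤ 1 ∧
        (¬ p ∣ m → d * (Aa.natDegree - Ba.natDegree) = a * (Ab.natDegree - Bb.natDegree)) := by
  have hAa : Aa ≠ 0 := by
    rintro rfl
    simp at hda
  have hAb : Ab ≠ 0 := by
    rintro rfl
    simp at hdb
  have hne : ∀ {P : Polynomial Qb}, P ≠ 0 → ((P.leadingCoeff : Qb) : ℂ) ≠ 0 := by
    intro P hP h
    exact (leadingCoeff_ne_zero.2 hP) (by exact_mod_cast h)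
  obtain ⟨m₁, hm₁, h₁⟩ := NLoc_low hS.ne
  obtain ⟨n₁, hn₁, hl₁⟩ := NLoc_lead hAa
  obtain ⟨n₂, hn₂, hl₂⟩ := NLoc_lead hBa
  obtain ⟨n₃, hn₃, hl₃⟩ := NLoc_lead hAb
  obtain ⟨n₄, hn₄, hl₄⟩ := NLoc_lead hBb
  have hdiv : ∀ P Q : Polynomial Qb, IsAlgebraic ℚ
      (((P.leadingCoeff : Qb) : ℂ) / ((Q.leadingCoeff : Qb) : ℂ)) := by
    intro P Q
    have h := NLoc_alg (P.leadingCoeff / Q.leadingCoeff)
    push_cast at h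
    exact h
  obtain ⟨ra, hra, hr₁⟩ := alg_norm (hdiv Aa Ba) (div_ne_zero (hne hAa) (hne hBa))
  obtain ⟨rb, hrb, hr₂⟩ := alg_norm (hdiv Ab Bb) (div_ne_zero (hne hAb) (hne hBb))
  obtain ⟨rk, hrk, hr₃⟩ := alg_norm (hdiv Aa Ab) (div_ne_zero (hne hAa) (hne hAb))
  refine ⟨m₀ * m₁ * (n₁ * n₂ * (n₃ * n₄)) * (ra * rb * rk), ?_, ?_⟩
  · have := hS.m_pos
    positivity
  intro p _ φ u v t B hpar ht
  set m : ℕ := m₀ * m₁ * (n₁ * n₂ * (n₃ * n₄)) * (ra * rb * rk) with hm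
  have ht' : 1 < ‖(m : ℂ_[p])‖ * ‖φ t‖ := by
    rwa [map_mul, map_natCast, norm_mul] at ht
  have hT : ∀ k, k ∣ m → 1 < ‖(k : ℂ_[p])‖ * ‖φ t‖ := fun k hk =>
    ht'.trans_le (mul_le_mul_of_nonneg_right (NLoc_dvd hk) (norm_nonneg _))
  have hT1 : 1 < ‖φ t‖ := by
    have h := hT 1 (one_dvd m)
    rwa [Nat.cast_one, norm_one, one_mul] at h
  have hT0 : 0 < ‖φ t‖ := zero_lt_one.trans hT1
  have dm01 : m₀ * m₁ ∣ m := ⟨n₁ * n₂ * (n₃ * n₄) * (ra * rb * rk), by rw [hm]; ring⟩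
  have dn1 : n₁ ∣ m := ⟨m₀ * m₁ * (n₂ * (n₃ * n₄)) * (ra * rb * rk), by rw [hm]; ring⟩
  have dn2 : n₂ ∣ m := ⟨m₀ * m₁ * (n₁ * (n₃ * n₄)) * (ra * rb * rk), by rw [hm]; ring⟩
  have dn3 : n₃ ∣ m := ⟨m₀ * m₁ * (n₁ * n₂ * n₄) * (ra * rb * rk), by rw [hm]; ring⟩
  have dn4 : n₄ ∣ m := ⟨m₀ * m₁ * (n₁ * n₂ * n₃) * (ra * rb * rk), by rw [hm]; ring⟩
  have dra : ra ∣ m := ⟨m₀ * m₁ * (n₁ * n₂ * (n₃ * n₄)) * (rb * rk), by rw [hm]; ring⟩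
  have drb : rb ∣ m := ⟨m₀ * m₁ * (n₁ * n₂ * (n₃ * n₄)) * (ra * rk), by rw [hm]; ring⟩
  have dk : m₀ * rk ∣ m := ⟨m₁ * (n₁ * n₂ * (n₃ * n₄)) * (ra * rb), by rw [hm]; ring⟩
  obtain ⟨p1, e1⟩ := hl₁ p φ t (hT _ dn1)
  obtain ⟨p2, e2⟩ := hl₂ p φ t (hT _ dn2)
  obtain ⟨p3, e3⟩ := hl₃ p φ t (hT _ dn3)
  obtain ⟨p4, e4⟩ := hl₄ p φ t (hT _ dn4)
  have la0 : 0 < ‖φ ((Aa.leadingCoeff : Qb) : ℂ)‖ := norm_pos_iff.2 ((map_ne_zero φ).2 (hne hAa))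
  have lb0 : 0 < ‖φ ((Ab.leadingCoeff : Qb) : ℂ)‖ := norm_pos_iff.2 ((map_ne_zero φ).2 (hne hAb))
  have la0' : 0 < ‖φ ((Ba.leadingCoeff : Qb) : ℂ)‖ := norm_pos_iff.2 ((map_ne_zero φ).2 (hne hBa))
  have lb0' : 0 < ‖φ ((Bb.leadingCoeff : Qb) : ℂ)‖ := norm_pos_iff.2 ((map_ne_zero φ).2 (hne hBb))
  -- sizes of `u` and `v`
  have hval : ∀ {A B : Polynomial Qb} {x : ℂ}, (aeval t A : ℂ) = x * aeval t B →
      B.natDegree < A.natDegree → 0 < ‖φ ((A.leadingCoeff : Qb) : ℂ)‖ →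
      0 < ‖φ ((B.leadingCoeff : Qb) : ℂ)‖ →
      ‖φ (aeval t A : ℂ)‖ = ‖φ ((A.leadingCoeff : Qb) : ℂ)‖ * ‖φ t‖ ^ A.natDegree →
      ‖φ (aeval t B : ℂ)‖ = ‖φ ((B.leadingCoeff : Qb) : ℂ)‖ * ‖φ t‖ ^ B.natDegree →
      ‖φ x‖ = ‖φ (((A.leadingCoeff : Qb) : ℂ) / ((B.leadingCoeff : Qb) : ℂ))‖ *
        ‖φ t‖ ^ (A.natDegree - B.natDegree) := by
    intro A B x hx hd ha hb hA hB
    have h1 : ‖φ x‖ * (‖φ ((B.leadingCoeff : Qb) : ℂ)‖ * ‖φ t‖ ^ B.natDegree) =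
        ‖φ ((A.leadingCoeff : Qb) : ℂ)‖ * ‖φ t‖ ^ A.natDegree := by
      rw [← hB, ← hA, hx, map_mul, norm_mul]
    have h2 : ‖φ t‖ ^ A.natDegree = ‖φ t‖ ^ (A.natDegree - B.natDegree) * ‖φ t‖ ^ B.natDegree := by
      rw [← pow_add, Nat.sub_add_cancel hd.le]
    have h3 : 0 < ‖φ t‖ ^ B.natDegree := pow_pos hT0 _
    rw [map_div₀, norm_div]
    rw [h2] at h1
    field_simp
    have h4 : ‖φ x‖ * ‖φ ((B.leadingCoeff : Qb) : ℂ)‖ =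
        ‖φ ((A.leadingCoeff : Qb) : ℂ)‖ * ‖φ t‖ ^ (A.natDegree - B.natDegree) := by
      apply mul_right_cancel₀ h3.ne'
      linear_combination h1
    linear_combination h4
  have hu := hval hpar.eqa hda la0 la0' e1 e2
  have hv := hval hpar.eqb hdb lb0 lb0' e3 e4
  have hgt : ∀ {r k : ℕ} {c : ℝ}, r ∣ m → 0 < k → ‖(r : ℂ_[p])‖ ≤ c → 1 < c * ‖φ t‖ ^ k := by
    intro r k c hrm hk hc
    have h1 := hT r hrm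
    have h2 : ‖φ t‖ ≤ ‖φ t‖ ^ k := le_self_pow₀ hT1.le hk.ne'
    have h3 : 0 ≤ c := (norm_nonneg _).trans hc
    calc (1 : ℝ) < ‖(r : ℂ_[p])‖ * ‖φ t‖ := h1
      _ ≤ c * ‖φ t‖ ^ k := mul_le_mul hc h2 hT0.le h3
  have hv1 : 1 < ‖φ v‖ := by
    rw [hv]
    exact hgt drb (by omega) (hr₂ p φ).2
  obtain ⟨qb, hqb0, hqb1, hjb⟩ := jP_surj hv1
  obtain ⟨a, d, qa, ha, hd, had, hqa0, hqa1, hpow, hja, hB⟩ :=
    linkN φ hpar.isB hpar.ncm hqb0 hqb1 hjb.symm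
  -- the formula
  have hx0 : ‖φ (((m₀ : ℂ) * t)⁻¹)‖ = (‖(m₀ : ℂ_[p])‖ * ‖φ t‖)⁻¹ := by
    rw [map_inv₀, norm_inv, map_mul, norm_mul, map_natCast]
  have hm0 : 0 < ‖(m₀ : ℂ_[p])‖ := norm_pos_iff.2 (by exact_mod_cast hS.m_pos.ne')
  have hm0T : 1 < ‖(m₀ : ℂ_[p])‖ * ‖φ t‖ := hT _ ((Dvd.intro m₁ rfl).trans dm01)
  have hxpos : 0 < ‖φ (((m₀ : ℂ) * t)⁻¹)‖ := by
    rw [hx0]
    positivity
  have hx1 : ‖φ (((m₀ : ℂ) * t)⁻¹)‖ < 1 := by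
    rw [hx0]
    exact inv_lt_one_of_one_lt₀ hm0T
  have hxm : ‖φ (((m₀ : ℂ) * t)⁻¹)‖ < ‖(m₁ : ℂ_[p])‖ := by
    rw [hx0, inv_lt_iff_one_lt_mul₀ (by positivity)]
    have h := hT _ dm01
    rw [Nat.cast_mul, norm_mul] at h
    calc (1 : ℝ) < ‖(m₀ : ℂ_[p])‖ * ‖(m₁ : ℂ_[p])‖ * ‖φ t‖ := h
      _ = ‖(m₁ : ℂ_[p])‖ * (‖(m₀ : ℂ_[p])‖ * ‖φ t‖) := by ring
  have hSpos := h₁ p φ _ hxpos hx1 hxm
  have hSle : ‖ev (sO φ) S (φ (((m₀ : ℂ) * t)⁻¹))‖ ≤ ‖φ (((m₀ : ℂ) * t)⁻¹)‖ := by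
    have h := ev_order (sO_norm_le φ) hx1 S 1 (fun n hn => by
      rw [Nat.lt_one_iff.1 hn]
      exact hS.zero)
    rwa [pow_one] at h
  have hval2 := hS.val p φ u v t qa qb hpar.eqa hpar.eqb (by
    rw [map_mul, map_natCast, norm_mul]
    exact hm0T) hqa0 hqa1 hqb0 hqb1 hja hjb.symm
  have hφt : φ t ≠ 0 := norm_pos_iff.1 hT0
  have ht0 : t ≠ 0 := by
    rintro rfl
    exact hφt (map_zero φ)
  have hEa : E4P qa ^ 3 ≠ 0 := by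
    rw [← norm_pos_iff, norm_pow, E4P_norm hqa1]
    norm_num
  have hx' : ∀ {A : Polynomial Qb}, A ≠ 0 → φ (aeval t A : ℂ) =
      φ ((A.leadingCoeff : Qb) : ℂ) * φ t ^ A.natDegree *
        φ ((aeval t A : ℂ) / (((A.leadingCoeff : Qb) : ℂ) * t ^ A.natDegree)) := by
    intro A hA
    rw [← map_pow, ← map_mul, ← map_mul]
    congr 1
    have := hne hA
    field_simp
  have hy1 : ‖φ ((aeval t Ab : ℂ) / (((Ab.leadingCoeff : Qb) : ℂ) * t ^ Ab.natDegree))‖ = 1 := by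
    rw [map_div₀, norm_div, map_mul, norm_mul, map_pow, norm_pow, e3]
    exact div_self (by positivity)
  have hφv : φ v ≠ 0 := norm_pos_iff.1 (zero_lt_one.trans hv1)
  have hmain := NLoc_alg2 (B := φ B) (Ba := φ (aeval t Ba : ℂ)) (Bb := φ (aeval t Bb : ℂ))
    (Aa := φ (aeval t Aa : ℂ)) (Ab := φ (aeval t Ab : ℂ)) (u := φ u) (v := φ v)
    (Da := DP qa) (Db := DP qb) (Ea := E4P qa ^ 3) (Eb := E4P qb ^ 3)
    (la := φ ((Aa.leadingCoeff : Qb) : ℂ)) (lb := φ ((Ab.leadingCoeff : Qb) : ℂ))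
    (T := φ t ^ Aa.natDegree) (d := (d : ℂ_[p]) ^ 12)
    (x := φ ((aeval t Aa : ℂ) / (((Aa.leadingCoeff : Qb) : ℂ) * t ^ Aa.natDegree)))
    (y := φ ((aeval t Ab : ℂ) / (((Ab.leadingCoeff : Qb) : ℂ) * t ^ Ab.natDegree)))
    (S := ev (sO φ) S (φ (((m₀ : ℂ) * t)⁻¹))) hB (by rw [hja]; exact jP_mul hqa0 hqa1)
    (by rw [← hjb]; exact jP_mul hqb0 hqb1) (by rw [hpar.eqa, map_mul])
    (by rw [hpar.eqb, map_mul]) (hx' hAa) (by rw [hr]; exact hx' hAb) hval2 hEa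
    (norm_pos_iff.1 p4) (norm_pos_iff.1 lb0) (pow_ne_zero _ hφt)
    (norm_pos_iff.1 (hy1 ▸ zero_lt_one)) hφv
  have hkap : φ (kap Aa Ab) = φ ((Aa.leadingCoeff : Qb) : ℂ) / φ ((Ab.leadingCoeff : Qb) : ℂ) := by
    rw [kap, map_div₀]
  have hXi : φ (Xi Ba Bb 1 1 t B - (d : ℂ) ^ 12 * kap Aa Ab) =
      φ B * φ (aeval t Ba : ℂ) / φ (aeval t Bb : ℂ) - (d : ℂ_[p]) ^ 12 *
        (φ ((Aa.leadingCoeff : Qb) : ℂ) / φ ((Ab.leadingCoeff : Qb) : ℂ)) := by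
    rw [map_sub, map_mul, hkap, map_pow, map_natCast, Xi, pow_one, pow_one, pow_one, map_div₀,
      map_mul]
  have hnorm : ‖φ (Xi Ba Bb 1 1 t B - (d : ℂ) ^ 12 * kap Aa Ab)‖ =
      ‖(d : ℂ_[p])‖ ^ 12 * ‖φ (kap Aa Ab)‖ * ‖ev (sO φ) S (φ (((m₀ : ℂ) * t)⁻¹))‖ := by
    rw [hXi, hmain, norm_div, norm_mul, norm_mul (E4P qa ^ 3), hy1, norm_pow (E4P qa),
      E4P_norm hqa1, one_pow, one_mul, div_one, norm_mul, norm_pow, hkap]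
  have hd0 : 0 < ‖(d : ℂ_[p])‖ := norm_pos_iff.2 (by exact_mod_cast hd.ne')
  have hd1 : ‖(d : ℂ_[p])‖ ≤ 1 := Pool.Agent.Hhelper14.ZP.norm_natCast_le d
  have hk0 : 0 < ‖φ (kap Aa Ab)‖ := by
    rw [hkap, norm_div]
    exact div_pos la0 lb0
  refine ⟨a, d, ha, hd, had, ?_, ?_, ?_⟩
  · rw [hnorm]
    positivity
  · rw [hnorm]
    have h1 : ‖(m : ℂ_[p])‖ ≤ ‖(m₀ : ℂ_[p])‖ * ‖(rk : ℂ_[p])‖ := by
      have h : ‖((m₀ * rk : ℕ) : ℂ_[p])‖ = ‖(m₀ : ℂ_[p])‖ * ‖(rk : ℂ_[p])‖ := by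
        rw [Nat.cast_mul, norm_mul]
      exact (NLoc_dvd (p := p) dk).trans_eq h
    have h2 : ‖(rk : ℂ_[p])‖ * ‖φ (kap Aa Ab)‖ ≤ 1 := (hr₃ p φ).1
    have h3 : ‖ev (sO φ) S (φ (((m₀ : ℂ) * t)⁻¹))‖ * (‖(m₀ : ℂ_[p])‖ * ‖φ t‖) ≤ 1 := by
      rw [hx0] at hSle
      calc _ ≤ (‖(m₀ : ℂ_[p])‖ * ‖φ t‖)⁻¹ * (‖(m₀ : ℂ_[p])‖ * ‖φ t‖) :=
            mul_le_mul_of_nonneg_right hSle (by positivity)
        _ = 1 := inv_mul_cancel₀ (by positivity)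
    calc ‖(m : ℂ_[p])‖ * (‖(d : ℂ_[p])‖ ^ 12 * ‖φ (kap Aa Ab)‖ *
          ‖ev (sO φ) S (φ (((m₀ : ℂ) * t)⁻¹))‖ * ‖φ t‖)
        ≤ (‖(m₀ : ℂ_[p])‖ * ‖(rk : ℂ_[p])‖) * (1 * ‖φ (kap Aa Ab)‖ *
          ‖ev (sO φ) S (φ (((m₀ : ℂ) * t)⁻¹))‖ * ‖φ t‖) := by
          refine mul_le_mul h1 ?_ (by positivity) (by positivity)
          refine mul_le_mul_of_nonneg_right ?_ hT0.le
          refine mul_le_mul_of_nonneg_right ?_ (norm_nonneg _)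
          exact mul_le_mul_of_nonneg_right (pow_le_one₀ hd0.le hd1) hk0.le
      _ = (‖(rk : ℂ_[p])‖ * ‖φ (kap Aa Ab)‖) *
          (‖ev (sO φ) S (φ (((m₀ : ℂ) * t)⁻¹))‖ * (‖(m₀ : ℂ_[p])‖ * ‖φ t‖)) := by ring
      _ ≤ 1 := mul_le_one₀ h2 (by positivity) h3
  · intro hpm
    have hone : ∀ k : ℕ, k ∣ m → ‖(k : ℂ_[p])‖ = 1 := by
      intro k hk
      have h1 : ¬ p ∣ k := fun h => hpm (h.trans hk)
      rw [norm_natCast_eq]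
      exact (Padic.norm_natCast_eq_one_iff).2 ((Fact.out (p := p.Prime)).coprime_iff_not_dvd.2 h1)
    have hcone : ∀ {r : ℕ} {c : ℂ}, r ∣ m → (‖(r : ℂ_[p])‖ * ‖φ c‖ ≤ 1 ∧ ‖(r : ℂ_[p])‖ ≤ ‖φ c‖) →
        ‖φ c‖ = 1 := by
      intro r c hrm h
      rw [hone r hrm, one_mul] at h
      exact le_antisymm h.1 h.2
    rw [hcone dra (hr₁ p φ), one_mul] at hu
    rw [hcone drb (hr₂ p φ), one_mul] at hv
    have hqa : ‖qa‖ = (‖φ t‖ ^ (Aa.natDegree - Ba.natDegree))⁻¹ := by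
      rw [← hu, hja, jP_norm hqa0 hqa1, inv_inv]
    have hqb : ‖qb‖ = (‖φ t‖ ^ (Ab.natDegree - Bb.natDegree))⁻¹ := by
      rw [← hv, ← hjb, jP_norm hqb0 hqb1, inv_inv]
    rw [hqa, hqb, inv_pow, inv_pow, inv_inj, ← pow_mul, ← pow_mul] at hpow
    have h1 := pow_right_injective₀ hT0 hT1.ne' hpow
    linarith [h1]

end Pool.Agent.LGO.PS
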