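import Mathlib
import Pool.Agent.LGO.PS.NLoc
import Pool.Agent.LGO.PA.MeasP
import Pool.Agent.LGO.Q.Quad
import Pool.Agent.LGO.CM.Inv

/-!
# LGO/PS: the denominator of the parameter

PROOF.  `m` from `n_loc`, `m_a = deg Aa - deg Ba > 0`, `m_b = deg Ab - deg Bb > 0`, `N = mdeg v u ≤ exp M`.  There is at most one `d > 0` such that `a d = N`, `d m_a = a m_b` for some `a`
(`d ^ 2 m_a = N m_b`).  For `d ∣ N` let `w_d = Ξ - d ^ 12 κ ∈ K`: `Bd K (C₁ M) w_d` (`d ≤ N ≤ exp M`); if `w_d ≠ 0` there is a natural number `r_d`, `0 < r_d ≤ exp (G)`, `G = C₂ M ^ 2`, such that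
`r_d / w_d` is integral (the norm of `n w_d`, see `exists_dvd` in `LGO/Mul/Main.lean` and `MeasG_inv` in `LGO/U/MeasG.lean`, `Bd.inv` or similar), so `‖φ w_d‖ ≥ ‖r_d‖` for all `p`, `φ`.
(i) `p ∤ m`: if `‖φ t‖ > 1` then `‖φ(m t)‖ = ‖φ t‖ > 1`, `n_loc` gives `a, d` with `d m_a = a m_b`: it is the distinguished `d`, `w_d ≠ 0` and `‖φ w_d‖ ‖φ t‖ ≤ 1`, so
`‖φ(r_d t)‖ ≤ 1`.  (ii) `p ∣ m`: `‖φ(m t)‖ ≤ 1`, or `‖m‖ ‖φ t‖ ≤ ‖φ w_d‖⁻¹ ≤ r_d` (`int_norm_ge`), `‖φ t‖ ≤ m exp G`.  Let `k` be a natural number with `m exp G ≤ 2 ^ k`, `k ≤ C₃ M ^ 2`: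
`‖m ^ k‖ ≤ 2 ^ (- k)`.  So `r = r_d m ^ (k + 1)` (`r_d := 1` if there is no distinguished `d` or `w_d = 0`) satisfies `‖φ(r t)‖ ≤ 1` for all `p`, `φ`, and `r t` is integral
(`integral_of_norm_le`, as in `LGO/PA/XiBd.lean`; `t ∈ K` is algebraic).  `r ≤ exp (G + (k + 1) log m) ≤ exp ((C M) ^ C)`.
-/

namespace Pool.Agent.LGO.PS

open Polynomial Pool.Agent.Hhelper14.ZP Pool.Agent.Hhelper14.ZPL Pool.Agent.LGO Pool.Agent.LGO.U
  Pool.Agent.LGO.PA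

private theorem NFin_nat {p : ℕ} [Fact p.Prime] (n : ℕ) : ‖(n : ℂ_[p])‖ ≤ 1 := by
  have := int_norm_le (p := p) (n : ℤ)
  simpa using this

private theorem NFin_ge {p : ℕ} [Fact p.Prime] {n : ℕ} (hn : 0 < n) :
    (n : ℝ)⁻¹ ≤ ‖(n : ℂ_[p])‖ := by
  have := int_norm_ge (p := p) (n := (n : ℤ)) (by exact_mod_cast hn.ne')
  simpa using this

private theorem NFin_one {p : ℕ} [Fact p.Prime] {n : ℕ} (hn : ¬ p ∣ n) : ‖(n : ℂ_[p])‖ = 1 := by
  have h1 := Ev_int_eq (p := p) (n : ℤ)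
  have h2 : ‖((n : ℤ) : ℚ_[p])‖ = 1 := by
    have h3 : ¬ ‖((n : ℕ) : ℚ_[p])‖ < 1 := fun h => hn (Padic.norm_natCast_lt_one_iff.1 h)
    have h4 : ‖((n : ℤ) : ℚ_[p])‖ ≤ 1 := Padic.norm_int_le_one _
    refine le_antisymm h4 (not_lt.1 ?_)
    simpa using h3
  rw [h2] at h1
  simpa using h1

private theorem NFin_half {p : ℕ} [Fact p.Prime] {n : ℕ} (hn : p ∣ n) : ‖(n : ℂ_[p])‖ ≤ 1 / 2 := by
  obtain ⟨k, rfl⟩ := hn
  have h1 : ‖(p : ℂ_[p])‖ = (p : ℝ)⁻¹ := by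
    have h2 := Ev_int_eq (p := p) (p : ℤ)
    have h3 : ‖((p : ℤ) : ℚ_[p])‖ = (p : ℝ)⁻¹ := by
      simp
    rw [h3] at h2
    simpa using h2
  rw [Nat.cast_mul, norm_mul, h1]
  have h4 := NFin_nat (p := p) k
  have h5 : (2 : ℝ) ≤ p := by exact_mod_cast (Fact.out : p.Prime).two_le
  have h6 : (p : ℝ)⁻¹ ≤ 1 / 2 := by
    rw [one_div]
    exact inv_anti₀ (by norm_num) h5
  calc (p : ℝ)⁻¹ * ‖(k : ℂ_[p])‖ ≤ 1 / 2 * 1 :=
        mul_le_mul h6 h4 (norm_nonneg _) (by norm_num)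
    _ = 1 / 2 := mul_one _

private theorem NFin_pow {G : ℝ} {k : ℕ} (hk : G ≤ k) {x y : ℝ} (hx0 : 0 ≤ x) (hx : x ≤ 1 / 2) (_hy0 : 0 ≤ y)
    (hxy : x * y ≤ Real.exp G) : x ^ (2 * k + 1) * y ≤ 1 := by
  have h1 : Real.exp G ≤ 4 ^ k := by
    calc Real.exp G ≤ Real.exp (k * 1) := Real.exp_le_exp.2 (by linarith)
      _ = Real.exp 1 ^ k := Real.exp_nat_mul 1 k
      _ ≤ 4 ^ k := pow_le_pow_left₀ (Real.exp_pos _).le (by linarith [Real.exp_one_lt_d9]) _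
  have h2 : x ^ (2 * k) ≤ (1 / 4) ^ k := by
    rw [pow_mul]
    refine pow_le_pow_left₀ (sq_nonneg x) ?_ k
    nlinarith
  calc x ^ (2 * k + 1) * y = x ^ (2 * k) * (x * y) := by ring
    _ ≤ (1 / 4) ^ k * Real.exp G :=
        mul_le_mul h2 hxy (mul_nonneg hx0 _hy0) (by positivity)
    _ ≤ (1 / 4) ^ k * 4 ^ k := mul_le_mul_of_nonneg_left h1 (by positivity)
    _ = 1 := by rw [← mul_pow]; norm_num

theorem n_fin {Aa Ba Ab Bb : Polynomial Qb} (hda : Ba.natDegree < Aa.natDegree)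
    (hdb : Bb.natDegree < Ab.natDegree) (hr : Aa.natDegree = Ab.natDegree) (hBa : Ba ≠ 0) (hBb : Bb ≠ 0)
    {m₀ : ℕ} {S : PowerSeries OO} (hS : SFam Aa Ba Ab Bb m₀ S) :
    ∃ C : ℕ, 1 ≤ C ∧ ∀ (K : IntermediateField ℚ ℂ) [FiniteDimensional ℚ K] (M : ℝ) (u v t B : ℂ), 2 ≤ M →
      (Module.finrank ℚ K : ℝ) ≤ M → (mdeg v u : ℝ) ≤ Real.exp M → Par Aa Ba Ab Bb u v t B → t ∈ K →
      kap Aa Ab ∈ K → Bd K M (Xi Ba Bb 1 1 t B) →
        ∃ r : ℕ, 0 < r ∧ (r : ℝ) ≤ Real.exp ((C * M) ^ C) ∧ IsIntegral ℤ ((r : ℂ) * t) := by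
  classical
  obtain ⟨m, hm, hloc⟩ := n_loc hda hdb hr hBa hBb hS
  obtain ⟨Ck, hCk, hkbd⟩ := Quad_bd_alg (g := kap Aa Ab) (by
    have h1 : IsAlgebraic ℚ ((Aa.leadingCoeff : Qb) : ℂ) :=
      mem_algebraicClosure_iff.1 (Aa.leadingCoeff : Qb).2
    have h2 : IsAlgebraic ℚ ((Ab.leadingCoeff : Qb) : ℂ) :=
      mem_algebraicClosure_iff.1 (Ab.leadingCoeff : Qb).2
    rw [kap, div_eq_mul_inv]
    exact h1.mul h2.inv)
  set C₁ : ℝ := 14 + Ck with hC₁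
  have hC₁1 : 14 ≤ C₁ := by linarith
  have hm1 : (1 : ℝ) ≤ m := by exact_mod_cast hm
  set C : ℕ := ⌈8 * C₁ * m⌉₊ + 2 with hC
  have hCr : 8 * C₁ * m ≤ (C : ℝ) := by
    have h1 := Nat.le_ceil (8 * C₁ * m)
    rw [hC]
    push_cast
    linarith
  refine ⟨C, by omega, ?_⟩
  intro K _ M u v t B hM hD hN hpar ht hkK hXi
  have hM0 : 0 ≤ M := by linarith
  have hκ := hkbd K hkK
  set N : ℕ := mdeg v u with hNdef
  have hNpos : 0 < N := mdeg_pos hpar.isB.isog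
  set κ : ℂ := kap Aa Ab with hκdef
  set Ξ : ℂ := Xi Ba Bb 1 1 t B with hΞ
  set G : ℝ := 2 * C₁ * M ^ 2 with hG
  have hG0 : 0 ≤ G := by positivity
  -- the numbers `w_d`
  have hw : ∀ d : ℕ, 0 < d → d ∣ N → Bd K (C₁ * M) (Ξ - (d : ℂ) ^ 12 * κ) := by
    intro d hd hdN
    have hdM : |((d : ℤ) : ℝ)| ≤ Real.exp M := by
      have h1 : (d : ℝ) ≤ N := by exact_mod_cast Nat.le_of_dvd hNpos hdN
      rw [Int.cast_natCast, abs_of_nonneg (Nat.cast_nonneg _)]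
      exact h1.trans hN
    have h1 : Bd K M ((d : ℤ) : ℂ) := Bd.intCast (K := K) (d : ℤ) hdM hM0
    rw [Int.cast_natCast] at h1
    have h2 := ((h1.pow 12).mul hκ).neg
    have h3 := hXi.add h2
    rw [← sub_eq_add_neg] at h3
    refine h3.mono ?_
    rw [hC₁]
    push_cast
    nlinarith
  have hr' : ∀ d : ℕ, ∃ r : ℕ, 0 < r ∧ (r : ℝ) ≤ Real.exp G ∧ (0 < d → d ∣ N → Ξ - (d : ℂ) ^ 12 * κ ≠ 0 →
      ∀ (p : ℕ) [Fact p.Prime] (φ : ℂ →+* ℂ_[p]), ‖(r : ℂ_[p])‖ ≤ ‖φ (Ξ - (d : ℂ) ^ 12 * κ)‖) := by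
    intro d
    by_cases hd : 0 < d ∧ d ∣ N ∧ Ξ - (d : ℂ) ^ 12 * κ ≠ 0
    · obtain ⟨hd0, hdN, hne⟩ := hd
      have h1 := (hw d hd0 hdN).inv hD (by positivity) hne
      obtain ⟨r, hr0, hrG, hint⟩ := h1.den
      refine ⟨r, hr0, hrG.trans (Real.exp_le_exp.2 (le_of_eq ?_)), fun _ _ _ p _ φ => ?_⟩
      · rw [hG]; ring
      · have h2 := norm_le_one_of_integral φ hint
        rw [map_mul, map_natCast, norm_mul, map_inv₀, norm_inv] at h2
        have h3 : 0 < ‖φ (Ξ - (d : ℂ) ^ 12 * κ)‖ := by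
          rw [norm_pos_iff]
          exact (map_ne_zero φ).2 hne
        rwa [← div_eq_mul_inv, div_le_one h3] at h2
    · exact ⟨1, one_pos, by rw [Nat.cast_one]; exact Real.one_le_exp hG0,
        fun h1 h2 h3 => absurd ⟨h1, h2, h3⟩ hd⟩
  choose rr hrr0 hrrG hrrv using hr'
  -- the distinguished divisor
  obtain ⟨r₀, hr₀0, hr₀G, hr₀v⟩ : ∃ r : ℕ, 0 < r ∧ (r : ℝ) ≤ Real.exp G ∧
      ∀ (a d : ℕ), 0 < a → 0 < d → a * d = N → Ξ - (d : ℂ) ^ 12 * κ ≠ 0 →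
        d * (Aa.natDegree - Ba.natDegree) = a * (Ab.natDegree - Bb.natDegree) →
        ∀ (p : ℕ) [Fact p.Prime] (φ : ℂ →+* ℂ_[p]), ‖(r : ℂ_[p])‖ ≤ ‖φ (Ξ - (d : ℂ) ^ 12 * κ)‖ := by
    by_cases hex : ∃ a d : ℕ, 0 < a ∧ 0 < d ∧ a * d = N ∧ Ξ - (d : ℂ) ^ 12 * κ ≠ 0 ∧
        d * (Aa.natDegree - Ba.natDegree) = a * (Ab.natDegree - Bb.natDegree)
    · obtain ⟨a₀, d₀, ha₀, hd₀, had₀, hne₀, heq₀⟩ := hex
      refine ⟨rr d₀, hrr0 d₀, hrrG d₀, ?_⟩
      intro a d ha hd had hne heq p _ φ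
      have hma : 0 < Aa.natDegree - Ba.natDegree := Nat.sub_pos_of_lt hda
      have h1 : d * d * (Aa.natDegree - Ba.natDegree) = N * (Ab.natDegree - Bb.natDegree) := by
        rw [mul_assoc, heq, ← had]; ring
      have h2 : d₀ * d₀ * (Aa.natDegree - Ba.natDegree) = N * (Ab.natDegree - Bb.natDegree) := by
        rw [mul_assoc, heq₀, ← had₀]; ring
      have h3 : d * d = d₀ * d₀ := Nat.eq_of_mul_eq_mul_right hma (h1.trans h2.symm)
      have h4 : d = d₀ := Nat.mul_self_inj.1 h3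
      rw [h4] at hne ⊢
      exact hrrv d₀ hd₀ ⟨a₀, by rw [← had₀]; ring⟩ hne p φ
    · refine ⟨1, one_pos, by rw [Nat.cast_one]; exact Real.one_le_exp hG0, ?_⟩
      intro a d ha hd had hne heq
      exact absurd ⟨a, d, ha, hd, had, hne, heq⟩ hex
  set k : ℕ := ⌈G⌉₊ with hk
  have hkG : G ≤ k := Nat.le_ceil G
  have hkG' : (k : ℝ) ≤ G + 1 := (Nat.ceil_lt_add_one hG0).le
  refine ⟨r₀ * m ^ (2 * k + 1), Nat.mul_pos hr₀0 (pow_pos hm _), ?_, ?_⟩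
  · -- the size
    have hlm : Real.log m ≤ m := (Real.log_le_sub_one_of_pos (by linarith)).trans (by linarith)
    have hlm0 : 0 ≤ Real.log m := Real.log_nonneg hm1
    have h1 : ((m : ℝ)) ^ (2 * k + 1) = Real.exp ((2 * k + 1 : ℕ) * Real.log m) := by
      rw [Real.exp_nat_mul, Real.exp_log (by linarith)]
    push_cast
    rw [h1]
    calc (r₀ : ℝ) * Real.exp ((2 * k + 1 : ℕ) * Real.log m)
        ≤ Real.exp G * Real.exp ((2 * k + 1 : ℕ) * Real.log m) :=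
          mul_le_mul_of_nonneg_right hr₀G (Real.exp_pos _).le
      _ = Real.exp (G + (2 * k + 1 : ℕ) * Real.log m) := (Real.exp_add _ _).symm
      _ ≤ Real.exp ((C * M) ^ C) := by
          apply Real.exp_le_exp.2
          have hG3 : 3 ≤ G := by
            rw [hG]
            nlinarith
          have h2 : ((2 * k + 1 : ℕ) : ℝ) ≤ 3 * G := by
            push_cast
            linarith
          have h3 : ((2 * k + 1 : ℕ) : ℝ) * Real.log m ≤ 3 * G * m :=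
            mul_le_mul h2 hlm hlm0 (by linarith)
          have h4 : G + 3 * G * m ≤ 8 * C₁ * m * M ^ 2 := by
            rw [hG]
            nlinarith [mul_nonneg (by linarith : (0 : ℝ) ≤ C₁) (sq_nonneg M)]
          have hC1 : (1 : ℝ) ≤ C := by
            have : (1 : ℝ) ≤ 8 * C₁ * m := by nlinarith
            linarith
          have hCM : 1 ≤ (C : ℝ) * M := by nlinarith
          have h5 : 8 * C₁ * m * M ^ 2 ≤ (C * M) ^ 2 := by
            rw [mul_pow]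
            refine mul_le_mul_of_nonneg_right ?_ (sq_nonneg M)
            nlinarith
          have h6 : ((C : ℝ) * M) ^ 2 ≤ (C * M) ^ C := pow_le_pow_right₀ hCM (by omega)
          linarith
  · -- integrality
    have htalg : IsAlgebraic ℚ t := by
      have h1 : IsAlgebraic ℚ (⟨t, ht⟩ : K) := Algebra.IsAlgebraic.isAlgebraic _
      have := h1.algebraMap (A := ℂ)
      exact this
    refine integral_of_norm_le ((isAlgebraic_natCast _).mul htalg) ?_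
    intro p _ φ
    rw [map_mul, map_natCast, norm_mul]
    push_cast
    rw [norm_mul, norm_pow]
    have hr1 := NFin_nat (p := p) r₀
    have hmn := NFin_nat (p := p) m
    have hφm : ‖φ ((m : ℂ) * t)‖ = ‖(m : ℂ_[p])‖ * ‖φ t‖ := by
      rw [map_mul, map_natCast, norm_mul]
    by_cases hpm : p ∣ m
    · -- `p` divides `m`
      have hhalf := NFin_half (p := p) hpm
      by_cases hle : ‖φ ((m : ℂ) * t)‖ ≤ 1
      · rw [hφm] at hle
        have h1 : ‖(m : ℂ_[p])‖ ^ (2 * k) ≤ 1 := pow_le_one₀ (norm_nonneg _) hmn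
        calc ‖(r₀ : ℂ_[p])‖ * ‖(m : ℂ_[p])‖ ^ (2 * k + 1) * ‖φ t‖
            = ‖(r₀ : ℂ_[p])‖ * (‖(m : ℂ_[p])‖ ^ (2 * k) * (‖(m : ℂ_[p])‖ * ‖φ t‖)) := by ring
          _ ≤ 1 * (1 * 1) := by
              refine mul_le_mul hr1 (mul_le_mul h1 hle (by positivity) zero_le_one) (by positivity)
                zero_le_one
          _ = 1 := by norm_num
      · rw [not_le] at hle
        obtain ⟨a, d, ha, hd, had, hpos, hmt, -⟩ := hloc p φ u v t B hpar hle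
        have hne : Ξ - (d : ℂ) ^ 12 * κ ≠ 0 := by
          intro h0
          rw [h0, map_zero, norm_zero] at hpos
          exact lt_irrefl _ hpos
        have h1 := hrrv d hd ⟨a, by rw [hNdef, ← had]; ring⟩ hne p φ
        have h2 : Real.exp (-G) ≤ ‖φ (Ξ - (d : ℂ) ^ 12 * κ)‖ := by
          refine le_trans ?_ ((NFin_ge (p := p) (hrr0 d)).trans h1)
          rw [Real.exp_neg]
          exact inv_anti₀ (by exact_mod_cast hrr0 d) (hrrG d)
        have h3 : ‖(m : ℂ_[p])‖ * ‖φ t‖ ≤ Real.exp G := by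
          have h4 : ‖(m : ℂ_[p])‖ * (Real.exp (-G) * ‖φ t‖) ≤ 1 := by
            refine le_trans ?_ hmt
            exact mul_le_mul_of_nonneg_left (mul_le_mul_of_nonneg_right h2 (norm_nonneg _))
              (norm_nonneg _)
          have h5 : Real.exp G * (‖(m : ℂ_[p])‖ * (Real.exp (-G) * ‖φ t‖)) ≤ Real.exp G * 1 :=
            mul_le_mul_of_nonneg_left h4 (Real.exp_pos _).le
          have h6 : Real.exp G * Real.exp (-G) = 1 := by
            rw [← Real.exp_add, add_neg_cancel, Real.exp_zero]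
          calc ‖(m : ℂ_[p])‖ * ‖φ t‖ = Real.exp G * Real.exp (-G) * (‖(m : ℂ_[p])‖ * ‖φ t‖) := by
                rw [h6, one_mul]
            _ = Real.exp G * (‖(m : ℂ_[p])‖ * (Real.exp (-G) * ‖φ t‖)) := by ring
            _ ≤ Real.exp G := by rw [mul_one] at h5; exact h5
        have h7 := NFin_pow hkG (norm_nonneg _) hhalf (norm_nonneg (φ t)) h3
        calc ‖(r₀ : ℂ_[p])‖ * ‖(m : ℂ_[p])‖ ^ (2 * k + 1) * ‖φ t‖
            = ‖(r₀ : ℂ_[p])‖ * (‖(m : ℂ_[p])‖ ^ (2 * k + 1) * ‖φ t‖) := by ring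
          _ ≤ 1 * 1 := mul_le_mul hr1 h7 (by positivity) zero_le_one
          _ = 1 := one_mul 1
    · -- `p` does not divide `m`
      have hone := NFin_one (p := p) hpm
      rw [hone, one_pow, mul_one]
      by_cases hle : ‖φ t‖ ≤ 1
      · calc ‖(r₀ : ℂ_[p])‖ * ‖φ t‖ ≤ 1 * 1 := mul_le_mul hr1 hle (norm_nonneg _) zero_le_one
          _ = 1 := one_mul 1
      · rw [not_le] at hle
        obtain ⟨a, d, ha, hd, had, hpos, hmt, hdeg⟩ := hloc p φ u v t B hpar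
          (by rw [hφm, hone, one_mul]; exact hle)
        have hne : Ξ - (d : ℂ) ^ 12 * κ ≠ 0 := by
          intro h0
          rw [h0, map_zero, norm_zero] at hpos
          exact lt_irrefl _ hpos
        have h1 := hr₀v a d ha hd had hne (hdeg hpm) p φ
        rw [hone, one_mul] at hmt
        exact (mul_le_mul_of_nonneg_right h1 (norm_nonneg _)).trans hmt

end Pool.Agent.LGO.PS
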