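import Mathlib
import Pool.Agent.LGO.PA.Tate
import Pool.Agent.LGO.PS.Asy
import Pool.Agent.Hhelper14.ZP.JFun

/-!
# LGO/PS: `E₄ ^ 3` as a power series in `1 / j`

`exists_F`: a power series `F` with integral coefficients such that `E₄(q) ^ 3 = F(1 / j(q))` in `ℂ_[p]`, and its complex
counterpart.
-/

namespace Pool.Agent.LGO.PS

open PowerSeries Filter Asymptotics Topology Pool.Agent.LGO.PA Pool.Agent.Hhelper14.ZP UpperHalfPlane
open scoped ArithmeticFunction.sigma

/-- an analytic function has an asymptotic expansion -/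
theorem asy_analytic {g : ℂ → ℂ} (hg : AnalyticAt ℂ g 0) : ∃ A : ℂ⟦X⟧, Asy g A := by
  obtain ⟨P, r, hP⟩ := hg
  have hr := hP.r_pos
  obtain ⟨ρ, hρ0, hρ⟩ : ∃ ρ : ℝ, 0 < ρ ∧ ∀ z : ℂ, ‖z‖ < ρ → z ∈ Metric.eball (0 : ℂ) r := by
    have h1 : Metric.eball (0 : ℂ) r ∈ 𝓝 (0 : ℂ) := Metric.eball_mem_nhds _ hr
    obtain ⟨ρ, hρ, h2⟩ := Metric.mem_nhds_iff.1 h1
    exact ⟨ρ, hρ, fun z hz => h2 (by rwa [Metric.mem_ball, dist_zero_right])⟩
  refine ⟨PowerSeries.mk P.coeff, asy_hasSum hρ0 fun z hz => ?_⟩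
  have h1 := hP.hasSum (hρ z hz)
  rw [zero_add] at h1
  have h2 : (fun n => (P n fun _ => z)) = fun n => P.coeff n * z ^ n := by
    funext n
    rw [FormalMultilinearSeries.apply_eq_pow_smul_coeff, smul_eq_mul, mul_comm]
  rwa [h2] at h1

private theorem FSer_sA0 : coeff 0 sA = 0 := by
  rw [sA, coeff_mk, ArithmeticFunction.map_zero, Nat.cast_zero]

private theorem FSer_sB0 : coeff 0 sB = 0 := by
  rw [sB, coeff_mk, ArithmeticFunction.map_zero, Nat.cast_zero]

private theorem FSer_mul0 {A B : ℤ⟦X⟧} (hA : coeff 0 A = 0) : coeff 0 (A * B) = 0 := by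
  rw [coeff_mul]
  simp [hA]

private theorem FSer_mul1 {A B : ℤ⟦X⟧} (hA : coeff 0 A = 0) (hB : coeff 0 B = 0) :
    coeff 1 (A * B) = 0 := by
  rw [coeff_mul]
  rw [show Finset.HasAntidiagonal.antidiagonal (1 : ℕ) = {(0, 1), (1, 0)} from rfl]
  rw [Finset.sum_pair (by decide), hA, hB, zero_mul, mul_zero, add_zero]

private theorem FSer_Ds0 : coeff 0 Ds = 0 := by
  have h1 : coeff 0 (PowerSeries.mk (fun n => (5 * (ArithmeticFunction.sigma 3 n : ℤ) +
      7 * (ArithmeticFunction.sigma 5 n : ℤ)) / 12)) = 0 := by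
    rw [coeff_mk, ArithmeticFunction.map_zero, ArithmeticFunction.map_zero]
    norm_num
  rw [Ds, map_sub, map_add, map_add, h1, coeff_C_mul, coeff_C_mul, coeff_C_mul, pow_succ, pow_succ,
    pow_zero, one_mul, FSer_mul0 FSer_sA0, pow_succ, FSer_mul0 (by
      rw [pow_succ, pow_succ, pow_zero, one_mul]; exact FSer_mul0 FSer_sA0), pow_succ, pow_succ,
    pow_zero, one_mul, FSer_mul0 FSer_sB0]
  norm_num

private theorem FSer_Ds1 : coeff 1 Ds = 1 := by
  have h1 : coeff 1 (PowerSeries.mk (fun n => (5 * (ArithmeticFunction.sigma 3 n : ℤ) +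
      7 * (ArithmeticFunction.sigma 5 n : ℤ)) / 12)) = 1 := by
    rw [coeff_mk, ArithmeticFunction.sigma_one, ArithmeticFunction.sigma_one]
    norm_num
  rw [Ds, map_sub, map_add, map_add, h1, coeff_C_mul, coeff_C_mul, coeff_C_mul, pow_succ, pow_succ,
    pow_zero, one_mul, FSer_mul1 FSer_sA0 FSer_sA0, pow_succ, FSer_mul1 (by
      rw [pow_succ, pow_succ, pow_zero, one_mul]; exact FSer_mul0 FSer_sA0) FSer_sA0, pow_succ,
    pow_succ, pow_zero, one_mul, FSer_mul1 FSer_sB0 FSer_sB0]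
  norm_num

private theorem FSer_E43 : coeff 0 (E4s ^ 3) = 1 := by
  rw [coeff_zero_eq_constantCoeff_apply, map_pow, ← coeff_zero_eq_constantCoeff_apply]
  rw [E4s, map_add, coeff_C_mul, FSer_sA0, mul_zero, add_zero, coeff_zero_one, one_pow]

/-- the series `1 / j` -/
private theorem FSer_R : ∃ R : ℤ⟦X⟧, R * E4s ^ 3 = Ds ∧ coeff 0 R = 0 ∧ coeff 1 R = 1 := by
  have hc : constantCoeff (E4s ^ 3) = ((1 : ℤˣ) : ℤ) := by
    rw [← coeff_zero_eq_constantCoeff_apply, FSer_E43, Units.val_one]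
  have hI := PowerSeries.mul_invOfUnit (E4s ^ 3) 1 hc
  refine ⟨Ds * PowerSeries.invOfUnit (E4s ^ 3) 1, ?_, ?_, ?_⟩
  · rw [mul_assoc, mul_comm _ (E4s ^ 3), hI, mul_one]
  · exact FSer_mul0 FSer_Ds0
  · have hI0 : coeff 0 (PowerSeries.invOfUnit (E4s ^ 3) 1) = 1 := by
      rw [coeff_zero_eq_constantCoeff_apply, constantCoeff_invOfUnit, inv_one, Units.val_one]
    rw [coeff_mul]
    rw [show Finset.HasAntidiagonal.antidiagonal (1 : ℕ) = {(0, 1), (1, 0)} from rfl]
    rw [Finset.sum_pair (by decide), FSer_Ds0, FSer_Ds1, hI0, zero_mul, zero_add, mul_one]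

private theorem FSer_asyA : Asy serA (sA.map (Int.castRingHom ℂ)) := by
  have h := asy_hasSum (g := serA) (a := fun n => (σ 3 n : ℂ)) one_pos fun z hz => hasSum_serA hz
  have e : sA.map (Int.castRingHom ℂ) = PowerSeries.mk fun n => (σ 3 n : ℂ) := by
    ext n
    rw [coeff_map, sA, coeff_mk, coeff_mk]
    simp
  rwa [e]

private theorem FSer_asyB : Asy serB (sB.map (Int.castRingHom ℂ)) := by
  have h := asy_hasSum (g := serB) (a := fun n => (σ 5 n : ℂ)) one_pos fun z hz => hasSum_serB hz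
  have e : sB.map (Int.castRingHom ℂ) = PowerSeries.mk fun n => (σ 5 n : ℂ) := by
    ext n
    rw [coeff_map, sB, coeff_mk, coeff_mk]
    simp
  rwa [e]

/-- `E₄ ^ 3` on the disc -/
private noncomputable def FSer_e (z : ℂ) : ℂ := (1 + 240 * serA z) ^ 3

private theorem FSer_asyE : Asy FSer_e ((E4s ^ 3).map (Int.castRingHom ℂ)) := by
  have h1 := ((asy_const 1).add ((asy_const 240).mul FSer_asyA)).pow 3
  have e : (E4s ^ 3).map (Int.castRingHom ℂ) = (C 1 + C 240 * sA.map (Int.castRingHom ℂ)) ^ 3 := by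
    rw [map_pow, E4s, map_add, map_mul, map_one, PowerSeries.map_C]
    simp
  rw [e]
  exact h1

private theorem FSer_asyD : Asy serDelta (Ds.map (Int.castRingHom ℂ)) := by
  have h0 : Asy (fun z => (5 * serA z + 7 * serB z) / 12) (PowerSeries.map (Int.castRingHom ℂ)
      (PowerSeries.mk (fun n => (5 * (σ 3 n : ℤ) + 7 * (σ 5 n : ℤ)) / 12))) := by
    have h1 := (asy_const (1 / 12)).mul (((asy_const 5).mul FSer_asyA).add ((asy_const 7).mul FSer_asyB))
    have e : PowerSeries.map (Int.castRingHom ℂ)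
        (PowerSeries.mk (fun n => (5 * (σ 3 n : ℤ) + 7 * (σ 5 n : ℤ)) / 12)) =
        C (1 / 12) * (C 5 * sA.map (Int.castRingHom ℂ) + C 7 * sB.map (Int.castRingHom ℂ)) := by
      ext n
      rw [coeff_map, coeff_mk, coeff_C_mul, map_add, coeff_C_mul, coeff_C_mul, coeff_map, coeff_map, sA, sB,
        coeff_mk, coeff_mk]
      obtain ⟨m, hm⟩ := twelve_dvd n
      rw [hm, Int.mul_ediv_cancel_left _ (by norm_num)]
      have h2 : (5 * (σ 3 n : ℂ) + 7 * (σ 5 n : ℂ)) = 12 * m := by exact_mod_cast hm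
      simp only [eq_intCast, Int.cast_natCast]
      rw [h2]
      ring
    rw [e]
    refine h1.congr (Eventually.of_forall fun z => ?_)
    change 1 / 12 * (5 * serA z + 7 * serB z) = _
    ring
  have h1 := ((h0.add ((asy_const 100).mul (FSer_asyA.pow 2))).add
    ((asy_const 8000).mul (FSer_asyA.pow 3))).sub ((asy_const 147).mul (FSer_asyB.pow 2))
  have e : Ds.map (Int.castRingHom ℂ) = PowerSeries.map (Int.castRingHom ℂ)
      (PowerSeries.mk (fun n => (5 * (σ 3 n : ℤ) + 7 * (σ 5 n : ℤ)) / 12)) +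
      C 100 * sA.map (Int.castRingHom ℂ) ^ 2 + C 8000 * sA.map (Int.castRingHom ℂ) ^ 3 -
      C 147 * sB.map (Int.castRingHom ℂ) ^ 2 := by
    rw [Ds]
    simp only [map_sub, map_add, map_mul, map_pow, PowerSeries.map_C]
    norm_num
  rw [e]
  exact h1

private theorem FSer_anA : AnalyticAt ℂ serA 0 :=
  (good_serA.differentiableOn.analyticAt (Metric.ball_mem_nhds 0 one_pos))

private theorem FSer_anE : AnalyticAt ℂ FSer_e 0 :=
  (analyticAt_const.add (analyticAt_const.mul FSer_anA)).pow 3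

private theorem FSer_anD : AnalyticAt ℂ serDelta 0 :=
  (good_serDelta.differentiableOn.analyticAt (Metric.ball_mem_nhds 0 one_pos))

private theorem FSer_e0 : FSer_e 0 = 1 := by
  rw [FSer_e, serA_zero]
  norm_num

/-- `1 / j` on the disc -/
private noncomputable def FSer_rho (z : ℂ) : ℂ := serDelta z / FSer_e z

private theorem FSer_anR : AnalyticAt ℂ FSer_rho 0 :=
  FSer_anD.div FSer_anE (by rw [FSer_e0]; exact one_ne_zero)

private theorem FSer_asyR {R : ℤ⟦X⟧} (hR : R * E4s ^ 3 = Ds) :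
    Asy FSer_rho (R.map (Int.castRingHom ℂ)) := by
  obtain ⟨P, hP⟩ := asy_analytic FSer_anR
  have h1 := hP.mul FSer_asyE
  have h2 : Asy serDelta (P * (E4s ^ 3).map (Int.castRingHom ℂ)) := by
    refine h1.congr ?_
    have h3 : ∀ᶠ z in 𝓝 (0 : ℂ), FSer_e z ≠ 0 :=
      FSer_anE.continuousAt.eventually_ne (by rw [FSer_e0]; exact one_ne_zero)
    filter_upwards [h3] with z hz
    rw [FSer_rho, div_mul_cancel₀ _ hz]
  have h3 := h2.unique FSer_asyD
  rw [← hR, map_mul] at h3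
  have h4 : (E4s ^ 3).map (Int.castRingHom ℂ) ≠ 0 := by
    intro h
    have h5 := congrArg (coeff 0) h
    rw [coeff_map, FSer_E43, map_one, map_zero] at h5
    exact one_ne_zero h5
  have h5 := mul_right_cancel₀ h4 h3
  rwa [h5] at hP

/-- `E₄ ^ 3` as a power series in `1 / j` -/
theorem exists_F : ∃ (F : ℤ⟦X⟧) (f : ℂ → ℂ) (Y : ℝ), coeff 0 F = 1 ∧
    (∀ (p : ℕ) [Fact p.Prime] (q : ℂ_[p]), 0 < ‖q‖ → ‖q‖ < 1 →
      ev (Int.castRingHom ℂ_[p]) F (jP q)⁻¹ = E4P q ^ 3) ∧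
    AnalyticAt ℂ f 0 ∧ Asy f (F.map (Int.castRingHom ℂ)) ∧
    ∀ τ : ℍ, Y ≤ τ.im → f (jInv τ)⁻¹ = ModularForm.E₄ τ ^ 3 := by
  obtain ⟨R, hR, hR0, hR1⟩ := FSer_R
  obtain ⟨F, hF⟩ := exists_outer (E4s ^ 3) R hR0 hR1
  -- the inverse function of `1 / j`
  have hρ := FSer_anR
  have hρ0 : FSer_rho 0 = 0 := by
    rw [FSer_rho, serDelta, serA_zero, serB_zero]
    norm_num
  have hRX : (X : ℂ⟦X⟧) ^ 2 ∣ R.map (Int.castRingHom ℂ) - X := by
    rw [X_pow_dvd_iff]
    intro n hn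
    rw [map_sub, coeff_map]
    interval_cases n
    · rw [hR0, map_zero, coeff_zero_X, sub_zero]
    · rw [hR1, map_one, coeff_one_X, sub_self]
  have hX : Asy (fun z => z) (X : ℂ⟦X⟧) := by
    have h := asy_poly Polynomial.X
    rw [Polynomial.coe_X] at h
    exact h.congr (Eventually.of_forall fun z => Polynomial.eval_X)
  have hρ1 : deriv FSer_rho 0 = 1 := by
    have h1 := ((FSer_asyR hR).sub hX).order hRX
    have h2 : HasDerivAt FSer_rho 1 0 := by
      rw [hasDerivAt_iff_isLittleO_nhds_zero]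
      have h3 : (fun z : ℂ => z ^ 2) =o[𝓝 0] fun z : ℂ => z := by
        have := isLittleO_pow_id (𝕜 := ℂ) (n := 2) (by norm_num)
        exact this
      refine (h1.trans_isLittleO h3).congr_left fun z => ?_
      rw [zero_add, hρ0]
      simp
    exact h2.deriv
  have hne : deriv FSer_rho 0 ≠ 0 := by rw [hρ1]; exact one_ne_zero
  obtain ⟨χ, hχ⟩ : ∃ χ : ℂ → ℂ, χ = hρ.hasStrictDerivAt.localInverse _ _ _ hne := ⟨_, rfl⟩
  have hχa : AnalyticAt ℂ χ 0 := by
    have := hρ.analyticAt_localInverse hne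
    rw [hρ0, ← hχ] at this
    exact this
  have hl : ∀ᶠ z in 𝓝 (0 : ℂ), χ (FSer_rho z) = z := by
    rw [hχ]
    exact HasStrictDerivAt.eventually_left_inverse ..
  have hrr : ∀ᶠ z in 𝓝 (0 : ℂ), FSer_rho (χ z) = z := by
    have := HasStrictDerivAt.eventually_right_inverse (hf := hρ.hasStrictDerivAt) (hf' := hne)
    rwa [hρ0, ← hχ] at this
  have hχ0 : χ 0 = 0 := by
    have := hl.self_of_nhds
    rwa [hρ0] at this
  have hχt : Tendsto χ (𝓝 0) (𝓝 0) := by
    have := hχa.continuousAt.tendsto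
    rwa [hχ0] at this
  have hχO : χ =O[𝓝 0] fun z : ℂ => z := by
    have := hχa.differentiableAt.hasDerivAt.isBigO_sub
    simpa [hχ0] using this
  obtain ⟨ε, hε, hlε⟩ := Metric.eventually_nhds_iff.1 hl
  refine ⟨F, fun w => FSer_e (χ w), 1 + |Real.log ε|, ?_, ?_, ?_, ?_, ?_⟩
  · rw [← hF.zero, FSer_E43]
  · intro p _ q hq0 hq
    have h1 := ev_cmp castHom_norm_le hq hF hR0
    rw [ev_pow castHom_norm_le hq] at h1
    have h2 : ev (Int.castRingHom ℂ_[p]) R q = (jP q)⁻¹ := by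
      have h3 := congrArg (fun A => ev (Int.castRingHom ℂ_[p]) A q) hR
      simp only [ev_mul castHom_norm_le hq, ev_pow castHom_norm_le hq] at h3
      have h4 : E4P q ^ 3 ≠ 0 := by
        have h5 : ‖E4P q ^ 3‖ = 1 := by rw [norm_pow, E4P_norm hq, one_pow]
        intro h6
        rw [h6, norm_zero] at h5
        exact zero_ne_one h5
      rw [jP, inv_div, eq_div_iff h4]
      exact h3
    rw [h2] at h1
    exact h1.symm
  · have h1 : AnalyticAt ℂ FSer_e (χ 0) := by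
      rw [hχ0]
      exact FSer_anE
    exact h1.comp hχa
  · intro n
    have h1 : Asy (fun z => FSer_e z - ∑ k ∈ Finset.range n,
        coeff k (F.map (Int.castRingHom ℂ)) * FSer_rho z ^ k)
        ((E4s ^ 3).map (Int.castRingHom ℂ) - ∑ k ∈ Finset.range n,
          C (coeff k (F.map (Int.castRingHom ℂ))) * R.map (Int.castRingHom ℂ) ^ k) :=
      FSer_asyE.sub (Asy.sum _ fun k _ => (asy_const _).mul ((FSer_asyR hR).pow k))
    have h2 := h1.order (hF.map (Int.castRingHom ℂ) n)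
    have h3 := h2.comp_tendsto hχt
    have h4 := h3.trans (hχO.pow n)
    refine h4.congr' ?_ EventuallyEq.rfl
    filter_upwards [hrr] with w hw
    simp only [Function.comp_apply, hw]
  · intro τ hτ
    have hq : ‖Function.Periodic.qParam 1 (τ : ℂ)‖ < ε := by
      rw [Function.Periodic.norm_qParam, div_one]
      rw [← Real.lt_log_iff_exp_lt hε]
      have h1 : -|Real.log ε| ≤ Real.log ε := neg_abs_le _
      have h2 : (τ : ℂ).im = τ.im := rfl
      rw [h2]
      have h3 : 0 ≤ |Real.log ε| := abs_nonneg _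
      have h4 : 1 + |Real.log ε| ≤ 2 * Real.pi * τ.im := by
        have h5 : 1 ≤ 2 * Real.pi := by linarith [Real.pi_gt_three]
        calc 1 + |Real.log ε| ≤ τ.im := hτ
          _ = 1 * τ.im := (one_mul _).symm
          _ ≤ 2 * Real.pi * τ.im := mul_le_mul_of_nonneg_right h5 τ.im_pos.le
      linarith
    have h1 := hlε (y := Function.Periodic.qParam 1 (τ : ℂ)) (by rwa [dist_zero_right])
    have h2 : FSer_rho (Function.Periodic.qParam 1 (τ : ℂ)) = (jInv τ)⁻¹ := by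
      rw [FSer_rho, FSer_e, ← disc_eq, ← E4_eq, jInv, inv_div]
    rw [← h2]
    change FSer_e (χ (FSer_rho (Function.Periodic.qParam 1 (τ : ℂ)))) = _
    rw [h1, FSer_e, ← E4_eq]

end Pool.Agent.LGO.PS
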