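import Mathlib
import Pool.Agent.LGO.PS.NDef
import Pool.Agent.LGO.PS.FSer

/-!
# LGO/PS: the formal series `S` of the two functions

`exists_S`: construction of the series, its values in `ℂ_[p]`, and the complex identity near infinity if `S = 0`.
-/

namespace Pool.Agent.LGO.PS

open Polynomial Filter Asymptotics Topology Pool.Agent.Hhelper14.ZP Pool.Agent.Hhelper14.ZPL Pool.Agent.LGO
  Pool.Agent.LGO.U Pool.Agent.LGO.PA UpperHalfPlane

/-- a multiple of an algebraic number is integral -/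
private theorem SSer_den (a : Qb) : ∃ m : ℕ, 0 < m ∧ ∀ k : ℕ, m ∣ k → (k : ℂ) * (a : ℂ) ∈ OO := by
  have ha : IsAlgebraic ℚ (a : ℂ) := mem_algebraicClosure_iff.1 a.2
  have h1 : IsAlgebraic ℤ (a : ℂ) := (IsFractionRing.isAlgebraic_iff ℤ ℚ ℂ).2 ha
  obtain ⟨y, hy, hint⟩ := h1.exists_integral_multiple
  refine ⟨y.natAbs, Int.natAbs_pos.2 hy, fun k hk => ?_⟩
  obtain ⟨j, rfl⟩ := hk
  have h2 : ((y.natAbs * j : ℕ) : ℂ) * (a : ℂ) = (j : ℂ) * ((y.natAbs : ℂ) * (a : ℂ)) := by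
    push_cast
    ring
  rw [h2]
  have h3 : (y : ℂ) * (a : ℂ) ∈ OO := by
    have h4 : y • (a : ℂ) = (y : ℂ) * (a : ℂ) := by rw [zsmul_eq_mul]
    rw [h4] at hint
    exact hint
  refine OO.mul_mem (natCast_mem_OO j) ?_
  rcases Int.natAbs_eq y with h | h
  · have h5 : ((y.natAbs : ℕ) : ℂ) = (y : ℂ) := by
      conv_rhs => rw [h]
      rw [Int.cast_natCast]
    rw [h5]
    exact h3
  · have h5 : ((y.natAbs : ℕ) : ℂ) = -(y : ℂ) := by
      conv_rhs => rw [h]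
      rw [Int.cast_neg, Int.cast_natCast, neg_neg]
    rw [h5, neg_mul]
    exact OO.neg_mem h3

/-- the reversed polynomial with integral coefficients -/
private theorem SSer_red (P : Polynomial Qb) (c : Qb) (n : ℕ) (hn : P.natDegree ≤ n)
    (h0 : ((P.coeff n / c : Qb) : ℂ) ∈ OO) :
    ∃ m₀ : ℕ, 0 < m₀ ∧ ∀ m : ℕ, m₀ ∣ m → 0 < m → ∃ P' : Polynomial OO,
      ((P'.coeff 0 : OO) : ℂ) = ((P.coeff n / c : Qb) : ℂ) ∧
      ∀ t : ℂ, t ≠ 0 → (P'.map OO.subtype).eval (((m : ℂ) * t)⁻¹) = (aeval t P : ℂ) / ((c : ℂ) * t ^ n) := by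
  choose d hd0 hd using SSer_den
  refine ⟨∏ i ∈ Finset.range (n + 1), d (P.coeff (n - i) / c), Finset.prod_pos fun i _ => hd0 _,
    fun m hm hm0 => ?_⟩
  have key : ∀ i ∈ Finset.range (n + 1), ((P.coeff (n - i) / c : Qb) : ℂ) * (m : ℂ) ^ i ∈ OO := by
    intro i hi
    rcases Nat.eq_zero_or_pos i with rfl | hi0
    · rw [Nat.sub_zero, pow_zero, mul_one]
      exact h0
    · have h1 : d (P.coeff (n - i) / c) ∣ m ^ i :=
        ((Finset.dvd_prod_of_mem _ hi).trans hm).trans (dvd_pow_self m hi0.ne')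
      have h2 := hd _ _ h1
      rw [mul_comm]
      push_cast at h2
      exact h2
  classical
  let a : ℕ → OO := fun i => if h : i ∈ Finset.range (n + 1) then
    ⟨((P.coeff (n - i) / c : Qb) : ℂ) * (m : ℂ) ^ i, key i h⟩ else 0
  have ha : ∀ i ∈ Finset.range (n + 1), (a i : ℂ) = ((P.coeff (n - i) / c : Qb) : ℂ) * (m : ℂ) ^ i := by
    intro i hi
    simp only [a, dif_pos hi]
  refine ⟨∑ i ∈ Finset.range (n + 1), Polynomial.monomial i (a i), ?_, fun t ht => ?_⟩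
  · rw [Polynomial.finsetSum_coeff]
    rw [Finset.sum_eq_single 0]
    · rw [Polynomial.coeff_monomial_same, ha 0 (by simp), pow_zero, mul_one, Nat.sub_zero]
    · intro i _ hi
      rw [Polynomial.coeff_monomial, if_neg hi]
    · intro h
      exact absurd (Finset.mem_range.2 (Nat.succ_pos n)) h
  · have hm1 : (m : ℂ) ≠ 0 := by exact_mod_cast hm0.ne'
    rw [Polynomial.map_sum, Polynomial.eval_finsetSum]
    have h1 : (aeval t P : ℂ) = ∑ i ∈ Finset.range (n + 1), ((P.coeff i : Qb) : ℂ) * t ^ i := by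
      rw [aeval_eq_sum_range' (Nat.lt_succ_of_le hn)]
      refine Finset.sum_congr rfl fun i _ => ?_
      rw [Algebra.smul_def]
      rfl
    rw [h1, Finset.sum_div, ← Finset.sum_range_reflect
      (fun i => ((P.coeff i : Qb) : ℂ) * t ^ i / ((c : ℂ) * t ^ n)) (n + 1)]
    refine Finset.sum_congr rfl fun i hi => ?_
    have hi' : i ≤ n := Nat.lt_succ_iff.1 (Finset.mem_range.1 hi)
    rw [Polynomial.map_monomial, Polynomial.eval_monomial]
    have h2 : OO.subtype (a i) = ((P.coeff (n - i) / c : Qb) : ℂ) * (m : ℂ) ^ i := ha i hi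
    have h3 : ((P.coeff (n - i) / c : Qb) : ℂ) = ((P.coeff (n - i) : Qb) : ℂ) / (c : ℂ) := rfl
    rw [h2, h3, Nat.add_sub_cancel]
    have h4 : t ^ n = t ^ (n - i) * t ^ i := by rw [← pow_add, Nat.sub_add_cancel hi']
    rw [h4, mul_inv, mul_pow, inv_pow, inv_pow]
    have h5 : t ^ i ≠ 0 := pow_ne_zero _ ht
    have h6 : t ^ (n - i) ≠ 0 := pow_ne_zero _ ht
    have h7 : (m : ℂ) ^ i ≠ 0 := pow_ne_zero _ hm1
    field_simp

/-- the values of a polynomial over `OO` -/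
private theorem SSer_ev {p : ℕ} [Fact p.Prime] (φ : ℂ →+* ℂ_[p]) {y : ℂ}
    (hy : ‖φ y‖ < 1) (P : Polynomial OO) :
    ev (sO φ) (P : PowerSeries OO) (φ y) = φ ((P.map OO.subtype).eval y) := by
  have hf := sO_norm_le φ
  induction P using Polynomial.induction_on' with
  | add P Q hP hQ =>
    rw [Polynomial.coe_add, ev_add hf hy, hP, hQ, Polynomial.map_add, Polynomial.eval_add, map_add]
  | monomial n a =>
    rw [Polynomial.coe_monomial, PowerSeries.monomial_eq_C_mul_X_pow, ev_mul hf hy, ev_pow hf hy, ev_C, ev_X,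
      Polynomial.map_monomial, Polynomial.eval_monomial, map_mul, map_pow]
    rfl

/-- an inverse of a series with constant coefficient `1` -/
private theorem SSer_inv (A : PowerSeries OO) (hA : PowerSeries.coeff 0 A = 1) :
    ∃ I : PowerSeries OO, I * A = 1 := by
  have hc : PowerSeries.constantCoeff A = ((1 : OOˣ) : OO) := by
    rw [← PowerSeries.coeff_zero_eq_constantCoeff_apply, hA, Units.val_one]
  refine ⟨PowerSeries.invOfUnit A 1, ?_⟩
  rw [mul_comm]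
  exact PowerSeries.mul_invOfUnit A 1 hc

/-- the series for one of the two functions: `Pa = A(t) / (lc t ^ n)`, `W = B / A`, `H = E₄ ^ 3` -/
private theorem SSer_one {A B : Polynomial Qb} (h : B.natDegree < A.natDegree) {F : PowerSeries ℤ} {f : ℂ → ℂ}
    {Y : ℝ} (hF0 : PowerSeries.coeff 0 F = 1)
    (hFp : ∀ (p : ℕ) [Fact p.Prime] (q : ℂ_[p]), 0 < ‖q‖ → ‖q‖ < 1 →
      ev (Int.castRingHom ℂ_[p]) F (jP q)⁻¹ = E4P q ^ 3)
    (hfF : Asy f (F.map (Int.castRingHom ℂ)))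
    (hfY : ∀ τ : ℍ, Y ≤ τ.im → f (jInv τ)⁻¹ = ModularForm.E₄ τ ^ 3) :
    ∃ m₀ : ℕ, 0 < m₀ ∧ ∀ m : ℕ, m₀ ∣ m → 0 < m → ∃ (P : Polynomial OO) (H : PowerSeries OO) (w : ℂ → ℂ),
      PowerSeries.coeff 0 (P : PowerSeries OO) = 1 ∧ PowerSeries.coeff 0 H = 1 ∧
      (∀ t : ℂ, t ≠ 0 → (P.map OO.subtype).eval (((m : ℂ) * t)⁻¹) =
        (aeval t A : ℂ) / (((A.leadingCoeff : Qb) : ℂ) * t ^ A.natDegree)) ∧
      (∀ (p : ℕ) [Fact p.Prime] (φ : ℂ →+* ℂ_[p]) (u t : ℂ) (q : ℂ_[p]),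
        (aeval t A : ℂ) = u * aeval t B → 1 < ‖φ ((m : ℂ) * t)‖ → 0 < ‖q‖ → ‖q‖ < 1 → φ u = jP q →
          ev (sO φ) H (φ (((m : ℂ) * t)⁻¹)) = E4P q ^ 3) ∧
      AnalyticAt ℂ w 0 ∧ w 0 = 0 ∧ Asy (fun z => f (w z)) (H.map OO.subtype) ∧
      ∃ R : ℝ, ∀ (t : ℂ) (τ : ℍ), R < ‖t‖ → Y ≤ τ.im → (aeval t A : ℂ) = jInv τ * aeval t B →
        f (w (((m : ℂ) * t)⁻¹)) = ModularForm.E₄ τ ^ 3 := by
  have hA0 : A ≠ 0 := by
    rintro rfl
    simp at h
  have hc0 : A.leadingCoeff ≠ 0 := leadingCoeff_ne_zero.2 hA0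
  have hc0' : ((A.leadingCoeff : Qb) : ℂ) ≠ 0 := by
    intro h1
    exact hc0 (by exact_mod_cast h1)
  have e1 : ((A.coeff A.natDegree / A.leadingCoeff : Qb) : ℂ) = 1 := by
    rw [coeff_natDegree, div_self hc0]
    rfl
  have e0 : ((B.coeff A.natDegree / A.leadingCoeff : Qb) : ℂ) = 0 := by
    rw [coeff_eq_zero_of_natDegree_lt h, zero_div]
    rfl
  obtain ⟨m₁, hm₁, H₁⟩ := SSer_red A A.leadingCoeff A.natDegree le_rfl (by rw [e1]; exact OO.one_mem)
  obtain ⟨m₂, hm₂, H₂⟩ := SSer_red B A.leadingCoeff A.natDegree h.le (by rw [e0]; exact OO.zero_mem)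
  refine ⟨m₁ * m₂, Nat.mul_pos hm₁ hm₂, fun m hm hm0 => ?_⟩
  obtain ⟨P, hP0, hPe⟩ := H₁ m ((Dvd.intro _ rfl).trans hm) hm0
  obtain ⟨Q, hQ0, hQe⟩ := H₂ m ((Dvd.intro_left _ rfl).trans hm) hm0
  rw [e1] at hP0
  rw [e0] at hQ0
  have hP1 : PowerSeries.coeff 0 (P : PowerSeries OO) = 1 := by
    rw [Polynomial.coeff_coe]
    exact Subtype.ext hP0
  have hQ1 : PowerSeries.coeff 0 (Q : PowerSeries OO) = 0 := by
    rw [Polynomial.coeff_coe]
    exact Subtype.ext hQ0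
  obtain ⟨I, hI⟩ := SSer_inv _ hP1
  have hW0 : PowerSeries.coeff 0 ((Q : PowerSeries OO) * I) = 0 := by
    rw [PowerSeries.coeff_zero_eq_constantCoeff_apply, map_mul,
      ← PowerSeries.coeff_zero_eq_constantCoeff_apply, hQ1, zero_mul]
  obtain ⟨H, hH⟩ := exists_cmp (F.map (Int.castRingHom OO)) ((Q : PowerSeries OO) * I) hW0
  have hm1 : (m : ℂ) ≠ 0 := by exact_mod_cast hm0.ne'
  set w : ℂ → ℂ := fun z => (Q.map OO.subtype).eval z / (P.map OO.subtype).eval z with hw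
  have hPv : (P.map OO.subtype).eval 0 = 1 := by
    rw [← coeff_zero_eq_eval_zero, coeff_map]
    exact hP0
  have hQv : (Q.map OO.subtype).eval 0 = 0 := by
    rw [← coeff_zero_eq_eval_zero, coeff_map]
    exact hQ0
  have hwa : AnalyticAt ℂ w 0 := by
    exact AnalyticAt.div ((Polynomial.differentiable _).analyticAt 0)
      ((Polynomial.differentiable _).analyticAt 0) (by rw [hPv]; exact one_ne_zero)
  have hw0 : w 0 = 0 := by rw [hw]; simp only; rw [hQv, zero_div]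
  refine ⟨P, H, w, hP1, ?_, hPe, ?_, hwa, hw0, ?_, ?_⟩
  · rw [hH.zero, PowerSeries.coeff_map, hF0, map_one]
  · intro p _ φ u t q hu ht hq0 hq hφ
    have hf := sO_norm_le φ
    have ht0 : t ≠ 0 := by
      rintro rfl
      rw [mul_zero, map_zero, norm_zero] at ht
      linarith
    obtain ⟨x, hx⟩ : ∃ x : ℂ, x = ((m : ℂ) * t)⁻¹ := ⟨_, rfl⟩
    have hx1 : ‖φ x‖ < 1 := by
      rw [hx, map_inv₀, norm_inv]
      exact inv_lt_one_of_one_lt₀ ht
    rw [← hx]
    have hWP : (Q : PowerSeries OO) * I * (P : PowerSeries OO) = (Q : PowerSeries OO) := by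
      rw [mul_assoc, hI, mul_one]
    have h1 := congrArg (fun A => ev (sO φ) A (φ x)) hWP
    simp only [ev_mul hf hx1 (↑Q * I), SSer_ev φ hx1] at h1
    have hPn : ev (sO φ) (P : PowerSeries OO) (φ x) ≠ 0 := by
      intro h2
      have h3 : ‖ev (sO φ) ((P : PowerSeries OO) - 1) (φ x)‖ ≤ ‖φ x‖ ^ 1 := by
        refine ev_order hf hx1 _ 1 fun n hn => ?_
        interval_cases n
        rw [map_sub, hP1, PowerSeries.coeff_zero_one, sub_self]
      rw [ev_sub hf hx1, ev_one, h2, zero_sub, norm_neg, norm_one, pow_one] at h3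
      linarith
    rw [SSer_ev φ hx1] at hPn
    rw [hx, hPe t ht0, hQe t ht0, ← hx] at h1
    rw [hx, hPe t ht0] at hPn
    have hAt : (aeval t A : ℂ) ≠ 0 := by
      intro h2
      rw [h2, zero_div, map_zero] at hPn
      exact hPn rfl
    have hu0 : u ≠ 0 := by
      rintro rfl
      rw [zero_mul] at hu
      exact hAt hu
    have hB : (aeval t B : ℂ) = aeval t A / u := by
      rw [hu]
      field_simp
    have h2 : ev (sO φ) ((Q : PowerSeries OO) * I) (φ x) = (jP q)⁻¹ := by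
      rw [← hφ, ← map_inv₀]
      apply mul_right_cancel₀ hPn
      rw [h1, ← map_mul, hB]
      congr 1
      field_simp
    rw [ev_cmp hf hx1 hH hW0, h2]
    have h3 : ∀ y, ev (sO φ) (F.map (Int.castRingHom OO)) y = ev (Int.castRingHom ℂ_[p]) F y := by
      intro y
      have h4 : (sO φ).comp (Int.castRingHom OO) = Int.castRingHom ℂ_[p] := RingHom.ext_int _ _
      unfold ev
      refine tsum_congr fun n => ?_
      rw [PowerSeries.coeff_map, ← h4]
      rfl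
    rw [h3]
    exact hFp p q hq0 hq
  · -- the expansion
    obtain ⟨V, hV⟩ := asy_analytic hwa
    have h1 : Asy (fun z => (Q.map OO.subtype).eval z) (V * ((P.map OO.subtype : ℂ[X]) : PowerSeries ℂ)) := by
      refine (hV.mul (asy_poly _)).congr ?_
      have h3 : ∀ᶠ z in 𝓝 (0 : ℂ), (P.map OO.subtype).eval z ≠ 0 :=
        (Polynomial.continuous _).continuousAt.eventually_ne (by rw [hPv]; exact one_ne_zero)
      filter_upwards [h3] with z hz
      rw [hw]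
      simp only
      rw [div_mul_cancel₀ _ hz]
    have h2 := h1.unique (asy_poly _)
    have h3 : V = PowerSeries.map OO.subtype ((Q : PowerSeries OO) * I) := by
      have hPm : ((P.map OO.subtype : ℂ[X]) : PowerSeries ℂ) = PowerSeries.map OO.subtype (P : PowerSeries OO) := by
        ext n
        simp
      have hQm : ((Q.map OO.subtype : ℂ[X]) : PowerSeries ℂ) = PowerSeries.map OO.subtype (Q : PowerSeries OO) := by
        ext n
        simp
      have hne : PowerSeries.map OO.subtype (P : PowerSeries OO) ≠ 0 := by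
        intro h4
        have h5 := congrArg (PowerSeries.coeff 0) h4
        rw [PowerSeries.coeff_map, hP1, map_one, map_zero] at h5
        exact one_ne_zero h5
      apply mul_right_cancel₀ hne
      rw [← map_mul, mul_assoc, hI, mul_one, ← hQm, ← h2, hPm]
    rw [h3] at hV
    have h4 := hH.map OO.subtype
    have h5 : PowerSeries.map OO.subtype (F.map (Int.castRingHom OO)) = F.map (Int.castRingHom ℂ) := by
      ext n
      simp
    rw [h5] at h4
    refine Asy.comp hfF hV hw0 ?_ h4 hwa.continuousAt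
    rw [PowerSeries.coeff_map, hW0, map_zero]
  · have h3 : ∀ᶠ z in 𝓝 (0 : ℂ), (P.map OO.subtype).eval z ≠ 0 :=
      (Polynomial.continuous _).continuousAt.eventually_ne (by rw [hPv]; exact one_ne_zero)
    obtain ⟨ε, hε, h4⟩ := Metric.eventually_nhds_iff.1 h3
    have hmp : (0 : ℝ) < m := by exact_mod_cast hm0
    refine ⟨(m * ε)⁻¹, fun t τ ht hτ hu => ?_⟩
    have ht0 : t ≠ 0 := by
      rintro rfl
      rw [norm_zero] at ht
      have : 0 < ((m : ℝ) * ε)⁻¹ := by positivity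
      linarith
    have h5 : dist (((m : ℂ) * t)⁻¹) 0 < ε := by
      rw [dist_zero_right, norm_inv, norm_mul, Complex.norm_natCast]
      have htp : 0 < ‖t‖ := norm_pos_iff.2 ht0
      rw [inv_lt_comm₀ (by positivity) hε]
      rw [inv_lt_comm₀ (by positivity) htp] at ht
      have h6 : ‖t‖⁻¹ * ‖t‖ < (m * ε) * ‖t‖ := mul_lt_mul_of_pos_right ht htp
      rw [inv_mul_cancel₀ htp.ne'] at h6
      rw [inv_lt_iff_one_lt_mul₀ hε]
      linarith
    have h6 := h4 h5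
    rw [hPe t ht0] at h6
    have hAt : (aeval t A : ℂ) ≠ 0 := by
      intro h7
      rw [h7, zero_div] at h6
      exact h6 rfl
    have hj0 : jInv τ ≠ 0 := by
      intro h7
      rw [h7, zero_mul] at hu
      exact hAt hu
    have hBt : (aeval t B : ℂ) ≠ 0 := by
      intro h7
      rw [h7, mul_zero] at hu
      exact hAt hu
    have h7 : w (((m : ℂ) * t)⁻¹) = (jInv τ)⁻¹ := by
      rw [hw]
      simp only
      rw [hPe t ht0, hQe t ht0, hu]
      have h8 : t ^ A.natDegree ≠ 0 := pow_ne_zero _ ht0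
      field_simp
    rw [h7]
    exact hfY τ hτ

theorem exists_S {Aa Ba Ab Bb : Polynomial Qb} (hda : Ba.natDegree < Aa.natDegree)
    (hdb : Bb.natDegree < Ab.natDegree) :
    ∃ (m : ℕ) (S : PowerSeries OO), 0 < m ∧ PowerSeries.coeff 0 S = 0 ∧
      (∀ (p : ℕ) [Fact p.Prime] (φ : ℂ →+* ℂ_[p]) (u v t : ℂ) (qa qb : ℂ_[p]),
        (aeval t Aa : ℂ) = u * aeval t Ba → (aeval t Ab : ℂ) = v * aeval t Bb → 1 < ‖φ ((m : ℂ) * t)‖ →
        0 < ‖qa‖ → ‖qa‖ < 1 → 0 < ‖qb‖ → ‖qb‖ < 1 → φ u = jP qa → φ v = jP qb →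
          E4P qb ^ 3 * φ ((aeval t Aa : ℂ) / (((Aa.leadingCoeff : Qb) : ℂ) * t ^ Aa.natDegree)) -
            E4P qa ^ 3 * φ ((aeval t Ab : ℂ) / (((Ab.leadingCoeff : Qb) : ℂ) * t ^ Ab.natDegree)) =
              ev (sO φ) S (φ (((m : ℂ) * t)⁻¹))) ∧
      (S = 0 → ∃ Y R : ℝ, ∀ (t : ℂ) (τa τb : ℍ), R < ‖t‖ → Y ≤ τa.im → Y ≤ τb.im →
        (aeval t Aa : ℂ) = jInv τa * aeval t Ba → (aeval t Ab : ℂ) = jInv τb * aeval t Bb →
        ModularForm.E₄ τb ^ 3 * ((aeval t Aa : ℂ) / (((Aa.leadingCoeff : Qb) : ℂ) * t ^ Aa.natDegree)) =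
          ModularForm.E₄ τa ^ 3 * ((aeval t Ab : ℂ) / (((Ab.leadingCoeff : Qb) : ℂ) * t ^ Ab.natDegree))) := by
  obtain ⟨F, f, Y, hF0, hFp, hfa, hfF, hfY⟩ := exists_F
  obtain ⟨m₁, hm₁, H₁⟩ := SSer_one hda hF0 hFp hfF hfY
  obtain ⟨m₂, hm₂, H₂⟩ := SSer_one hdb hF0 hFp hfF hfY
  have hm0 : 0 < m₁ * m₂ := Nat.mul_pos hm₁ hm₂
  obtain ⟨P₁, S₁, w₁, hP₁, hS₁, hPe₁, hSp₁, hw₁, hw₁0, hSa₁, R₁, hR₁⟩ := H₁ _ (Dvd.intro m₂ rfl) hm0
  obtain ⟨P₂, S₂, w₂, hP₂, hS₂, hPe₂, hSp₂, hw₂, hw₂0, hSa₂, R₂, hR₂⟩ := H₂ _ (Dvd.intro_left m₁ rfl) hm0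
  obtain ⟨m, hm⟩ : ∃ m : ℕ, m = m₁ * m₂ := ⟨_, rfl⟩
  rw [← hm] at hm0 hPe₁ hSp₁ hR₁ hPe₂ hSp₂ hR₂
  refine ⟨m, S₂ * (P₁ : PowerSeries OO) - S₁ * (P₂ : PowerSeries OO), hm0, ?_, ?_, ?_⟩
  · have e : ∀ A B : PowerSeries OO, PowerSeries.coeff 0 A = 1 → PowerSeries.coeff 0 B = 1 →
        PowerSeries.coeff 0 (A * B) = 1 := by
      intro A B hA hB
      rw [PowerSeries.coeff_zero_eq_constantCoeff_apply, map_mul,
        ← PowerSeries.coeff_zero_eq_constantCoeff_apply, ← PowerSeries.coeff_zero_eq_constantCoeff_apply,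
        hA, hB, mul_one]
    rw [map_sub, e _ _ hS₂ hP₁, e _ _ hS₁ hP₂, sub_self]
  · intro p _ φ u v t qa qb hu hv ht hqa0 hqa hqb0 hqb hφu hφv
    have hf := sO_norm_le φ
    have ht0 : t ≠ 0 := by
      rintro rfl
      rw [mul_zero, map_zero, norm_zero] at ht
      linarith
    obtain ⟨x, hx⟩ : ∃ x : ℂ, x = ((m : ℂ) * t)⁻¹ := ⟨_, rfl⟩
    have hx1 : ‖φ x‖ < 1 := by
      rw [hx, map_inv₀, norm_inv]
      exact inv_lt_one_of_one_lt₀ ht
    have a1 := hSp₁ p φ u t qa hu ht hqa0 hqa hφu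
    have a2 := hSp₂ p φ v t qb hv ht hqb0 hqb hφv
    rw [← hx] at a1 a2 ⊢
    rw [ev_sub hf hx1, ev_mul hf hx1, ev_mul hf hx1, a1, a2, SSer_ev φ hx1, SSer_ev φ hx1, hx,
      hPe₁ t ht0, hPe₂ t ht0]
  · intro hS
    have h1 := (hSa₂.mul (asy_poly (P₁.map OO.subtype))).sub (hSa₁.mul (asy_poly (P₂.map OO.subtype)))
    have e : ∀ P : Polynomial OO, ((P.map OO.subtype : ℂ[X]) : PowerSeries ℂ) =
        PowerSeries.map OO.subtype (P : PowerSeries OO) := by
      intro P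
      ext n
      simp
    rw [e, e, ← map_mul, ← map_mul, ← map_sub, hS, map_zero] at h1
    have han : AnalyticAt ℂ (fun z => f (w₂ z) * (P₁.map OO.subtype).eval z -
        f (w₁ z) * (P₂.map OO.subtype).eval z) 0 := by
      have b1 : AnalyticAt ℂ (fun z => f (w₁ z)) 0 := by
        have : AnalyticAt ℂ f (w₁ 0) := by rw [hw₁0]; exact hfa
        exact this.comp hw₁
      have b2 : AnalyticAt ℂ (fun z => f (w₂ z)) 0 := by
        have : AnalyticAt ℂ f (w₂ 0) := by rw [hw₂0]; exact hfa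
        exact this.comp hw₂
      exact (b2.mul ((Polynomial.differentiable _).analyticAt 0)).sub
        (b1.mul ((Polynomial.differentiable _).analyticAt 0))
    obtain ⟨ε, hε, h4⟩ := Metric.eventually_nhds_iff.1 (asy_zero han h1)
    have hmp : (0 : ℝ) < m := by exact_mod_cast hm0
    refine ⟨Y, max (max R₁ R₂) (m * ε)⁻¹, fun t τa τb ht hYa hYb hua hub => ?_⟩
    have ht1 : R₁ < ‖t‖ := ((le_max_left _ _).trans (le_max_left _ _)).trans_lt ht
    have ht2 : R₂ < ‖t‖ := ((le_max_right _ _).trans (le_max_left _ _)).trans_lt ht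
    have ht3 : (m * ε)⁻¹ < ‖t‖ := (le_max_right _ _).trans_lt ht
    have ht0 : t ≠ 0 := by
      rintro rfl
      rw [norm_zero] at ht3
      have : 0 < ((m : ℝ) * ε)⁻¹ := by positivity
      linarith
    have h5 : dist (((m : ℂ) * t)⁻¹) 0 < ε := by
      rw [dist_zero_right, norm_inv, norm_mul, Complex.norm_natCast]
      have htp : 0 < ‖t‖ := norm_pos_iff.2 ht0
      rw [inv_lt_comm₀ (by positivity) htp] at ht3
      have h6 : ‖t‖⁻¹ * ‖t‖ < (m * ε) * ‖t‖ := mul_lt_mul_of_pos_right ht3 htp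
      rw [inv_mul_cancel₀ htp.ne'] at h6
      rw [inv_lt_iff_one_lt_mul₀ (by positivity)]
      linarith
    have h6 := h4 h5
    rw [hR₁ t τa ht1 hYa hua, hR₂ t τb ht2 hYb hub, hPe₁ t ht0, hPe₂ t ht0, sub_eq_zero] at h6
    exact h6

end Pool.Agent.LGO.PS
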