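import Mathlib
import Pool.Agent.LGO.PS.SSer
import Pool.Agent.LGO.PS.ArDefs

/-!
# LGO/PS: the series `S` is not `0`

`exists_sfam`: if `S = 0` then `G = 0` near `0` (`exists_S`, `LD.cal`), in contradiction to `GN`.
-/

namespace Pool.Agent.LGO.PS

open Polynomial Filter Topology Pool.Agent.Hhelper14.ZP Pool.Agent.Hhelper14.ZPL Pool.Agent.LGO
  Pool.Agent.LGO.U Pool.Agent.LGO.PA UpperHalfPlane Pool.Agent.LGO.AX

private theorem SFamX_aeval (P : Polynomial Qb) (t : ℂ) :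
    (aeval t P : ℂ) = (P.map (algebraMap Qb ℂ)).eval t := by
  rw [aeval_def, eval_map]

private theorem SFamX_lc (P : Polynomial Qb) :
    (P.map (algebraMap Qb ℂ)).leadingCoeff = ((P.leadingCoeff : Qb) : ℂ) :=
  leadingCoeff_map_of_injective (algebraMap Qb ℂ).injective P

private theorem SFamX_ne {P : Polynomial Qb} (hP : P ≠ 0) : ∀ᶠ s : ℂ in 𝓝[≠] 0, (aeval s⁻¹ P : ℂ) ≠ 0 := by
  have hP' : P.map (algebraMap Qb ℂ) ≠ 0 := (Polynomial.map_ne_zero_iff (algebraMap Qb ℂ).injective).2 hP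
  have hfin : {x : ℂ | (P.map (algebraMap Qb ℂ)).IsRoot x}.Finite := Polynomial.finite_setOfPred_isRoot hP'
  have h1 : ∀ᶠ x in Bornology.cobounded ℂ, x ∉ {x : ℂ | (P.map (algebraMap Qb ℂ)).IsRoot x} :=
    Bornology.isBounded_def.1 hfin.isBounded
  have h2 := (tendsto_inv₀_nhdsNE_zero (α := ℂ)).eventually h1
  filter_upwards [h2] with s hs h3
  rw [SFamX_aeval] at h3
  exact hs h3

/-- the imaginary part of a lift tends to infinity -/
private theorem SFamX_im {e : ℕ} (he : 0 < e) {ψ : ℂ → ℂ} (hψ : ContinuousAt ψ 0) (Y : ℝ) :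
    ∀ᶠ s : ℂ in 𝓝[≠] 0, ∀ w : ℂ, Complex.exp w = s → Y ≤ (zz e ψ w).im := by
  have h1 : ∀ᶠ s : ℂ in 𝓝[≠] 0, (ψ 0).im - 1 < (ψ s).im := by
    have h2 : Tendsto (fun s => (ψ s).im) (𝓝 0) (𝓝 (ψ 0).im) :=
      (Complex.continuous_im.continuousAt.comp hψ).tendsto
    exact (h2.eventually (lt_mem_nhds (by linarith))).filter_mono nhdsWithin_le_nhds
  have h2 : ∀ᶠ s : ℂ in 𝓝[≠] 0, Real.log ‖s‖ < -(2 * Real.pi * (|Y| + 1 + |(ψ 0).im|)) := by
    have h3 : Tendsto (fun s : ℂ => Real.log ‖s‖) (𝓝[≠] 0) atBot :=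
      Real.tendsto_log_nhdsNE_zero.comp (tendsto_norm_nhdsNE_zero.mono_right (nhdsWithin_mono _ fun x hx => ne_of_gt hx))
    exact h3.eventually_lt_atBot _
  filter_upwards [h1, h2] with s h3 h4 w hw
  have h5 : (zz e ψ w).im = -((e : ℝ) * Real.log ‖s‖ / (2 * Real.pi)) + (ψ s).im := by
    rw [zz, hw, Complex.add_im]
    congr 1
    have h6 : ((e : ℂ) * w / (2 * Real.pi * Complex.I)) = ((e / (2 * Real.pi) : ℝ) : ℂ) * (-(Complex.I * w)) := by
      push_cast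
      have h7 : (Real.pi : ℂ) ≠ 0 := by exact_mod_cast Real.pi_ne_zero
      field_simp
      rw [Complex.I_sq]
      ring
    have h8 : w.re = Real.log ‖s‖ := by rw [← hw, Complex.norm_exp, Real.log_exp]
    rw [h6, Complex.im_ofReal_mul, Complex.neg_im, Complex.I_mul_im, h8]
    ring
  rw [h5]
  have he1 : (1 : ℝ) ≤ e := by exact_mod_cast he
  have hpi : 0 < 2 * Real.pi := by positivity
  have hK : 0 ≤ |Y| + 1 + |(ψ 0).im| := by positivity
  have h6 : |Y| + 1 + |(ψ 0).im| ≤ -((e : ℝ) * Real.log ‖s‖ / (2 * Real.pi)) := by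
    have h7 : (e : ℝ) * Real.log ‖s‖ ≤ -(2 * Real.pi * (|Y| + 1 + |(ψ 0).im|)) := by
      have h8 : Real.log ‖s‖ ≤ 0 := by
        have : 0 ≤ 2 * Real.pi * (|Y| + 1 + |(ψ 0).im|) := by positivity
        linarith
      nlinarith
    rw [← neg_div, le_div_iff₀ hpi]
    linarith
  have h7 := neg_abs_le (ψ 0).im
  have h8 := le_abs_self Y
  linarith

theorem exists_sfam {Aa Ba Ab Bb : Polynomial Qb} (hda : Ba.natDegree < Aa.natDegree)
    (hdb : Bb.natDegree < Ab.natDegree) (hr : Aa.natDegree = Ab.natDegree)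
    {m l : ℕ} {r : ℝ} {ψa ψb G : ℂ → ℂ}
    (hL : LD (Aa.map (algebraMap Qb ℂ)) (Ba.map (algebraMap Qb ℂ)) (Ab.map (algebraMap Qb ℂ))
      (Bb.map (algebraMap Qb ℂ)) m l r ψa ψb G)
    (hG : GN (Aa.map (algebraMap Qb ℂ)) (Ba.map (algebraMap Qb ℂ)) (Ab.map (algebraMap Qb ℂ))
      (Bb.map (algebraMap Qb ℂ))) :
    ∃ (m₀ : ℕ) (S : PowerSeries OO), SFam Aa Ba Ab Bb m₀ S := by
  obtain ⟨m₀, S, hm₀, hS0, hval, hz⟩ := exists_S hda hdb
  refine ⟨m₀, S, hm₀, hS0, fun hS => ?_, hval⟩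
  obtain ⟨Y, R, hYR⟩ := hz hS
  have hAa0 : Aa ≠ 0 := by
    rintro rfl
    simp at hda
  have hAb0 : Ab ≠ 0 := by
    rintro rfl
    simp at hdb
  have hla : ((Aa.leadingCoeff : Qb) : ℂ) ≠ 0 := by
    intro h1
    exact leadingCoeff_ne_zero.2 hAa0 (by exact_mod_cast h1)
  have hlb : ((Ab.leadingCoeff : Qb) : ℂ) ≠ 0 := by
    intro h1
    exact leadingCoeff_ne_zero.2 hAb0 (by exact_mod_cast h1)
  have hball : Metric.ball (0 : ℂ) r ∈ 𝓝 (0 : ℂ) := Metric.ball_mem_nhds _ hL.r0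
  have hca : ContinuousAt ψa 0 := (hL.da.differentiableAt hball).continuousAt
  have hcb : ContinuousAt ψb 0 := (hL.db.differentiableAt hball).continuousAt
  -- `G = 0` near `0`
  have key : ∀ᶠ s : ℂ in 𝓝[≠] 0, G s = 0 := by
    have e1 := SFamX_im hL.m0 hca (max Y 1)
    have e2 := SFamX_im hL.l0 hcb (max Y 1)
    have e3 : ∀ᶠ s : ℂ in 𝓝[≠] 0, ‖s‖ < r := by
      filter_upwards [nhdsWithin_le_nhds hball] with s hs
      rwa [Metric.mem_ball, dist_zero_right] at hs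
    have e4 : ∀ᶠ s : ℂ in 𝓝[≠] 0, R < ‖s⁻¹‖ := by
      have h1 : Tendsto (fun s : ℂ => ‖s⁻¹‖) (𝓝[≠] 0) atTop := by
        exact tendsto_norm_inv_nhdsNE_zero_atTop
      exact h1.eventually_gt_atTop R
    have e5 : ∀ᶠ s : ℂ in 𝓝[≠] 0, (aeval s⁻¹ Aa : ℂ) ≠ 0 ∧ (aeval s⁻¹ Ab : ℂ) ≠ 0 := by
      exact (SFamX_ne hAa0).and (SFamX_ne hAb0)
    filter_upwards [e1, e2, e3, e4, e5, self_mem_nhdsWithin] with s h1 h2 h3 h4 h5 hs0
    have hs0' : s ≠ 0 := hs0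
    obtain ⟨w, hw⟩ : ∃ w : ℂ, Complex.exp w = s := ⟨Complex.log s, Complex.exp_log hs0'⟩
    have hwr : Real.exp w.re < r := by
      rw [← Complex.norm_exp, hw]
      exact h3
    have ht : Complex.exp (-w) = s⁻¹ := by rw [Complex.exp_neg, hw]
    obtain ⟨hza, hja⟩ := hL.za w hwr
    obtain ⟨hzb, hjb⟩ := hL.zb w hwr
    obtain ⟨hna, hnb⟩ := hL.ne w hwr
    have hcal := hL.cal w ⟨_, hza⟩ ⟨_, hzb⟩ hwr rfl rfl
    have ja : jF (zz m ψa w) = jInv ⟨_, hza⟩ := jF_coe ⟨_, hza⟩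
    have jb : jF (zz l ψb w) = jInv ⟨_, hzb⟩ := jF_coe ⟨_, hzb⟩
    rw [ja, ht, ← SFamX_aeval, ← SFamX_aeval] at hja
    rw [jb, ht, ← SFamX_aeval, ← SFamX_aeval] at hjb
    rw [ht, ← SFamX_aeval] at hna hnb
    rw [ht, ← SFamX_aeval, ← SFamX_aeval, SFamX_lc, SFamX_lc, hw] at hcal
    obtain ⟨τa, hτa⟩ : ∃ τa : ℍ, τa = ⟨_, hza⟩ := ⟨_, rfl⟩
    obtain ⟨τb, hτb⟩ : ∃ τb : ℍ, τb = ⟨_, hzb⟩ := ⟨_, rfl⟩
    rw [← hτa] at hja hcal
    rw [← hτb] at hjb hcal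
    have hYa : Y ≤ τa.im := by
      rw [hτa]
      exact (le_max_left _ _).trans (h1 w hw)
    have hYb : Y ≤ τb.im := by
      rw [hτb]
      exact (le_max_left _ _).trans (h2 w hw)
    have hEa : jInv τa * ModularForm.discriminant τa = ModularForm.E₄ τa ^ 3 := by
      rw [jInv, div_mul_cancel₀ _ (ModularForm.discriminant_ne_zero τa)]
    have hEb : jInv τb * ModularForm.discriminant τb = ModularForm.E₄ τb ^ 3 := by
      rw [jInv, div_mul_cancel₀ _ (ModularForm.discriminant_ne_zero τb)]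
    have hΔa := ModularForm.discriminant_ne_zero τa
    have hcc := hYR s⁻¹ τa τb h4 hYa hYb (by rw [hja, div_mul_cancel₀ _ hna])
      (by rw [hjb, div_mul_cancel₀ _ hnb])
    rw [← hEa, ← hEb, hja, hjb, hr] at hcc
    obtain ⟨h5a, h5b⟩ := h5
    have hpow : (s⁻¹) ^ Ab.natDegree ≠ 0 := pow_ne_zero _ (inv_ne_zero hs0')
    generalize (aeval s⁻¹ Aa : ℂ) = xa at *
    generalize (aeval s⁻¹ Ab : ℂ) = xb at *
    generalize (aeval s⁻¹ Ba : ℂ) = ya at *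
    generalize (aeval s⁻¹ Bb : ℂ) = yb at *
    generalize ModularForm.discriminant τa = da at *
    generalize ModularForm.discriminant τb = db at *
    generalize (s⁻¹) ^ Ab.natDegree = pw at *
    generalize ((Aa.leadingCoeff : Qb) : ℂ) = ca at *
    generalize ((Ab.leadingCoeff : Qb) : ℂ) = cb at *
    have h6 : db * ya * cb = ca * (da * yb) := by
      field_simp at hcc
      linear_combination hcc
    field_simp at hcal
    have h7 : (ca * (da * yb)) * G s = 0 := by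
      linear_combination -hcal + h6
    rcases mul_eq_zero.1 h7 with h8 | h8
    · exact absurd h8 (mul_ne_zero hla (mul_ne_zero hΔa hnb))
    · exact h8
  have han : AnalyticOnNhd ℂ G (Metric.ball 0 r) := hL.dG.analyticOnNhd Metric.isOpen_ball
  have h0 : (0 : ℂ) ∈ Metric.ball (0 : ℂ) r := Metric.mem_ball_self hL.r0
  have heq : Set.EqOn G 0 (Metric.ball 0 r) :=
    han.eqOn_zero_of_preconnected_of_frequently_eq_zero (convex_ball 0 r).isPreconnected h0 key.frequently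
  obtain ⟨s, hs, hne⟩ := hG m l r ψa ψb G hL
  exact hne (heq hs)

end Pool.Agent.LGO.PS
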