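import Mathlib
import Pool.Agent.LGO.PS.NFin
import Pool.Agent.LGO.PS.SFamX
import Pool.Agent.LGO.PS.GNp
import Pool.Agent.LGO.PS.ArAll
import Pool.Agent.LGO.PS.E6.Main
import Pool.Agent.LGO.PA.XiBd
import Pool.Agent.LGO.Gal.Inv

/-!
# LGO/PS: the height of the parameter, functions of the same degree with a common pole at infinity

PROOF.  `xi_bd` (LGO/PA), `ar_all` (archimedean part, with `engine6` and `gn` for all conjugates), `n_fin` (denominator).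
-/

namespace Pool.Agent.LGO.PS

open Polynomial Pool.Agent.Hhelper14.ZP Pool.Agent.Hhelper14.ZPL Pool.Agent.LGO Pool.Agent.LGO.U
  Pool.Agent.LGO.PA

/-- no modular relation for the conjugates -/
theorem nomd_conj {Aa Ba Ab Bb : Polynomial Qb}
    (h : NoMd (Aa.map (algebraMap Qb ℂ)) (Ba.map (algebraMap Qb ℂ)) (Ab.map (algebraMap Qb ℂ))
      (Bb.map (algebraMap Qb ℂ))) (s : ℂ ≃+* ℂ) :
    NoMd (RAll_conj s Aa) (RAll_conj s Ba) (RAll_conj s Ab) (RAll_conj s Bb) := by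
  classical
  intro N hN E
  obtain ⟨t, htE, h1, h2, h3⟩ := h N hN (E.image s.symm)
  have e : ∀ P : Polynomial Qb, (RAll_conj s P).eval (s t) = s ((P.map (algebraMap Qb ℂ)).eval t) := by
    intro P
    rw [RAll_eval, aeval_def, eval_map]
  refine ⟨s t, fun hE => htE ?_, ?_, ?_, ?_⟩
  · exact Finset.mem_image.2 ⟨s t, hE, s.symm_apply_apply t⟩
  · rw [e]
    exact (map_ne_zero s).2 h1
  · rw [e]
    exact (map_ne_zero s).2 h2
  · rw [e, e, e, e, ← map_div₀, ← map_div₀]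
    intro h4
    have h5 := Pool.Agent.LGO.IsogDeg.map (s.symm : ℂ →+* ℂ) hN h4
    apply h3
    have e5 : ∀ z : ℂ, (s.symm : ℂ →+* ℂ) (s z) = z := fun z => s.symm_apply_apply z
    rwa [e5, e5] at h5

/-- `G ≠ 0` for all conjugates -/
theorem gn_conj {Aa Ba Ab Bb : Polynomial Qb} (ca : IsCoprime Aa Ba) (cb : IsCoprime Ab Bb)
    (hBa : Ba.natDegree < Aa.natDegree) (hBb : Bb.natDegree < Ab.natDegree) (ha : Ba ≠ 0) (hb : Bb ≠ 0)
    (h : NoMd (Aa.map (algebraMap Qb ℂ)) (Ba.map (algebraMap Qb ℂ)) (Ab.map (algebraMap Qb ℂ))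
      (Bb.map (algebraMap Qb ℂ))) (s : ℂ ≃+* ℂ) :
    GN (RAll_conj s Aa) (RAll_conj s Ba) (RAll_conj s Ab) (RAll_conj s Bb) := by
  have e1 : ∀ {A B : Polynomial Qb}, IsCoprime A B → IsCoprime (RAll_conj s A) (RAll_conj s B) := by
    intro A B hAB
    exact (hAB.map (mapRingHom (algebraMap Qb ℂ))).map (mapRingHom (s : ℂ →+* ℂ))
  have e2 : ∀ {A : Polynomial Qb}, A ≠ 0 → RAll_conj s A ≠ 0 := by
    intro A hA
    have h1 : Function.Injective (s : ℂ →+* ℂ) := s.injective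
    exact (Polynomial.map_ne_zero_iff h1).2
      ((Polynomial.map_ne_zero_iff (algebraMap Qb ℂ).injective).2 hA)
  refine gn (e1 ca) (e1 cb) (e2 ha) (e2 hb) ?_ ?_ (nomd_conj h s)
  · rw [RAll_natDegree, RAll_natDegree]
    exact lt_max_of_lt_left (by omega)
  · rw [RAll_natDegree, RAll_natDegree]
    exact lt_max_of_lt_left (by omega)

private theorem TBdS_num {C₁ : ℝ} {C₂ C₃ : ℕ} (h1 : 1 ≤ C₁) (h2 : 1 ≤ C₂) (h3 : 1 ≤ C₃) :
    ∃ C : ℕ, 1 ≤ C ∧ ∀ X : ℝ, 1 ≤ X →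
      (C₂ * ((C₁ + 2) * X)) ^ C₂ ≤ (C * X) ^ C ∧ (C₃ * ((C₁ + 2) * X)) ^ C₃ ≤ (C * X) ^ C := by
  refine ⟨C₂ * ⌈C₁ + 2⌉₊ + C₃ * ⌈C₁ + 2⌉₊ + C₂ + C₃, by omega, fun X hX => ?_⟩
  obtain ⟨c, hc⟩ : ∃ c : ℕ, c = ⌈C₁ + 2⌉₊ := ⟨_, rfl⟩
  have hcc : C₁ + 2 ≤ c := by rw [hc]; exact Nat.le_ceil _
  rw [← hc]
  set C : ℕ := C₂ * c + C₃ * c + C₂ + C₃ with hC
  have key : ∀ D : ℕ, 1 ≤ D → D * c ≤ C → D ≤ C → (D * ((C₁ + 2) * X)) ^ D ≤ ((C : ℝ) * X) ^ C := by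
    intro D hD hDc hDC
    have a0 : (1 : ℝ) ≤ D := by exact_mod_cast hD
    have a1 : (D : ℝ) * c ≤ C := by exact_mod_cast hDc
    have a2 : (D : ℝ) * ((C₁ + 2) * X) ≤ C * X := by
      calc (D : ℝ) * ((C₁ + 2) * X) = (D * (C₁ + 2)) * X := by ring
        _ ≤ (D * c) * X := by gcongr
        _ ≤ C * X := mul_le_mul_of_nonneg_right a1 (by linarith)
    have a3 : (1 : ℝ) ≤ D * ((C₁ + 2) * X) := by
      have : (1 : ℝ) ≤ (C₁ + 2) * X := by nlinarith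
      nlinarith
    exact (pow_le_pow_left₀ (by linarith) a2 _).trans (pow_le_pow_right₀ (a3.trans a2) hDC)
  exact ⟨key C₂ h2 (by omega) (by omega), key C₃ h3 (by omega) (by omega)⟩

/-- **the height of the parameter** (Theorem S): functions of the same degree with a common pole at infinity -/
theorem t_bdS {Aa Ba Ab Bb : Polynomial Qb} (ca : IsCoprime Aa Ba) (cb : IsCoprime Ab Bb)
    (hda : Ba.natDegree < Aa.natDegree) (hdb : Bb.natDegree < Ab.natDegree)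
    (hr : Aa.natDegree = Ab.natDegree)
    (hm : NoMd (Aa.map (algebraMap Qb ℂ)) (Ba.map (algebraMap Qb ℂ)) (Ab.map (algebraMap Qb ℂ))
      (Bb.map (algebraMap Qb ℂ))) :
    ∃ C : ℕ, 1 ≤ C ∧ ∀ (K : IntermediateField ℚ ℂ) [FiniteDimensional ℚ K] (u v t B : ℂ),
      Par Aa Ba Ab Bb u v t B → u ∈ K → v ∈ K → t ∈ K →
      (∀ P ∈ ({Aa, Ba, Ab, Bb} : Finset (Polynomial Qb)), ∀ i, ((P.coeff i : Qb) : ℂ) ∈ K) →
      ∀ H : ℝ, 1 ≤ H → (∀ s : ℂ ≃+* ℂ, ‖s u‖ ≤ Real.exp H) →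
        (∀ s : ℂ ≃+* ℂ, ‖s v‖ ≤ Real.exp H) →
          Bd K ((C * (Module.finrank ℚ K * (1 + Real.log (mdeg v u) + Real.log H))) ^ C) t := by
  -- `Ba`, `Bb` are not `0`
  have hne : ∀ {A B : Polynomial Qb}, IsCoprime A B → B.natDegree < A.natDegree → B ≠ 0 := by
    intro A B hc hd hB
    subst hB
    have h1 : IsUnit A := isCoprime_zero_right.1 hc
    rw [natDegree_eq_zero_of_isUnit h1] at hd
    omega
  have hBa := hne ca hda
  have hBb := hne cb hdb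
  have hn : rdeg Aa Ba = rdeg Ab Bb := by
    unfold rdeg
    rw [max_eq_left hda.le, max_eq_left hdb.le, hr]
  have hinj : Function.Injective (algebraMap Qb ℂ) := (algebraMap Qb ℂ).injective
  obtain ⟨C₁, h1, H1⟩ := xi_bd ca cb hn
  obtain ⟨C₂, h2, H2⟩ := ar_all (fun lam hal hroot => E6.engine6 lam hal hroot) Aa Ba Ab Bb hr.symm hda
    (hr ▸ hdb) hBa hBb (gn_conj ca cb hda hdb hBa hBb hm)
  obtain ⟨m, l, r, ψa, ψb, G, hL⟩ := exists_LD (Aa := Aa.map (algebraMap Qb ℂ))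
    (Ba := Ba.map (algebraMap Qb ℂ)) (Ab := Ab.map (algebraMap Qb ℂ)) (Bb := Bb.map (algebraMap Qb ℂ))
    (n := Aa.natDegree) (natDegree_map_eq_of_injective hinj _)
    (by rw [natDegree_map_eq_of_injective hinj, hr]) (by rw [natDegree_map_eq_of_injective hinj]; exact hda)
    (by rw [natDegree_map_eq_of_injective hinj, hr]; exact hdb)
    ((Polynomial.map_ne_zero_iff hinj).2 hBa) ((Polynomial.map_ne_zero_iff hinj).2 hBb)
  have hG : GN (Aa.map (algebraMap Qb ℂ)) (Ba.map (algebraMap Qb ℂ)) (Ab.map (algebraMap Qb ℂ))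
      (Bb.map (algebraMap Qb ℂ)) := by
    refine gn (ca.map (mapRingHom (algebraMap Qb ℂ))) (cb.map (mapRingHom (algebraMap Qb ℂ)))
      ((Polynomial.map_ne_zero_iff hinj).2 hBa) ((Polynomial.map_ne_zero_iff hinj).2 hBb) ?_ ?_ hm
    · rw [natDegree_map_eq_of_injective hinj, natDegree_map_eq_of_injective hinj]
      exact lt_max_of_lt_left (by omega)
    · rw [natDegree_map_eq_of_injective hinj, natDegree_map_eq_of_injective hinj]
      exact lt_max_of_lt_left (by omega)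
  obtain ⟨m₀, S, hS⟩ := exists_sfam hda hdb hr hL hG
  obtain ⟨C₃, h3, H3⟩ := n_fin hda hdb hr hBa hBb hS
  obtain ⟨C, hC, HC⟩ := TBdS_num h1 h2 h3
  refine ⟨C, hC, ?_⟩
  intro K _ u v t B hP hu hv ht hco H hH hsu hsv
  have ha : ∀ i, ((Ba.coeff i : Qb) : ℂ) ∈ K := hco Ba (by simp)
  have hb : ∀ i, ((Bb.coeff i : Qb) : ℂ) ∈ K := hco Bb (by simp)
  have hk : kap Aa Ab ∈ K := by
    unfold kap
    exact div_mem (hco Aa (by simp) _) (hco Ab (by simp) _)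
  have hN : 0 < mdeg v u := mdeg_pos hP.isB.isog
  have hN1 : (1 : ℝ) ≤ mdeg v u := by exact_mod_cast hN
  have hD : 0 < Module.finrank ℚ K := Module.finrank_pos
  have hD1 : (1 : ℝ) ≤ Module.finrank ℚ K := by exact_mod_cast hD
  have hlN : 0 ≤ Real.log (mdeg v u) := Real.log_nonneg hN1
  have hlH : 0 ≤ Real.log H := Real.log_nonneg hH
  set L : ℝ := 1 + Real.log (mdeg v u) + Real.log H with hL'
  have hL1 : 1 ≤ L := by linarith
  set X : ℝ := Module.finrank ℚ K * L with hXdef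
  have hLX : L ≤ X := by rw [hXdef]; nlinarith
  have hDX : (Module.finrank ℚ K : ℝ) ≤ X := by rw [hXdef]; nlinarith
  have hX : 1 ≤ X := hL1.trans hLX
  have hXM : X ≤ (C₁ + 2) * X := by nlinarith
  have hM2 : 2 ≤ (C₁ + 2) * X := by nlinarith
  have hNM : (mdeg v u : ℝ) ≤ Real.exp ((C₁ + 2) * X) := by
    rw [← Real.log_le_iff_le_exp (by linarith)]
    linarith
  have hXi : Bd K ((C₁ + 2) * X) (Xi Ba Bb 1 1 t B) :=
    (H1 K u v t B hP hu hv ht ha hb H hH hsu hsv).mono (by nlinarith)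
  obtain ⟨g1, g2⟩ := HC X hX
  refine ⟨ht, ?_, ?_⟩
  · obtain ⟨n, hn0, hn1, hn2⟩ := H3 K ((C₁ + 2) * X) u v t B hM2 (hDX.trans hXM) hNM hP ht hk hXi
    exact ⟨n, hn0, hn1.trans (Real.exp_le_exp.2 g2), hn2⟩
  · intro σ
    obtain ⟨s, hs⟩ := exists_aut K σ
    rw [← hs ⟨t, ht⟩]
    exact (H2 K ((C₁ + 2) * X) u v t B hM2 (hDX.trans hXM) hNM hP hXi s).trans
      (Real.exp_le_exp.2 g1)

end Pool.Agent.LGO.PS
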