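import Mathlib
import Pool.Agent.LGO.PS.TBdS
import Pool.Agent.LGO.ZF.Pair
import Pool.Agent.LGO.PA.NeqT
import Pool.Agent.LGO.U.RNum
import Pool.Agent.LGO.U.RFld
import Pool.Agent.LGO.H.Use

/-!
# LGO/PS: the pair theorem for functions of the same degree with a common pole at infinity (Theorem S)

PROOF.  The proof of `PA_main` (LGO/PA/Main.lean) with `t_bdS` in place of `t_bd`.
-/

namespace Pool.Agent.LGO.PS

open Polynomial Pool.Agent.Hhelper14.ZPL Pool.Agent.LGO Pool.Agent.LGO.U Pool.Agent.LGO.PA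

/-- one of the conjugates of an algebraic number has the largest absolute value -/
private theorem Main_max {z : ℂ} (hint : IsIntegral ℚ z) :
    ∃ s₀ : ℂ ≃+* ℂ, ∀ s : ℂ ≃+* ℂ, ‖s z‖ ≤ ‖s₀ z‖ := by
  classical
  have hP0 : minpoly ℚ z ≠ 0 := minpoly.ne_zero hint
  have hfin : (Set.range fun s : ℂ ≃+* ℂ => ‖s z‖).Finite := by
    apply Set.Finite.subset ((((minpoly ℚ z).aroots ℂ).toFinset.finite_toSet).image fun w => ‖w‖)
    rintro _ ⟨s, rfl⟩
    refine ⟨s z, ?_, rfl⟩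
    rw [Finset.mem_coe, Multiset.mem_toFinset, Polynomial.mem_aroots]
    refine ⟨hP0, ?_⟩
    have h1 := Polynomial.aeval_algHom_apply (RingHom.toRatAlgHom (s : ℂ →+* ℂ)) z (minpoly ℚ z)
    rw [minpoly.aeval, map_zero] at h1
    exact h1
  obtain ⟨r, ⟨s₀, hs₀⟩, hr⟩ := Set.exists_max_image (Set.range fun s : ℂ ≃+* ℂ => ‖s z‖) id hfin
    ⟨_, ⟨RingEquiv.refl ℂ, rfl⟩⟩
  refine ⟨s₀, fun s => ?_⟩
  have := hr _ ⟨s, rfl⟩
  rw [← hs₀] at this
  exact this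

private theorem Main_log {x y : ℝ} (hx : 0 ≤ x) (hy : 0 ≤ y) (h : x ≤ Real.exp y) : Real.log x ≤ y := by
  rcases hx.eq_or_lt with rfl | hx
  · rwa [Real.log_zero]
  · exact (Real.log_le_iff_le_exp hx).2 h

private theorem Main_num1 {c₀ C₁ Ct D D' lN lm lH : ℝ} {k : ℕ} (h0 : 1 ≤ c₀) (h1 : 1 ≤ C₁) (ht : 1 ≤ Ct)
    (hD : 1 ≤ D) (hD' : 1 ≤ D') (hDD : D' ≤ c₀ * D) (hN : 1 ≤ lN) (hm : 0 ≤ lm) (hmN : lm ≤ lN)
    (hH : 0 ≤ lH) :
    C₁ * D' * (Ct * (D' * (1 + lm + lH))) ^ k ≤ (2 * C₁ * Ct * c₀ * D * (lN + lH)) ^ (k + 1) := by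
  have hb : 1 ≤ C₁ * Ct * c₀ := one_le_mul_of_one_le_of_one_le (one_le_mul_of_one_le_of_one_le h1 ht) h0
  have e1 : Ct * (D' * (1 + lm + lH)) ≤ 2 * C₁ * Ct * c₀ * D * (lN + lH) := by
    have a1 : 1 + lm + lH ≤ 2 * (lN + lH) := by linarith
    have a2 : D' * (1 + lm + lH) ≤ (c₀ * D) * (2 * (lN + lH)) := mul_le_mul hDD a1 (by linarith) (by positivity)
    have a3 : Ct * (D' * (1 + lm + lH)) ≤ (C₁ * Ct) * ((c₀ * D) * (2 * (lN + lH))) := by
      refine mul_le_mul ?_ a2 (by positivity) (by positivity)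
      nlinarith
    calc _ ≤ _ := a3
      _ = _ := by ring
  have e2 : C₁ * D' ≤ 2 * C₁ * Ct * c₀ * D * (lN + lH) := by
    have a1 : C₁ * D' ≤ C₁ * (c₀ * D) := mul_le_mul_of_nonneg_left hDD (by linarith)
    have a2 : C₁ * (c₀ * D) * 1 ≤ C₁ * (c₀ * D) * (2 * Ct * (lN + lH)) := by
      apply mul_le_mul_of_nonneg_left _ (by positivity)
      nlinarith
    calc _ ≤ _ := a1
      _ = C₁ * (c₀ * D) * 1 := by ring
      _ ≤ _ := a2
      _ = _ := by ring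
  have h3 : 0 ≤ Ct * (D' * (1 + lm + lH)) := by positivity
  have h4 : 0 ≤ C₁ * D' := by positivity
  calc C₁ * D' * (Ct * (D' * (1 + lm + lH))) ^ k
      ≤ (2 * C₁ * Ct * c₀ * D * (lN + lH)) * (2 * C₁ * Ct * c₀ * D * (lN + lH)) ^ k :=
        mul_le_mul e2 (pow_le_pow_left₀ h3 e1 k) (by positivity) (by positivity)
    _ = _ := by ring

private theorem Main_num2 {a C₃ D lN lH : ℝ} {j k : ℕ} (h0 : 1 ≤ a) (h1 : 1 ≤ C₃) (hD : 1 ≤ D) (hN : 1 ≤ lN)
    (hH0 : 0 ≤ lH) (hH : lH ≤ (C₃ * D * lN) ^ j) (hj : 1 ≤ j) :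
    (a * D * (lN + lH)) ^ (k + 1) ≤ (2 * a * C₃ * D * lN) ^ ((j + 1) * (k + 1)) := by
  have hY : 1 ≤ C₃ * D * lN := one_le_mul_of_one_le_of_one_le (one_le_mul_of_one_le_of_one_le h1 hD) hN
  have hlN : lN ≤ (C₃ * D * lN) ^ j := by
    calc lN = 1 * lN := (one_mul _).symm
      _ ≤ C₃ * D * lN := mul_le_mul_of_nonneg_right (one_le_mul_of_one_le_of_one_le h1 hD) (by linarith)
      _ ≤ (C₃ * D * lN) ^ j := le_self_pow₀ hY (by omega)
  have e1 : a * D * (lN + lH) ≤ (2 * a * C₃ * D * lN) ^ (j + 1) := by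
    calc a * D * (lN + lH) ≤ a * D * (2 * (C₃ * D * lN) ^ j) :=
          mul_le_mul_of_nonneg_left (by linarith) (by positivity)
      _ = (2 * a * D) * (C₃ * D * lN) ^ j := by ring
      _ ≤ (2 * a * C₃ * D * lN) * (2 * a * C₃ * D * lN) ^ j := by
          refine mul_le_mul ?_ (pow_le_pow_left₀ (by positivity) ?_ j) (by positivity) (by positivity)
          · calc 2 * a * D = 2 * a * D * 1 := by ring
              _ ≤ 2 * a * D * (C₃ * lN) :=
                mul_le_mul_of_nonneg_left (one_le_mul_of_one_le_of_one_le h1 hN) (by positivity)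
              _ = _ := by ring
          · calc C₃ * D * lN = 1 * (C₃ * D * lN) := (one_mul _).symm
              _ ≤ (2 * a) * (C₃ * D * lN) := mul_le_mul_of_nonneg_right (by linarith) (by positivity)
              _ = _ := by ring
      _ = _ := by ring
  rw [pow_mul]
  exact pow_le_pow_left₀ (by positivity) e1 _

/-- **THE PAIR THEOREM FOR SIMILAR PAIRS**: `u = Aa(t) / Ba(t)` and `v = Ab(t) / Bb(t)` have the same degree, a common pole at infinity and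
no modular relation; if `v` is not CM and isogenous to `u` then the degree of the isogeny and the heights are polynomially bounded -/
theorem PS_main {Aa Ba Ab Bb : Polynomial Qb} (ca : IsCoprime Aa Ba) (cb : IsCoprime Ab Bb)
    (hda : Ba.natDegree < Aa.natDegree) (hdb : Bb.natDegree < Ab.natDegree)
    (hr : Aa.natDegree = Ab.natDegree)
    (hm : NoMd (Aa.map (algebraMap Qb ℂ)) (Ba.map (algebraMap Qb ℂ)) (Ab.map (algebraMap Qb ℂ))
      (Bb.map (algebraMap Qb ℂ))) :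
    ∃ C : ℕ, 1 ≤ C ∧ ∀ (K : IntermediateField ℚ ℂ) [FiniteDimensional ℚ K] (u v t : ℂ),
      u ∈ K → v ∈ K → t ∈ K → (aeval t Aa : ℂ) = u * aeval t Ba → (aeval t Ba : ℂ) ≠ 0 →
      (aeval t Ab : ℂ) = v * aeval t Bb → (aeval t Bb : ℂ) ≠ 0 → NCM v →
      (∃ N, 0 < N ∧ IsogDeg N v u) →
        (mdeg v u : ℝ) ≤ (C * Module.finrank ℚ K : ℝ) ^ C ∧
        Bd K ((C * Module.finrank ℚ K : ℝ) ^ C) u ∧ Bd K ((C * Module.finrank ℚ K : ℝ) ^ C) v ∧
        Bd K ((C * Module.finrank ℚ K : ℝ) ^ C) t := by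
  classical
  obtain ⟨K₀, hK₀, hS⟩ := fld_fix {Aa, Ba, Ab, Bb}
  obtain ⟨Ct, hCt, htt⟩ := t_bdS ca cb hda hdb hr hm
  obtain ⟨Ca, hCa, hxa⟩ := bd_x Aa Ba
  obtain ⟨Cb, hCb, hxb⟩ := bd_x Ab Bb
  obtain ⟨C6, hisog⟩ := isog_use
  obtain ⟨c₀, hc₀⟩ : ∃ c₀ : ℕ, c₀ = Module.finrank ℚ K₀ := ⟨_, rfl⟩
  have hc₀1 : (1 : ℝ) ≤ c₀ := by rw [hc₀]; exact_mod_cast Module.finrank_pos
  have hCt1 : (1 : ℝ) ≤ Ct := by exact_mod_cast hCt
  obtain ⟨C₁, hC₁⟩ : ∃ C₁ : ℝ, C₁ = max Ca Cb := ⟨_, rfl⟩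
  have hC₁1 : 1 ≤ C₁ := by rw [hC₁]; exact hCa.trans (le_max_left _ _)
  obtain ⟨a, ha⟩ : ∃ a : ℝ, a = 2 * C₁ * Ct * c₀ := ⟨_, rfl⟩
  have ha1 : 1 ≤ a := by
    have : 1 ≤ C₁ * Ct * c₀ := one_le_mul_of_one_le_of_one_le (one_le_mul_of_one_le_of_one_le hC₁1 hCt1) hc₀1
    rw [ha]; nlinarith
  obtain ⟨C₃, hC₃, hnumH⟩ := num_H a (by linarith) (Ct + 1)
  have hC₃1 : (1 : ℝ) ≤ C₃ := by exact_mod_cast hC₃
  obtain ⟨k, hk⟩ : ∃ k : ℕ, k = (C₃ + 1) * (Ct + 1) := ⟨_, rfl⟩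
  have hk1 : 1 ≤ k := by rw [hk]; exact Nat.mul_pos (by omega) (by omega)
  obtain ⟨b, hb'⟩ : ∃ b : ℝ, b = 2 * a * C₃ := ⟨_, rfl⟩
  have hb1 : 1 ≤ b := by
    have : 1 ≤ a * C₃ := one_le_mul_of_one_le_of_one_le ha1 hC₃1
    rw [hb']; nlinarith
  obtain ⟨C₇, hC₇, hnumN⟩ := num_N (3 * b * c₀) (by positivity) (k * C6 + 1)
  have hC₇1 : (1 : ℝ) ≤ C₇ := by exact_mod_cast hC₇
  obtain ⟨e, he⟩ : ∃ e : ℝ, e = b * C₇ ^ 2 := ⟨_, rfl⟩
  have he1 : 1 ≤ e := by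
    rw [he]; exact one_le_mul_of_one_le_of_one_le hb1 (one_le_pow₀ hC₇1)
  refine ⟨⌈e⌉₊ + 2 * k + C₇, by omega, ?_⟩
  intro K _ u v t hu hv ht heqa hnea heqb hneb hncm hiso
  have hD1 : (1 : ℝ) ≤ Module.finrank ℚ K := by exact_mod_cast Module.finrank_pos
  obtain ⟨D, hDdef⟩ : ∃ D : ℝ, D = Module.finrank ℚ K := ⟨_, rfl⟩
  rw [← hDdef] at hD1 ⊢
  set C : ℕ := ⌈e⌉₊ + 2 * k + C₇ with hCdef
  have hCr : e + 2 * k + C₇ ≤ (C : ℝ) := by
    have e2 := Nat.le_ceil e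
    rw [hCdef]; push_cast; linarith
  have hC1 : (1 : ℝ) ≤ C := by
    have : (0 : ℝ) ≤ k := Nat.cast_nonneg k
    linarith
  have hC0 : 1 ≤ C := by exact_mod_cast hC1
  have hCD : 1 ≤ C * D := one_le_mul_of_one_le_of_one_le hC1 hD1
  obtain ⟨B, hB⟩ := exists_B hiso
  have hpar : Par Aa Ba Ab Bb u v t B := ⟨heqa, hnea, heqb, hneb, hncm, hB⟩
  set K' : IntermediateField ℚ ℂ := K ⊔ K₀ with hK'
  have hfd : FiniteDimensional ℚ K' := IntermediateField.finiteDimensional_sup K K₀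
  have hKK : K ≤ K' := le_sup_left
  have hcoef : ∀ P ∈ ({Aa, Ba, Ab, Bb} : Finset (Polynomial Qb)), ∀ i, ((P.coeff i : Qb) : ℂ) ∈ K' :=
    fun P hP i => (le_sup_right : K₀ ≤ K ⊔ K₀) (hS P hP i)
  have hrank : (Module.finrank ℚ K' : ℝ) ≤ c₀ * D := by
    have h5 : Module.finrank ℚ K' ≤ Module.finrank ℚ K * Module.finrank ℚ K₀ :=
      IntermediateField.finrank_sup_le K K₀
    rw [hc₀, hDdef, mul_comm]
    exact_mod_cast h5
  have hD1' : (1 : ℝ) ≤ Module.finrank ℚ K' := by exact_mod_cast Module.finrank_pos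
  obtain ⟨D', hD'def⟩ : ∃ D' : ℝ, D' = Module.finrank ℚ K' := ⟨_, rfl⟩
  have hint' : ∀ z ∈ K', IsIntegral ℚ z := by
    intro z hz
    have h1 : IsIntegral ℚ (⟨z, hz⟩ : K') := Algebra.IsIntegral.isIntegral _
    exact h1.map K'.val
  have huK : u ∈ K' := hKK hu
  have hvK : v ∈ K' := hKK hv
  have htK : t ∈ K' := hKK ht
  obtain ⟨su, hsu⟩ := Main_max (hint' u huK)
  obtain ⟨sv, hsv⟩ := Main_max (hint' v hvK)
  set H : ℝ := max 1 (max (Real.log ‖su u‖) (Real.log ‖sv v‖)) with hHdef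
  have hH1 : 1 ≤ H := le_max_left _ _
  have bu : ∀ s : ℂ ≃+* ℂ, ‖s u‖ ≤ Real.exp H := fun s =>
    (hsu s).trans ((Real.le_exp_log _).trans (Real.exp_le_exp.2 ((le_max_left _ _).trans (le_max_right _ _))))
  have bv : ∀ s : ℂ ≃+* ℂ, ‖s v‖ ≤ Real.exp H := fun s =>
    (hsv s).trans ((Real.le_exp_log _).trans (Real.exp_le_exp.2 ((le_max_right _ _).trans (le_max_right _ _))))
  have hm0 : 0 ≤ Real.log (mdeg v u) := Real.log_natCast_nonneg _
  have hlH0 : 0 ≤ Real.log H := Real.log_nonneg hH1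
  obtain ⟨N, hN⟩ : ∃ N : ℝ, N = max 3 (mdeg v u : ℝ) := ⟨_, rfl⟩
  have hN3 : 3 ≤ N := by rw [hN]; exact le_max_left _ _
  have hmN : (mdeg v u : ℝ) ≤ N := by rw [hN]; exact le_max_right _ _
  have hlN : 1 ≤ Real.log N := by
    rw [Real.le_log_iff_exp_le (by linarith)]
    have := Real.exp_one_lt_d9
    linarith
  have hmlog : Real.log (mdeg v u) ≤ Real.log N := by
    rcases Nat.eq_zero_or_pos (mdeg v u) with h0 | h0
    · rw [h0, Nat.cast_zero, Real.log_zero]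
      linarith
    · exact Real.log_le_log (by exact_mod_cast h0) hmN
  have hbt := htt K' u v t B hpar huK hvK htK hcoef H hH1 bu bv
  rw [← hD'def] at hbt hrank hD1'
  set G : ℝ := (Ct * (D' * (1 + Real.log (mdeg v u) + Real.log H))) ^ Ct with hG
  have hG1 : 1 ≤ G := by
    rw [hG]
    apply one_le_pow₀
    apply one_le_mul_of_one_le_of_one_le hCt1
    apply one_le_mul_of_one_le_of_one_le hD1'
    linarith
  have hCa1 : Ca ≤ C₁ := by rw [hC₁]; exact le_max_left _ _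
  have hCb1 : Cb ≤ C₁ := by rw [hC₁]; exact le_max_right _ _
  have hGD : 0 ≤ D' * G := by positivity
  have hbu : Bd K' (C₁ * D' * G) u := by
    refine (hxa K' u t G (hcoef Aa (by simp)) (hcoef Ba (by simp)) heqa hnea hG1 hbt).mono ?_
    rw [← hD'def, mul_assoc, mul_assoc]
    exact mul_le_mul_of_nonneg_right hCa1 hGD
  have hbv : Bd K' (C₁ * D' * G) v := by
    refine (hxb K' v t G (hcoef Ab (by simp)) (hcoef Bb (by simp)) heqb hneb hG1 hbt).mono ?_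
    rw [← hD'def, mul_assoc, mul_assoc]
    exact mul_le_mul_of_nonneg_right hCb1 hGD
  have hCDG1 : 1 ≤ C₁ * D' * G :=
    one_le_mul_of_one_le_of_one_le (one_le_mul_of_one_le_of_one_le hC₁1 hD1') hG1
  have hHG : H ≤ C₁ * D' * G := by
    refine max_le hCDG1 (max_le ?_ ?_)
    · exact Main_log (norm_nonneg _) (by linarith) (hbu.aut su)
    · exact Main_log (norm_nonneg _) (by linarith) (hbv.aut sv)
  have hX := Main_num1 (k := Ct) hc₀1 hC₁1 hCt1 hD1 hD1' hrank hlN hm0 hmlog hlH0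
  rw [← hG, ← ha] at hX
  have hH3 : H ≤ (C₃ * D * Real.log N) ^ C₃ := hnumH D N H hD1 hN3 hH1 (hHG.trans hX)
  have hlHH : Real.log H ≤ (C₃ * D * Real.log N) ^ C₃ := by
    refine le_trans ?_ hH3
    have := Real.log_le_sub_one_of_pos (x := H) (by linarith)
    linarith
  have hY := Main_num2 (a := a) (k := Ct) ha1 hC₃1 hD1 hlN hlH0 hlHH hC₃
  rw [← hk, ← hb'] at hY
  have hall : C₁ * D' * G ≤ (b * D * Real.log N) ^ k := hX.trans hY
  have hGle : G ≤ C₁ * D' * G := by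
    calc G = 1 * G := (one_mul _).symm
      _ ≤ C₁ * D' * G := mul_le_mul_of_nonneg_right (one_le_mul_of_one_le_of_one_le hC₁1 hD1') (by linarith)
  have hZ1 : 1 ≤ b * D * Real.log N :=
    one_le_mul_of_one_le_of_one_le (one_le_mul_of_one_le_of_one_le hb1 hD1) hlN
  -- the isogeny theorem
  have hZM : b * D * Real.log N ≤ 3 * b * c₀ * D * Real.log N := by
    calc b * D * Real.log N = b * D * Real.log N * 1 := (mul_one _).symm
      _ ≤ b * D * Real.log N * (3 * c₀) := mul_le_mul_of_nonneg_left (by linarith) (by linarith)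
      _ = _ := by ring
  have hM3 : 3 ≤ 3 * b * c₀ * D * Real.log N := by
    calc (3 : ℝ) = 3 * 1 := by ring
      _ ≤ 3 * (b * D * Real.log N * c₀) :=
        mul_le_mul_of_nonneg_left (one_le_mul_of_one_le_of_one_le hZ1 hc₀1) (by norm_num)
      _ = _ := by ring
  obtain ⟨W, hW⟩ : ∃ W : ℝ, W = 3 * b * c₀ * D * Real.log N := ⟨_, rfl⟩
  rw [← hW] at hZM hM3
  have hW1 : 1 ≤ W := by linarith
  have hM2 : 2 ≤ W ^ k := by
    calc (2 : ℝ) ≤ W := by linarith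
      _ ≤ W ^ k := le_self_pow₀ hW1 (by omega)
  have hMD : (Module.finrank ℚ K' : ℝ) ≤ W ^ k := by
    rw [← hD'def]
    calc D' ≤ c₀ * D := hrank
      _ ≤ W := by
        rw [hW]
        have h9 : 1 ≤ b * Real.log N := one_le_mul_of_one_le_of_one_le hb1 hlN
        calc c₀ * D = c₀ * D * 1 := (mul_one _).symm
          _ ≤ c₀ * D * (3 * (b * Real.log N)) := mul_le_mul_of_nonneg_left (by linarith) (by positivity)
          _ = _ := by ring
      _ ≤ W ^ k := le_self_pow₀ hW1 (by omega)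
  have hallW : C₁ * D' * G ≤ W ^ k := hall.trans (pow_le_pow_left₀ (by linarith) hZM k)
  have hncmu : NCM u := by
    obtain ⟨n, hn, hn'⟩ := hiso
    exact NCM.of_isog hn hn' hncm
  have hmd := hisog K' (W ^ k) v u hM2 hMD (hbv.mono hallW) (hbu.mono hallW) hncm hncmu hiso
  rw [← pow_mul] at hmd
  have hNW : N ≤ W ^ (k * C6 + 1) := by
    rw [hN]
    refine max_le ?_ ?_
    · calc (3 : ℝ) ≤ W := hM3
        _ ≤ W ^ (k * C6 + 1) := le_self_pow₀ hW1 (by omega)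
    · exact hmd.trans (pow_le_pow_right₀ hW1 (by omega))
  rw [hW] at hNW
  have hN7 : N ≤ (C₇ * D) ^ C₇ := hnumN D N hD1 hN3 hNW
  have hC7D : 1 ≤ C₇ * D := one_le_mul_of_one_le_of_one_le hC₇1 hD1
  have hlN7 : Real.log N ≤ C₇ ^ 2 * D := by
    calc Real.log N ≤ Real.log ((C₇ * D) ^ C₇) := Real.log_le_log (by linarith) hN7
      _ = C₇ * Real.log (C₇ * D) := by rw [Real.log_pow]
      _ ≤ C₇ * (C₇ * D) := by
          apply mul_le_mul_of_nonneg_left _ (by linarith)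
          have := Real.log_le_sub_one_of_pos (x := C₇ * D) (by linarith)
          linarith
      _ = _ := by ring
  have hfin : C₁ * D' * G ≤ (C * D) ^ C := by
    have h10 : b * D * Real.log N ≤ e * D ^ 2 := by
      calc b * D * Real.log N ≤ b * D * (C₇ ^ 2 * D) := mul_le_mul_of_nonneg_left hlN7 (by positivity)
        _ = e * D ^ 2 := by rw [he]; ring
    have h11 : e * D ^ 2 ≤ (C * D) ^ 2 := by
      have h12 : e ≤ C := by
        have : (0 : ℝ) ≤ k := Nat.cast_nonneg k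
        linarith
      calc e * D ^ 2 ≤ (C ^ 2) * D ^ 2 := by
            apply mul_le_mul_of_nonneg_right _ (by positivity)
            nlinarith
        _ = _ := by ring
    calc C₁ * D' * G ≤ (b * D * Real.log N) ^ k := hall
      _ ≤ ((C * D) ^ 2) ^ k := pow_le_pow_left₀ (by linarith) (h10.trans h11) k
      _ = (C * D) ^ (2 * k) := by rw [← pow_mul]
      _ ≤ (C * D) ^ C := pow_le_pow_right₀ hCD (by omega)
  refine ⟨?_, bd_down (hbu.mono hfin) hu, bd_down (hbv.mono hfin) hv, bd_down (hbt.mono (hGle.trans hfin)) ht⟩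
  calc (mdeg v u : ℝ) ≤ N := hmN
    _ ≤ (C₇ * D) ^ C₇ := hN7
    _ ≤ (C * D) ^ C₇ := by
        apply pow_le_pow_left₀ (by linarith)
        apply mul_le_mul_of_nonneg_right _ (by linarith)
        have : (0 : ℝ) ≤ k := Nat.cast_nonneg k
        linarith
    _ ≤ (C * D) ^ C := pow_le_pow_right₀ hCD (by omega)

/-- the pair theorem in the form of `LGO/ZF` and `LGO/ZH` -/
theorem pairThm {Aa Ba Ab Bb : Polynomial Qb} (ca : IsCoprime Aa Ba) (cb : IsCoprime Ab Bb)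
    (hda : Ba.natDegree < Aa.natDegree) (hdb : Bb.natDegree < Ab.natDegree)
    (hr : Aa.natDegree = Ab.natDegree)
    (hm : NoMd (Aa.map (algebraMap Qb ℂ)) (Ba.map (algebraMap Qb ℂ)) (Ab.map (algebraMap Qb ℂ))
      (Bb.map (algebraMap Qb ℂ))) : ZF.PairThm Aa Ba Ab Bb := by
  obtain ⟨C, -, h1⟩ := PS_main ca cb hda hdb hr hm
  refine ⟨C, ∅, Set.finite_empty, ?_⟩
  intro K _ u v t _ hu hv ht _ hn hi b1 b2 b3 b4
  obtain ⟨h2, -, -, h3⟩ := h1 K u v t hu hv ht b2 b1 b4 b3 hn hi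
  exact ⟨h2, h3⟩

end Pool.Agent.LGO.PS
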